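import Pool.Agent.Helper7K9.FP.Stm

/-!
# Transcendental elements are detected by derivations
-/

namespace Pool.Agent.Helper7K9.FP

open TensorProduct KaehlerDifferential

theorem algd_aux : ∀ (F L : Type) [Field F] [CharZero F] [Field L] [Algebra F L] (x : L), ¬ IsAlgebraic F x →
    ∃ D : Derivation F L L, D x ≠ 0 := by
  intro F L _ _ _ _ x hx
  have hx' : Transcendental F x := hx
  have hs : AlgebraicIndepOn F id ({x} : Set L) := by
    exact algebraicIndependent_unique_type_iff.mpr hx'
  obtain ⟨t, ht, hb⟩ := exists_isTranscendenceBasis_superset hs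
  set P := MvPolynomial t F with hP
  set A0 := Algebra.adjoin F (Set.range ((↑) : t → L)) with hA0
  let e0 : P ≃ₐ[F] A0 := hb.1.aevalEquiv
  letI : Algebra P A0 := e0.toRingHom.toAlgebra
  haveI : IsScalarTower F P A0 := IsScalarTower.of_algebraMap_eq fun r => by
    change _ = e0 (algebraMap F P r)
    rw [e0.commutes]
  let e1 : P ≃ₐ[P] A0 := AlgEquiv.ofRingEquiv (f := e0.toRingEquiv) fun r => rfl
  haveI h1 : Algebra.FormallyEtale P A0 := Algebra.FormallyEtale.of_equiv e1
  haveI : FaithfulSMul A0 L := by
    rw [faithfulSMul_iff_algebraMap_injective]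
    exact Subtype.val_injective
  haveI : IsDomain A0 := IsDomain.of_faithfulSMul A0 L
  letI : Algebra (FractionRing A0) L := FractionRing.liftAlgebra A0 L
  haveI : IsScalarTower A0 (FractionRing A0) L := FractionRing.isScalarTower_liftAlgebra A0 L
  haveI : Algebra.IsAlgebraic A0 L := hb.isAlgebraic
  haveI : Algebra.IsAlgebraic (FractionRing A0) L :=
    Algebra.IsAlgebraic.extendScalars (R := A0) (IsFractionRing.injective A0 (FractionRing A0))
  haveI : CharZero L := charZero_of_injective_algebraMap (algebraMap F L).injective
  haveI : CharZero (FractionRing A0) := by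
    haveI : CharZero A0 := charZero_of_injective_algebraMap (R := F) (A := A0) (algebraMap F A0).injective
    exact charZero_of_injective_algebraMap (IsFractionRing.injective A0 (FractionRing A0))
  haveI h2 : Algebra.FormallyEtale (FractionRing A0) L := Algebra.FormallyEtale.of_isSeparable _ _
  haveI h3 : Algebra.FormallyEtale A0 (FractionRing A0) :=
    Algebra.FormallyEtale.of_isLocalization (nonZeroDivisors A0)
  haveI h4 : Algebra.FormallyEtale A0 L := Algebra.FormallyEtale.comp A0 (FractionRing A0) L
  letI : Algebra P L := ((algebraMap A0 L).comp (algebraMap P A0)).toAlgebra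
  haveI : IsScalarTower P A0 L := IsScalarTower.of_algebraMap_eq fun r => rfl
  haveI h5 : Algebra.FormallyEtale P L := Algebra.FormallyEtale.comp P A0 L
  haveI : IsScalarTower F P L := IsScalarTower.of_algebraMap_eq fun r => by
    change _ = algebraMap A0 L (e0 (algebraMap F P r))
    rw [e0.commutes]
    rfl
  let ix : t := ⟨x, ht rfl⟩
  have hX : algebraMap P L (MvPolynomial.X ix) = x := by
    change ((e0 (MvPolynomial.X ix) : A0) : L) = x
    have := hb.1.algebraMap_aevalEquiv (MvPolynomial.X ix)
    rw [MvPolynomial.aeval_X] at this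
    exact this
  have key : D F L x ≠ 0 := by
    intro h0
    have h6 := tensorKaehlerEquivOfFormallyEtale_symm_D_algebraMap F P L (MvPolynomial.X ix)
    rw [hX, h0, map_zero] at h6
    have h7 := ((mvPolynomialBasis F t).baseChange L).ne_zero ix
    apply h7
    rw [Module.Basis.baseChange_apply]
    rw [h6]
    congr 1
    apply (mvPolynomialBasis F t).repr.injective
    rw [mvPolynomialBasis_repr_D_X]
    simp
  obtain ⟨f, hf⟩ := Module.Projective.exists_dual_ne_zero L key
  exact ⟨f.compDer (D F L), hf⟩

theorem algd : S_ALGD := algd_aux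

end Pool.Agent.Helper7K9.FP
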