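import Pool.Agent.Helper7K9.FP.Crit2
import Pool.Agent.Y121.AH.Dom
import Pool.Agent.Y121.AH.Coef

/-!
# The operators `p - q` of a conjugate theory
-/

open CategoryTheory AlgebraicGeometry TensorProduct

universe u

namespace Pool.Agent.Helper7K9.FP

open Module
open Pool.Agent.H914 Pool.Agent.H914.VarClass Pool.Agent.H914.VarClass.Obj
  Pool.Agent.H914.WeilCohomology
open Pool.Agent.Y133.Half
open Pool.Agent.Y121.AH

variable {k : Type u} [Field k] {𝒱 : VarClass k} {ops : CycleOps 𝒱}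

section Conj

variable {V V' : WeilCohomology.{u, 0} ops} (R : Comparison V V') {X Y Z : 𝒱.Obj}

lemma symm_smul (l : V.K) (y : V'.H X) : (R.e X).symm (R.s l • y) = l • (R.e X).symm y := by
  rw [RingEquiv.symm_apply_eq, R.semi, RingEquiv.apply_symm_apply]

/-- The conjugate of an operator under a comparison isomorphism. -/
noncomputable def cj (g : Module.End V'.K (V'.H X)) : Module.End V.K (V.H X) where
  toFun x := (R.e X).symm (g (R.e X x))
  map_add' x y := by rw [map_add, map_add, map_add]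
  map_smul' l x := by rw [R.semi, map_smul, symm_smul]; rfl

lemma e_cj (g : Module.End V'.K (V'.H X)) (x : V.H X) : R.e X (cj R g x) = g (R.e X x) :=
  RingEquiv.apply_symm_apply _ _

lemma e_inj {x y : V.H X} (h : R.e X x = R.e X y) : x = y := (R.e X).injective h

lemma isDer_cj {g : ∀ Y : 𝒱.Obj, Module.End V'.K (V'.H Y)} (hg : IsDer V' g) :
    IsDer V fun Y => cj R (g Y) where
  mul Y a b := by
    apply e_inj R
    rw [e_cj, map_mul, hg.mul, map_add, map_mul, map_mul, e_cj, e_cj]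
  nat f b := by
    apply e_inj R
    rw [e_cj, R.nat, hg.nat, R.nat, e_cj]
  gr {Y i a} ha := by
    rw [← R.gr, e_cj]
    exact hg.gr (R.gr.2 ha)

lemma e_xp (a : V.H X) (b : V.H Y) : R.e (X.prod Y) (xp V a b) = xp V' (R.e X a) (R.e Y b) := by
  rw [xp, map_mul, R.nat, R.nat, xp]

lemma e_extOp (g : Module.End V'.K (V'.H Y)) (c : V.H (X.prod Y)) :
    R.e _ (extOp V 1 (cj R g) c) = extOp V' 1 g (R.e _ c) := by
  refine xp_induction (p := fun c => R.e _ (extOp V 1 (cj R g) c) =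
    extOp V' 1 g (R.e _ c)) ?_ ?_ c
  · intro a b ha hb; simp only [map_add, ha, hb]
  · intro i j a _ b _
    rw [extOp_xp, e_xp, e_xp, extOp_xp, e_cj]
    rfl

lemma cpow_ne (n : ℕ) : R.c ^ n ≠ 0 := pow_ne_zero _ R.ne

lemma e_diag : R.e (X.prod X) (V.push (diag X) 1) = R.c ^ X.dim • V'.push (diag X) 1 := by
  have h := R.push (diag X) (1 : V.H X)
  rw [map_one (R.e X), dim_prod, pow_add, mul_smul] at h
  exact smul_right_injective _ (cpow_ne R X.dim) h

lemma zcl_sub {W : WeilCohomology.{u, 0} ops} (a b : Module.End W.K (W.H X)) :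
    zcl W (a - b) = zcl W a - zcl W b := by
  rw [eq_sub_iff_add_eq, zcl, zcl, ← LinearMap.add_apply, ← extOp_add_right, sub_add_cancel, zcl]

lemma e_zcl (g : Module.End V'.K (V'.H X)) :
    R.e (X.prod X) (zcl V (cj R g)) = R.c ^ X.dim • zcl V' g := by
  rw [zcl, e_extOp, e_diag, map_smul, zcl]

end Conj

section Tor

variable {T T' : HodgeTheory ops} {X Y Z : 𝒱.Obj}

lemma IsHodge.of_mem {c : T.W.H Z} (hc : c ∈ (hodgeSys T).C Z) (j : ℕ) :
    IsHodge T Z j (H914.proj (T.W.isInternal Z) (2 * j) c) :=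
  ClassPred.sp_proj (Q := hodgePred T) hc j

/-- The trace against a class of degree `i` only depends on the component of complementary
degree. -/
lemma tr_comp {W : WeilCohomology.{u, 0} ops} {i j : ℕ} (hij : i + j = 2 * Z.dim) {z : W.H Z}
    (hz : z ∈ W.gr Z i) (c : W.H Z) :
    W.tr Z (z * c) = W.tr Z (z * H914.proj (W.isInternal Z) j c) := by
  refine gr_induction (W.isInternal Z) (p := fun c => W.tr Z (z * c) =
    W.tr Z (z * H914.proj (W.isInternal Z) j c)) ?_ ?_ c
  · intro l c hc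
    by_cases h : l = j
    · subst h; rw [proj_same _ hc]
    · rw [proj_ne _ hc h, mul_zero, map_zero, W.tr_eq_zero (W.mul_mem hz hc) (by omega)]
  · intro a b ha hb
    rw [mul_add, map_add, ha, hb, map_add, mul_add, map_add]

lemma tr_comp_em {W : WeilCohomology.{u, 0} ops} {L : Type} [Field L] [Algebra W.K L]
    {i j : ℕ} (hij : i + j = 2 * Z.dim) {z : (baseW W L).H Z}
    (hz : z ∈ (baseW W L).gr Z i) (c : W.H Z) :
    (baseW W L).tr Z (z * em W L c) =
      (baseW W L).tr Z (z * em W L (H914.proj (W.isInternal Z) j c)) := by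
  refine gr_induction (W.isInternal Z) (p := fun c => (baseW W L).tr Z (z * em W L c) =
      (baseW W L).tr Z (z * em W L (H914.proj (W.isInternal Z) j c))) ?_ ?_ c
  · intro l c hc
    by_cases h : l = j
    · subst h; rw [proj_same _ hc]
    · rw [proj_ne _ hc h, em_zero, mul_zero, map_zero,
        (baseW W L).tr_eq_zero ((baseW W L).mul_mem hz (em_gr hc)) (by omega)]
  · intro a b ha hb
    rw [em_add, mul_add, map_add, ha, hb, map_add, em_add, mul_add, map_add]

lemma diag_gr {W : WeilCohomology.{u, 0} ops} :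
    W.push (diag X) (1 : W.H X) ∈ W.gr (X.prod X) (2 * X.dim) :=
  push_gr (diag X) (j := 0) (l := X.dim) (by rw [dim_prod]; ring) (W.one_mem X)

lemma zcl_gr {W : WeilCohomology.{u, 0} ops} {g : Module.End W.K (W.H X)}
    (hg : ∀ {i : ℕ} {a : W.H X}, a ∈ W.gr X i → g a ∈ W.gr X i) :
    zcl W g ∈ W.gr (X.prod X) (2 * X.dim) := by
  have key : ∀ c : W.H (X.prod X), ∀ i, H914.proj (W.isInternal _) i (extOp W 1 g c) =
      extOp W 1 g (H914.proj (W.isInternal _) i c) := by
    intro c i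
    refine W.kunneth_induction (p := fun c => H914.proj (W.isInternal _) i (extOp W 1 g c) =
      extOp W 1 g (H914.proj (W.isInternal _) i c)) ?_ ?_ c
    · intro a b ha hb; simp only [map_add, ha, hb]
    · intro l m a ha b hb
      have h1 : W.map (fst X X) a * W.map (snd X X) b ∈ W.gr (X.prod X) (l + m) :=
        W.mul_mem (W.map_mem _ ha) (W.map_mem _ hb)
      have h2 : W.map (fst X X) a * W.map (snd X X) (g b) ∈ W.gr (X.prod X) (l + m) :=
        W.mul_mem (W.map_mem _ ha) (W.map_mem _ (hg hb))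
      have h3 : extOp W 1 g (W.map (fst X X) a * W.map (snd X X) b) =
          W.map (fst X X) a * W.map (snd X X) (g b) := extOp_tmul _ _ _ _
      by_cases hi : l + m = i
      · subst hi
        rw [proj_same _ h1, h3, proj_same _ h2]
      · rw [proj_ne _ h1 hi, h3, proj_ne _ h2 hi, map_zero]
  have h1 := key (W.push (diag X) 1) (2 * X.dim)
  rw [proj_same _ diag_gr] at h1
  rw [zcl, ← h1]
  exact proj_mem _ _ _

/-- The pairing of the class of the conjugate of the operator `p - q`. -/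
lemma lam_eq (hD' : S_DOP T') (R : Comparison (CW T) (CW T')) {c : T.W.H (X.prod X)}
    {c' : T'.W.H (X.prod X)}
    (hc : R.e _ (em T.W ℂ (H914.proj (T.W.isInternal (X.prod X)) (2 * X.dim) c)) =
      R.c ^ X.dim • em T'.W ℂ c') :
    R.s ((CW T).tr _ (zcl (CW T) (cj R (dop T' X)) * em T.W ℂ c)) =
      (CW T').tr _ (zcl (CW T') (dop T' X) * em T'.W ℂ c') := by
  have h1 : zcl (CW T) (cj R (dop T' X)) ∈ (CW T).gr (X.prod X) (2 * X.dim) :=
    zcl_gr fun {i a} ha => (isDer_cj R hD'.1).gr ha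
  rw [tr_comp_em (i := 2 * X.dim) (j := 2 * X.dim) (by rw [dim_prod]; ring) h1]
  have h2 := R.tr (X.prod X) (zcl (CW T) (cj R (dop T' X)) *
    em T.W ℂ (H914.proj (T.W.isInternal (X.prod X)) (2 * X.dim) c))
  rw [map_mul, e_zcl, hc, smul_mul_smul_comm, map_smul, smul_eq_mul, dim_prod, pow_add] at h2
  exact (mul_left_cancel₀ (mul_ne_zero (cpow_ne R _) (cpow_ne R _)) h2).symm

/-- The Hodge classes of middle degree on the square of `Z`. -/
lemma mid_to_sq {D : Conjugates T} {Z : 𝒱.Obj} {d : ℕ} (hd : Z.dim = 2 * d)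
    (hX : Nontrivial (T.W.H Z) → ∃ δ l, IsHodge T Z d δ ∧ IsAbsHodge D Z d l ∧
      T.W.tr Z (δ * l) = 1)
    (hH : ∀ c, IsHodge T (Z.prod Z) (2 * d) c → IsAbsHodge D (Z.prod Z) (2 * d) c)
    {c : T.W.H Z} (hc : IsHodge T Z d c) : IsAbsHodge D Z d c := by
  rcases subsingleton_or_nontrivial (T.W.H Z) with hs | hn
  · rw [Subsingleton.elim c 0]
    exact (absPred D).zero
  · obtain ⟨δ, l, hδ, hl, h1⟩ := hX hn
    have h2 : IsHodge T (Z.prod Z) (2 * d) (xp T.W c δ) := by
      have := xp_hodge hc hδ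
      rwa [← two_mul] at this
    have h3 := hH _ h2
    have h4 := (absPred D).push (fst Z Z) (l := d) (j := 2 * d + d)
      (by rw [dim_prod, hd]; ring) ((absPred D).mul h3 ((absPred D).map (snd Z Z) hl))
    have h5 : T.W.push (fst Z Z) (xp T.W c δ * T.W.map (snd Z Z) l) = c := by
      have h6 : xp T.W c δ * T.W.map (snd Z Z) l = xp T.W c (δ * l) := by
        rw [xp_def, xp_def, mul_assoc, ← map_mul]
      have h7 : δ * l ∈ PH T.W Z 0 :=
        PH.of' (b := 0) (by omega) (T.W.mul_mem hδ.1 hl.1.1)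
      rw [h6, push_fst _ _ h7, h1, one_smul]
    rw [h5] at h4
    exact h4

/-- The Hodge classes of degree `2 dim X` on `X × X` are absolutely Hodge if those of middle
degree on `(X × X) × (X × X)` are. -/
lemma abs_sq {D : Conjugates T}
    (hH : ∀ c, IsHodge T ((X.prod X).prod (X.prod X)) (2 * X.dim) c →
      IsAbsHodge D ((X.prod X).prod (X.prod X)) (2 * X.dim) c)
    {c : T.W.H (X.prod X)} (hc : IsHodge T (X.prod X) X.dim c) :
    IsAbsHodge D (X.prod X) X.dim c := by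
  refine mid_to_sq (by rw [dim_prod]; ring) ?_ hH hc
  intro hn
  have hX : Nontrivial (T.W.H X) := by
    rcases subsingleton_or_nontrivial (T.W.H X) with hs | hn'
    · exfalso
      apply one_ne_zero (α := T.W.H (X.prod X))
      rw [← map_one (T.W.map (fst X X)), Subsingleton.elim (1 : T.W.H X) 0, map_zero]
    · exact hn'
  obtain ⟨l, hl, hl1⟩ := exists_tr D X
  obtain ⟨l', hl', hl1'⟩ := exists_top (Q := absPred D) hl hl1
  refine ⟨T.W.push (diag X) 1, T.W.map (fst X X) l', ?_, (absPred D).map (fst X X) hl', ?_⟩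
  · have h1 : IsHodge T X 0 (1 : T.W.H X) := by
      rw [← T.W.cl_fund X]; exact IsHodge.cl X.V.fundCycle_mem
    exact h1.push (diag X) (by rw [dim_prod]; ring)
  · have e1 : diag X ≫ fst X X = 𝟙 X := Obj.lift_fst _ _
    rw [T.W.tr_push, one_mul, ← T.W.map_comp, e1, T.W.map_id]
    exact hl1'

/-- **The key step.** -/
theorem anti_conj (hM : S_MID T) (hD : S_DOP T) (hD' : S_DOP T') (hN : S_NIL T T')
    {D : Conjugates T}
    (hH : ∀ c, IsHodge T ((X.prod X).prod (X.prod X)) (2 * X.dim) c →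
      IsAbsHodge D ((X.prod X).prod (X.prod X)) (2 * X.dim) c)
    {R₀ R : Comparison (CW T) (CW T')}
    (hR : ∀ (Z : 𝒱.Obj) (j : ℕ) (c : T.W.H Z), IsAbsHodge D Z j c → ∃ c', IsHodge T' Z j c' ∧
      R₀.e Z (em T.W ℂ c) = R₀.c ^ j • em T'.W ℂ c' ∧ R.e Z (em T.W ℂ c) = R.c ^ j • em T'.W ℂ c')
    (hfil : ∀ (X : 𝒱.Obj) (p : ℤ) (x : (CW T).H X), x ∈ fil T X p ↔ R₀.e X x ∈ fil T' X p)
    {n j : ℕ} {b : T.W.H (pw X n)} (hb : IsHodge T (pw X n) j b) :
    dop T' (pw X n) (R.e _ (em T.W ℂ b)) = 0 := by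
  have hle : ∀ Z, (absSys D).C Z ≤ (hodgeSys T).C Z := abs_le_hodge D
  obtain ⟨C₀, hC, hcrit⟩ := Mid.crit (X := X) (A := absSys D) hM hD
    fun c hc => ClassPred.sp_of (Q := absPred D) (hH c hc)
  -- the classes in the middle degree
  have hmid : ∀ c ∈ C₀, ∃ c' : T'.W.H (X.prod X),
      R₀.e _ (em T.W ℂ (H914.proj (T.W.isInternal (X.prod X)) (2 * X.dim) c)) =
        R₀.c ^ X.dim • em T'.W ℂ c' ∧
      R.e _ (em T.W ℂ (H914.proj (T.W.isInternal (X.prod X)) (2 * X.dim) c)) =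
        R.c ^ X.dim • em T'.W ℂ c' := by
    intro c hc
    obtain ⟨c', -, h1, h2⟩ := hR _ _ _ (abs_sq hH (IsHodge.of_mem (hC c hc) X.dim))
    exact ⟨c', h1, h2⟩
  -- the operators killing the absolutely Hodge classes
  have hkill : ∀ (R : Comparison (CW T) (CW T')),
      (∀ (Z : 𝒱.Obj) (j : ℕ) (c : T.W.H Z), IsAbsHodge D Z j c → ∃ c', IsHodge T' Z j c' ∧
        R.e Z (em T.W ℂ c) = R.c ^ j • em T'.W ℂ c') →
      ∀ Z, ∀ c ∈ (absSys D).C Z, cj R (dop T' Z) (em T.W ℂ c) = 0 := by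
    intro R hR Z c hc
    refine ClassPred.sp_ind (Q := absPred D)
      (q := fun c => cj R (dop T' Z) (em T.W ℂ c) = 0) ?_ ?_ ?_ hc
    · intro j c hc
      obtain ⟨c', hc', h1⟩ := hR Z j c hc
      apply e_inj R
      rw [e_cj, h1, map_smul, (hD'.2.2.1 _ _).1 (ClassPred.sp_of (Q := hodgePred T') hc'),
        smul_zero, map_zero]
    · rw [em_zero, map_zero]
    · intro a b ha hb; rw [em_add, map_add, ha, hb, add_zero]
  have hanti : ∀ (R : Comparison (CW T) (CW T')),
      (∀ (Z : 𝒱.Obj) (j : ℕ) (c : T.W.H Z), IsAbsHodge D Z j c → ∃ c', IsHodge T' Z j c' ∧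
        R.e Z (em T.W ℂ c) = R.c ^ j • em T'.W ℂ c') → ∀ φ,
      Anti (absSys D) X (cmo φ (cj R (dop T' X))) := by
    intro R hR φ
    refine (isDer_cmo φ (isDer_cj R hD'.1)).anti (S := absSys D) ?_ ?_
    · intro hn
      obtain ⟨l, hl, hl1⟩ := exists_tr D X
      obtain ⟨l', hl', hl1'⟩ := exists_top (Q := absPred D) hl hl1
      exact ⟨l', ClassPred.sp_of (Q := absPred D) hl', hl'.1.1, hl1'⟩
    · intro n b hb
      rw [cmo_apply, hkill R hR _ _ hb, map_zero]
  -- the pairings for the operator of the theory itself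
  have hanti0 : ∀ φ, Anti (hodgeSys T) X (cmo φ (dop T X)) := by
    intro φ
    refine (isDer_cmo φ hD.1).anti (S := hodgeSys T) ?_ ?_
    · intro hn
      obtain ⟨l, hl, hl1⟩ := exists_tr_hodge T X
      exact ⟨l, ClassPred.sp_of (Q := hodgePred T) hl, hl.1, hl1⟩
    · intro n b hb
      rw [cmo_apply, (hD.2.2.1 _ _).1 hb, map_zero]
  have hlam0 : ∀ c ∈ C₀, (CW T).tr _ (zcl (CW T) (dop T X) * em T.W ℂ c) = 0 := by
    intro c hc
    refine (Module.forall_dual_apply_eq_zero_iff T.W.K (V := ℂ) _).1 fun φ => ?_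
    have h1 : Anti (absSys D) X (cmo φ (dop T X)) :=
      ⟨(hanti0 φ).ev, (hanti0 φ).adj, fun n b hb => (hanti0 φ).kill n b (hle _ hb)⟩
    have h2 := (hcrit _ h1).1 (hanti0 φ) c hc
    rw [cmo_tr] at h2
    exact h2
  -- the pairings for the filtered comparison isomorphism
  have hlam1 : ∀ c ∈ C₀, (CW T).tr _ (zcl (CW T) (cj R₀ (dop T' X)) * em T.W ℂ c) = 0 := by
    intro c hc
    have hmem := IsHodge.of_mem (hC c hc) X.dim
    have g1 : zcl (CW T) (cj R₀ (dop T' X)) ∈ (CW T).gr (X.prod X) (2 * X.dim) :=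
      zcl_gr fun {i a} ha => (isDer_cj R₀ hD'.1).gr ha
    have g2 : zcl (CW T) (dop T X) ∈ (CW T).gr (X.prod X) (2 * X.dim) :=
      zcl_gr fun {i a} ha => hD.1.gr ha
    have h0 := hlam0 c hc
    have hdim : 2 * X.dim + 2 * X.dim = 2 * (X.prod X).dim := by rw [dim_prod]; ring
    rw [tr_comp_em hdim g2] at h0
    rw [tr_comp_em hdim g1, ← sub_zero ((CW T).tr _ _), ← h0, ← map_sub, ← sub_mul, ← zcl_sub]
    have hev : Ev (CW T) (cj R₀ (dop T' X) - dop T X) :=
      ev_sub ((isDer_cj R₀ hD'.1).ev X) (hD.1.ev X)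
    have h1 := trace_corr_corr (W := CW T) (zcl (CW T) (cj R₀ (dop T' X) - dop T X))
      (em T.W ℂ (T.W.map (swap X X)
        (H914.proj (T.W.isInternal (X.prod X)) (2 * X.dim) c)))
    rw [corr_zcl hev, em_map, ← T.W.map_comp] at h1
    have h2 : swap X X ≫ swap X X = 𝟙 (X.prod X) := by
      apply prod_hom_ext
      · rw [Category.assoc, swap_fst, swap_snd, Category.id_comp]
      · rw [Category.assoc, swap_snd, swap_fst, Category.id_comp]
    rw [h2, T.W.map_id] at h1
    rw [← h1]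
    refine (hN R₀ hfil X _ (hmem.map (swap X X)) _ fun x => ?_).trans h0.symm
    rw [LinearMap.sub_apply, map_sub, e_cj]
  have hlam : ∀ c ∈ C₀, (CW T).tr _ (zcl (CW T) (cj R (dop T' X)) * em T.W ℂ c) = 0 := by
    intro c hc
    obtain ⟨c', h1, h2⟩ := hmid c hc
    have e1 := lam_eq hD' R₀ h1
    have e2 := lam_eq hD' R h2
    rw [hlam1 c hc, map_zero] at e1
    rw [← e1] at e2
    exact (map_eq_zero R.s).1 e2
  -- the end
  have hR' : ∀ (Z : 𝒱.Obj) (j : ℕ) (c : T.W.H Z), IsAbsHodge D Z j c → ∃ c', IsHodge T' Z j c' ∧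
        R.e Z (em T.W ℂ c) = R.c ^ j • em T'.W ℂ c' := by
    intro Z j c hc
    obtain ⟨c', h1, -, h2⟩ := hR Z j c hc
    exact ⟨c', h1, h2⟩
  have hfin : cj R (dop T' (pw X n)) (em T.W ℂ b) = 0 := by
    apply eq_zero_of_cm
    intro φ
    have h1 : Anti (hodgeSys T) X (cmo φ (cj R (dop T' X))) := by
      refine (hcrit _ (hanti R hR' φ)).2 fun c hc => ?_
      rw [cmo_tr, hlam c hc]
      exact map_zero φ
    have h2 := h1.kill n b (ClassPred.sp_of (Q := hodgePred T) hb)
    rw [← (isDer_cmo φ (isDer_cj R hD'.1)).pw X n] at h2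
    exact h2
  have h3 := congrArg (R.e (pw X n)) hfin
  rw [e_cj, map_zero] at h3
  exact h3

end Tor

end Pool.Agent.Helper7K9.FP
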