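import Pool.Agent.Helper7K9.FP.Stm3
import Pool.Agent.Helper7K9.FP.Tor
import Pool.Agent.Y121.AH.Alg2

/-!
# The coefficients of a comparison isomorphism on the powers of a variety
-/

open CategoryTheory AlgebraicGeometry TensorProduct

universe u

namespace Pool.Agent.Helper7K9.FP

open Module
open Pool.Agent.H914 Pool.Agent.H914.VarClass Pool.Agent.H914.VarClass.Obj
  Pool.Agent.H914.WeilCohomology
open Pool.Agent.Y133.Half
open Pool.Agent.Y121.AH

variable {k : Type u} [Field k] {𝒱 : VarClass k} {ops : CycleOps 𝒱}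

section Cof

variable {T T' : HodgeTheory ops} {L : Type} [Field L] [Algebra T.W.K L] [Algebra T'.W.K L]
  (C : Comparison (baseW T.W L) (baseW T'.W L)) {X Y : 𝒱.Obj}

/-- The coefficients of a comparison isomorphism. -/
noncomputable def cof (X : 𝒱.Obj) (v : T.W.H X) (y : T'.W.H X) : L :=
  (baseW T'.W L).tr X (C.e X (em T.W L v) * em T'.W L y)

lemma cof_add_left (v v' : T.W.H X) (y : T'.W.H X) :
    cof C X (v + v') y = cof C X v y + cof C X v' y := by
  have h : (baseW T'.W L).tr X (C.e X (em T.W L (v + v')) * em T'.W L y) =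
      (baseW T'.W L).tr X (C.e X (em T.W L v) * em T'.W L y) +
        (baseW T'.W L).tr X (C.e X (em T.W L v') * em T'.W L y) := by
    rw [em_add, map_add, add_mul, map_add]
  exact h

lemma cof_add_right (v : T.W.H X) (y y' : T'.W.H X) :
    cof C X v (y + y') = cof C X v y + cof C X v y' := by
  have h : (baseW T'.W L).tr X (C.e X (em T.W L v) * em T'.W L (y + y')) =
      (baseW T'.W L).tr X (C.e X (em T.W L v) * em T'.W L y) +
        (baseW T'.W L).tr X (C.e X (em T.W L v) * em T'.W L y') := by
    rw [em_add, mul_add, map_add]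
  exact h

lemma cof_smul_left (q : ℚ) (v : T.W.H X) (y : T'.W.H X) :
    cof C X ((q : T.W.K) • v) y = (q : L) * cof C X v y := by
  have h : (baseW T'.W L).tr X (C.e X (em T.W L ((q : T.W.K) • v)) * em T'.W L y) =
      (q : (baseW T'.W L).K) * (baseW T'.W L).tr X (C.e X (em T.W L v) * em T'.W L y) := by
    rw [em_smul, ex_rat, C.semi, map_ratCast, smul_mul_assoc, map_smul, smul_eq_mul]
  exact h

lemma cof_smul_right (r : T'.W.K) (v : T.W.H X) (y : T'.W.H X) :
    cof C X v (r • y) = algebraMap T'.W.K L r * cof C X v y := by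
  have h : (baseW T'.W L).tr X (C.e X (em T.W L v) * em T'.W L (r • y)) =
      ex T'.W L r * (baseW T'.W L).tr X (C.e X (em T.W L v) * em T'.W L y) := by
    rw [em_smul, mul_smul_comm, map_smul, smul_eq_mul]
  exact h

lemma cof_zero_left (y : T'.W.H X) : cof C X 0 y = 0 := by
  have := cof_smul_left C (0 : ℚ) (0 : T.W.H X) y
  rwa [Rat.cast_zero, zero_smul, Rat.cast_zero, zero_mul] at this

lemma cof_zero_right (v : T.W.H X) : cof C X v 0 = 0 := by
  have := cof_smul_right C (0 : T'.W.K) v (0 : T'.W.H X)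
  rwa [map_zero, zero_smul, zero_mul] at this

/-- The image of a class of a given parity. -/
lemma e_em_PH {v : T.W.H X} {b : ℕ} (hv : v ∈ PH T.W X b) :
    C.e X (em T.W L v) ∈ PH (baseW T'.W L) X b := by
  refine PH.ind (p := fun v => C.e X (em T.W L v) ∈ PH (baseW T'.W L) X b) ?_ ?_ ?_ hv
  · intro i hi x hx; exact PH.of' hi (C.gr.2 (em_gr hx))
  · rw [em_zero, map_zero]; exact Submodule.zero_mem _
  · intro x y hx hy; rw [em_add, map_add]; exact Submodule.add_mem _ hx hy

lemma cof_xp {b c : ℕ} (v : T.W.H X) {w : T.W.H Y} (hw : w ∈ PH T.W Y b) {y : T'.W.H X}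
    (hy : y ∈ PH T'.W X c) (z : T'.W.H Y) :
    cof C (X.prod Y) (xp T.W v w) (xp T'.W y z) =
      (-1 : L) ^ (b * c) * (cof C X v y * cof C Y w z) := by
  have h : (baseW T'.W L).tr (X.prod Y) (C.e (X.prod Y) (em T.W L (xp T.W v w)) *
      em T'.W L (xp T'.W y z)) = (-1 : (baseW T'.W L).K) ^ (b * c) *
        ((baseW T'.W L).tr X (C.e X (em T.W L v) * em T'.W L y) *
          (baseW T'.W L).tr Y (C.e Y (em T.W L w) * em T'.W L z)) := by
    rw [em_xp, em_xp, e_xp, xp_mul _ _ _ _ (e_em_PH C hw) (em_PH hy), map_smul, tr_xp,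
      smul_eq_mul]
  exact h

end Cof

theorem coe_main (T T' : HodgeTheory ops) : S_COE T T' := by
  intro L _ _ _ C X
  let b := Module.finBasis T.W.K (T.W.H X)
  let b' := Module.finBasis T'.W.K (T'.W.H X)
  let S : Set L := insert (show L from C.c) (Set.range fun r : Fin (finrank T.W.K (T.W.H X)) ×
    Fin (finrank T'.W.K (T'.W.H X)) => cof C X (b r.1) (b' r.2))
  have hS : S.Finite := (Set.finite_range _).insert _
  refine ⟨IntermediateField.adjoin T'.W.K S, IntermediateField.fg_adjoin_of_finite hS,
    IntermediateField.subset_adjoin _ _ (Set.mem_insert _ _), ?_⟩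
  set M := IntermediateField.adjoin T'.W.K S with hM
  have hq : ∀ q : ℚ, (q : L) ∈ M := fun q => by
    have h := M.algebraMap_mem (q : T'.W.K)
    rwa [map_ratCast] at h
  have h0 : ∀ (v : T.W.H X) (y : T'.W.H X), cof C X v y ∈ M := by
    intro v y
    have h1 : ∀ i l, cof C X (b i) (b' l) ∈ M := fun i l =>
      IntermediateField.subset_adjoin _ _ (Set.mem_insert_of_mem _ ⟨(i, l), rfl⟩)
    have h2 : ∀ i y, cof C X (b i) y ∈ M := by
      intro i y
      refine basis_ind b' (p := fun y => cof C X (b i) y ∈ M) ?_ ?_ ?_ y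
      · rw [cof_zero_right]; exact M.zero_mem
      · intro y y' hy hy'; rw [cof_add_right]; exact M.add_mem hy hy'
      · intro r l
        rw [cof_smul_right]
        exact M.mul_mem (M.algebraMap_mem r) (h1 i l)
    refine basis_ind b (p := fun x => cof C X x y ∈ M) ?_ ?_ ?_ v
    · rw [cof_zero_left]; exact M.zero_mem
    · intro y y' hy hy'; rw [cof_add_left]; exact M.add_mem hy hy'
    · intro r i
      obtain ⟨q, rfl⟩ := T.rat r
      rw [cof_smul_left]
      exact M.mul_mem (hq q) (h2 i y)
  have key : ∀ (n : ℕ) (v : T.W.H (pw X n)) (y : T'.W.H (pw X n)), cof C (pw X n) v y ∈ M := by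
    intro n
    induction n with
    | zero => exact h0
    | succ n ih =>
      intro v y
      have h1 : ∀ (v : T.W.H ((pw X n).prod X)) (y : T'.W.H ((pw X n).prod X)),
          cof C ((pw X n).prod X) v y ∈ M := by
        intro v y
        refine xp_induction (p := fun v => cof C ((pw X n).prod X) v y ∈ M) ?_ ?_ v
        · intro v v' hv hv'; rw [cof_add_left]; exact M.add_mem hv hv'
        · intro i j v hv w hw
          refine xp_induction (p := fun y => cof C ((pw X n).prod X) (xp T.W v w) y ∈ M) ?_ ?_ y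
          · intro y y' hy hy'; rw [cof_add_right]; exact M.add_mem hy hy'
          · intro i' j' y hy z hz
            rw [cof_xp C v hw hy z]
            exact M.mul_mem (_root_.pow_mem (M.neg_mem M.one_mem) _)
              (M.mul_mem (ih v y) (h0 w z))
      exact h1 v y
  exact key

end Pool.Agent.Helper7K9.FP
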