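import Pool.Agent.Helper7K9.FP.Stm2

/-!
# The derivation of the cohomology theory given by a derivation of the coefficients
-/

open CategoryTheory AlgebraicGeometry TensorProduct

universe u v

namespace Pool.Agent.Helper7K9.FP

open Module
open Pool.Agent.H914 Pool.Agent.H914.VarClass Pool.Agent.H914.VarClass.Obj
  Pool.Agent.H914.WeilCohomology
open Pool.Agent.Y133.Half
open Pool.Agent.Y121.AH

section Alg

variable {K : Type*} [Field K] {A : Type*} [Ring A] [Algebra K A] {B : Type*} [Ring B]
  [Algebra K B] {L : Type*} [Field L] [Algebra K L] (D : Derivation K L L)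

/-- The extension of a derivation of the coefficients. -/
noncomputable def dT (D : Derivation K L L) (V : Type*) [AddCommGroup V] [Module K V] :
    L ⊗[K] V →ₗ[K] L ⊗[K] V :=
  TensorProduct.map (D : L →ₗ[K] L) LinearMap.id

lemma dT_tmul {V : Type*} [AddCommGroup V] [Module K V] (l : L) (a : V) :
    dT D V (l ⊗ₜ[K] a) = D l ⊗ₜ[K] a := by
  rw [dT, TensorProduct.map_tmul]
  rfl

lemma dT_smul {V : Type*} [AddCommGroup V] [Module K V] (c : L) (a : L ⊗[K] V) :
    dT D V (c • a) = D c • a + c • dT D V a := by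
  induction a using TensorProduct.induction_on with
  | zero => rw [smul_zero, map_zero, smul_zero, smul_zero, add_zero]
  | add x y hx hy => rw [smul_add, map_add, hx, hy, map_add, smul_add, smul_add]; abel
  | tmul l b =>
    rw [TensorProduct.smul_tmul', dT_tmul, dT_tmul, TensorProduct.smul_tmul',
      TensorProduct.smul_tmul', smul_eq_mul, smul_eq_mul, smul_eq_mul, Derivation.leibniz,
      smul_eq_mul, smul_eq_mul, ← TensorProduct.add_tmul, mul_comm l (D c), add_comm]

lemma dT_mul (a b : L ⊗[K] A) : dT D A (a * b) = dT D A a * b + a * dT D A b := by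
  refine tmul_induction (P := fun a => dT D A (a * b) = dT D A a * b + a * dT D A b) ?_ ?_ ?_ a
  · rw [zero_mul, map_zero, zero_mul, zero_mul, add_zero]
  · intro x y hx hy; rw [add_mul, map_add, hx, hy, map_add, add_mul, add_mul]; abel
  · intro l a
    refine tmul_induction (P := fun b => dT D A ((l ⊗ₜ[K] a : L ⊗[K] A) * b) =
      dT D A (l ⊗ₜ[K] a) * b + (l ⊗ₜ[K] a : L ⊗[K] A) * dT D A b) ?_ ?_ ?_ b
    · rw [mul_zero, map_zero, mul_zero, mul_zero, add_zero]
    · intro x y hx hy; rw [mul_add, map_add, hx, hy, map_add, mul_add, mul_add]; abel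
    · intro m b
      rw [Algebra.TensorProduct.tmul_mul_tmul, dT_tmul, dT_tmul, dT_tmul,
        Algebra.TensorProduct.tmul_mul_tmul, Algebra.TensorProduct.tmul_mul_tmul,
        ← TensorProduct.add_tmul, Derivation.leibniz, smul_eq_mul, smul_eq_mul, mul_comm m (D l),
        add_comm]

lemma dT_map (f : A →ₐ[K] B) (a : L ⊗[K] A) :
    dT D B (mapBase L f a) = mapBase L f (dT D A a) := by
  refine tmul_induction (P := fun a => dT D B (mapBase L f a) = mapBase L f (dT D A a)) ?_ ?_ ?_ a
  · rw [map_zero, map_zero, map_zero, map_zero]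
  · intro x y hx hy; rw [map_add, map_add, hx, hy, map_add, map_add]
  · intro l a
    rw [Algebra.TensorProduct.map_tmul, dT_tmul, dT_tmul, Algebra.TensorProduct.map_tmul]
    rfl

lemma dT_form (tr : A →ₗ[K] K) (a : L ⊗[K] A) :
    formBase L tr (dT D A a) = D (formBase L tr a) := by
  refine tmul_induction (P := fun a => formBase L tr (dT D A a) = D (formBase L tr a)) ?_ ?_ ?_ a
  · rw [map_zero, map_zero, map_zero]
  · intro x y hx hy; rw [map_add, map_add, hx, hy, map_add, map_add]
  · intro l a
    rw [dT_tmul, formBase_tmul, formBase_tmul, Derivation.leibniz, Derivation.map_algebraMap,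
      smul_zero, zero_add, smul_eq_mul, mul_comm]

lemma dT_gr {p : Submodule K A} {a : L ⊗[K] A} (ha : a ∈ p.baseChange L) :
    dT D A a ∈ p.baseChange L := by
  refine base_induction (P := fun a => dT D A a ∈ p.baseChange L) ?_ ?_ ?_ ha
  · rw [map_zero]; exact Submodule.zero_mem _
  · intro x y hx hy; rw [map_add]; exact Submodule.add_mem _ hx hy
  · intro l a ha
    rw [dT_tmul]
    exact Submodule.tmul_mem_baseChange_of_mem _ ha

end Alg

section Weil

variable {k : Type u} [Field k] {𝒱 : VarClass k} {ops : CycleOps 𝒱}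
  (W : WeilCohomology.{u, 0} ops) {L : Type} [Field L] [Algebra W.K L] (D : Derivation W.K L L)
  {X Y : 𝒱.Obj}

/-- The derivation of the extended cohomology. -/
noncomputable def dW (X : 𝒱.Obj) : (baseW W L).H X →+ (baseW W L).H X :=
  (dT D (W.H X)).toAddMonoidHom

/-- The derivation of the coefficients. -/
def dK : (baseW W L).K → (baseW W L).K := fun l => D (show L from l)

lemma dW_smul (c : (baseW W L).K) (a : (baseW W L).H X) :
    dW W D X (c • a) = dK W D c • a + c • dW W D X a := dT_smul D c a

lemma dW_mul (a b : (baseW W L).H X) : dW W D X (a * b) = dW W D X a * b + a * dW W D X b :=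
  dT_mul D a b

lemma dW_map (f : X ⟶ Y) (a : (baseW W L).H Y) :
    dW W D X ((baseW W L).map f a) = (baseW W L).map f (dW W D Y a) :=
  dT_map D (W.map f) a

lemma dW_tr (a : (baseW W L).H X) :
    (baseW W L).tr X (dW W D X a) = dK W D ((baseW W L).tr X a) :=
  dT_form D (W.tr X) a

lemma dW_gr {i : ℕ} {a : (baseW W L).H X} (ha : a ∈ (baseW W L).gr X i) :
    dW W D X a ∈ (baseW W L).gr X i :=
  dT_gr D (p := W.gr X i) ha

lemma dW_em (a : W.H X) : dW W D X (em W L a) = 0 := by
  have h : dT D (W.H X) ((1 : L) ⊗ₜ[W.K] a) = 0 := by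
    rw [dT_tmul, Derivation.map_one_eq_zero, TensorProduct.zero_tmul]
  exact h

lemma dK_mul (a b : (baseW W L).K) : dK W D (a * b) = a * dK W D b + b * dK W D a :=
  D.leibniz (show L from a) (show L from b)

lemma dK_one : dK W D (1 : (baseW W L).K) = 0 := D.map_one_eq_zero

lemma dK_pow (c : (baseW W L).K) (hc : c ≠ 0) (j : ℕ) :
    dK W D (c ^ j) = j * (dK W D c / c) * c ^ j := by
  induction j with
  | zero => rw [pow_zero, dK_one, Nat.cast_zero, zero_mul, zero_mul]
  | succ j ih =>
    rw [pow_succ, dK_mul, ih]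
    push_cast
    field_simp
    ring

end Weil

section Op

variable {k : Type u} [Field k] {𝒱 : VarClass k} {ops : CycleOps 𝒱}
  {T T' : HodgeTheory ops} {L : Type} [Field L] [Algebra T.W.K L] [Algebra T'.W.K L]
  (C : Comparison (baseW T.W L) (baseW T'.W L)) (D : Derivation T'.W.K L L) {X Y : 𝒱.Obj}

/-- The automorphism of the coefficients. -/
def sL : L ≃+* L := C.s

lemma D_rat (q : ℚ) (a : L) : D ((q : L) * a) = (q : L) * D a := by
  have h : (q : L) = algebraMap T'.W.K L (q : T'.W.K) := (map_ratCast _ _).symm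
  rw [h, Derivation.leibniz, Derivation.map_algebraMap, smul_zero, add_zero, smul_eq_mul]

/-- The derivation `s⁻¹ D s` of the coefficients. -/
noncomputable def dS : Derivation T.W.K L L :=
  Derivation.mk'
    { toFun := fun l => (sL C).symm (D (sL C l))
      map_add' := fun a b => by rw [map_add, map_add, map_add]
      map_smul' := fun r a => by
        obtain ⟨q, rfl⟩ := T.rat r
        rw [RingHom.id_apply, Algebra.smul_def, Algebra.smul_def, map_ratCast, map_mul,
          map_ratCast, D_rat, map_mul, map_ratCast] }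
    (fun a b => by
      change (sL C).symm (D (sL C (a * b))) =
        a • (sL C).symm (D (sL C b)) + b • (sL C).symm (D (sL C a))
      rw [map_mul, Derivation.leibniz, map_add, smul_eq_mul, smul_eq_mul, map_mul, map_mul,
        RingEquiv.symm_apply_apply, RingEquiv.symm_apply_apply, smul_eq_mul, smul_eq_mul])

lemma dK_dS (l : (baseW T.W L).K) :
    dK T.W (dS C D) l = C.s.symm (dK T'.W D (C.s l)) := rfl

lemma e_symm_smul (m : (baseW T'.W L).K) (b : (baseW T'.W L).H X) :
    (C.e X).symm (m • b) = C.s.symm m • (C.e X).symm b := by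
  apply (C.e X).injective
  rw [C.semi, RingEquiv.apply_symm_apply, RingEquiv.apply_symm_apply, RingEquiv.apply_symm_apply]

lemma e_symm_nat (f : X ⟶ Y) (b : (baseW T'.W L).H Y) :
    (C.e X).symm ((baseW T'.W L).map f b) = (baseW T.W L).map f ((C.e Y).symm b) := by
  apply (C.e X).injective
  rw [C.nat, RingEquiv.apply_symm_apply, RingEquiv.apply_symm_apply]

/-- The logarithmic derivative of the constant of the comparison isomorphism. -/
noncomputable def kpa : (baseW T.W L).K := C.s.symm (dK T'.W D C.c / C.c)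

/-- The difference of the two derivations. -/
noncomputable def xdf (Y : 𝒱.Obj) : Module.End (baseW T.W L).K ((baseW T.W L).H Y) where
  toFun a := (C.e Y).symm (dW T'.W D Y (C.e Y a)) - dW T.W (dS C D) Y a
  map_add' a b := by
    rw [map_add, map_add, map_add, map_add]
    abel
  map_smul' l a := by
    rw [C.semi, dW_smul, dW_smul, map_add, e_symm_smul, e_symm_smul, RingEquiv.symm_apply_apply,
      RingEquiv.symm_apply_apply, dK_dS, RingHom.id_apply, smul_sub]
    abel

/-- The degree operator. -/
noncomputable def dgo (Y : 𝒱.Obj) : Module.End (baseW T.W L).K ((baseW T.W L).H Y) :=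
  scal ((baseW T.W L).isInternal Y) (fun i => (i : (baseW T.W L).K) * (kpa C D / 2))

lemma dgo_apply {i : ℕ} {a : (baseW T.W L).H Y} (ha : a ∈ (baseW T.W L).gr Y i) :
    dgo C D Y a = ((i : (baseW T.W L).K) * (kpa C D / 2)) • a :=
  scal_apply _ _ ha

/-- The derivation of the cohomology theory. -/
noncomputable def xop (Y : 𝒱.Obj) : Module.End (baseW T.W L).K ((baseW T.W L).H Y) :=
  xdf C D Y - dgo C D Y

lemma xdf_apply (a : (baseW T.W L).H Y) :
    xdf C D Y a = (C.e Y).symm (dW T'.W D Y (C.e Y a)) - dW T.W (dS C D) Y a := rfl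

lemma xdf_mul (a b : (baseW T.W L).H Y) :
    xdf C D Y (a * b) = xdf C D Y a * b + a * xdf C D Y b := by
  rw [xdf_apply, xdf_apply, xdf_apply, map_mul, dW_mul, dW_mul, map_add, map_mul, map_mul,
    RingEquiv.symm_apply_apply, RingEquiv.symm_apply_apply, sub_mul, mul_sub]
  abel

lemma dgo_mul (a b : (baseW T.W L).H Y) :
    dgo C D Y (a * b) = dgo C D Y a * b + a * dgo C D Y b := by
  refine gr_induction ((baseW T.W L).isInternal Y)
    (p := fun a => dgo C D Y (a * b) = dgo C D Y a * b + a * dgo C D Y b) ?_ ?_ a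
  · intro i a ha
    refine gr_induction ((baseW T.W L).isInternal Y)
      (p := fun b => dgo C D Y (a * b) = dgo C D Y a * b + a * dgo C D Y b) ?_ ?_ b
    · intro j b hb
      rw [dgo_apply C D ((baseW T.W L).mul_mem ha hb), dgo_apply C D ha, dgo_apply C D hb,
        smul_mul_assoc, mul_smul_comm, ← add_smul]
      congr 1
      push_cast
      ring
    · intro b b' hb hb'
      rw [mul_add, map_add, hb, hb', map_add, mul_add, mul_add]
      abel
  · intro a a' ha ha'
    rw [add_mul, map_add, ha, ha', map_add, add_mul, add_mul]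
    abel

lemma xdf_nat (f : X ⟶ Y) (b : (baseW T.W L).H Y) :
    xdf C D X ((baseW T.W L).map f b) = (baseW T.W L).map f (xdf C D Y b) := by
  rw [xdf_apply, xdf_apply, C.nat, dW_map, dW_map, e_symm_nat, map_sub]

lemma dgo_nat (f : X ⟶ Y) (b : (baseW T.W L).H Y) :
    dgo C D X ((baseW T.W L).map f b) = (baseW T.W L).map f (dgo C D Y b) := by
  refine gr_induction ((baseW T.W L).isInternal Y)
    (p := fun b => dgo C D X ((baseW T.W L).map f b) = (baseW T.W L).map f (dgo C D Y b)) ?_ ?_ b
  · intro i b hb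
    rw [dgo_apply C D ((baseW T.W L).map_mem f hb), dgo_apply C D hb, map_smul]
  · intro b b' hb hb'
    rw [map_add, map_add, hb, hb', map_add, map_add]

lemma xdf_gr {i : ℕ} {a : (baseW T.W L).H Y} (ha : a ∈ (baseW T.W L).gr Y i) :
    xdf C D Y a ∈ (baseW T.W L).gr Y i := by
  rw [xdf_apply]
  refine Submodule.sub_mem _ (C.gr.1 ?_) (dW_gr T.W (dS C D) ha)
  rw [RingEquiv.apply_symm_apply]
  exact dW_gr T'.W D (C.gr.2 ha)

lemma xop_isDer : IsDer (baseW T.W L) (xop C D) where
  mul Y a b := by
    rw [xop, LinearMap.sub_apply, LinearMap.sub_apply, LinearMap.sub_apply, xdf_mul, dgo_mul,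
      sub_mul, mul_sub]
    abel
  nat f b := by
    rw [xop, xop, LinearMap.sub_apply, LinearMap.sub_apply, xdf_nat, dgo_nat, map_sub]
  gr ha := by
    rw [xop, LinearMap.sub_apply]
    refine Submodule.sub_mem _ (xdf_gr C D ha) ?_
    rw [dgo_apply C D ha]
    exact Submodule.smul_mem _ _ ha

lemma xop_em (j : ℕ) {v : T.W.H Y} (hv : v ∈ T.W.gr Y (2 * j)) :
    C.e Y (xop C D Y (em T.W L v)) = C.c ^ j • dW T'.W D Y (nrm C Y j v) := by
  have h1 : C.e Y (em T.W L v) = C.c ^ j • nrm C Y j v := (nrm_eq_iff C).1 rfl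
  have h2 : C.s (((2 * j : ℕ) : (baseW T.W L).K) * (kpa C D / 2)) =
      j * (dK T'.W D C.c / C.c) := by
    rw [map_mul, map_div₀, kpa, RingEquiv.apply_symm_apply, map_natCast, map_ofNat]
    push_cast
    ring
  rw [xop, LinearMap.sub_apply, dgo_apply C D (em_gr hv), map_sub, C.semi, h2, xdf_apply, dW_em,
    sub_zero, RingEquiv.apply_symm_apply, h1, dW_smul, dK_pow T'.W D C.c C.ne, smul_smul]
  abel

/-- The derivation of the cohomology theory given by a derivation of the coefficients and a
comparison isomorphism. -/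
theorem drv_main (T T' : HodgeTheory ops) : S_DRV T T' := by
  intro L _ _ _ C D
  refine ⟨xop C D, xop_isDer C D, ?_⟩
  intro Y j v hv y
  have h1 : dW T'.W D Y (nrm C Y j v * em T'.W L y) =
      dW T'.W D Y (nrm C Y j v) * em T'.W L y := by
    rw [dW_mul, dW_em, mul_zero, add_zero]
  rw [xop_em C D j hv, smul_mul_assoc, ← h1, map_smul, dW_tr, smul_eq_mul]
  rfl

end Op

end Pool.Agent.Helper7K9.FP
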