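import Pool.Agent.Helper7K9.FP.Stm3

/-!
# Algebraic subextensions of finitely generated extensions are finite
-/

open IntermediateField
open scoped IntermediateField.algebraAdjoinAdjoin

namespace Pool.Agent.Helper7K9.FP

theorem fgf_aux {K M : Type*} [Field K] [Field M] [Algebra K M] [Algebra.EssFiniteType K M]
    (F : IntermediateField K M) [Algebra.IsAlgebraic K F] : FiniteDimensional K F := by
  classical
  obtain ⟨s, hs⟩ := exists_finset_isTranscendenceBasis K M
  have halg : Algebra.IsAlgebraic (adjoin K (Set.range ((↑) : s → M))) M := hs.isAlgebraic_field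
  have : Algebra.EssFiniteType (adjoin K (Set.range ((↑) : s → M))) M :=
    Algebra.EssFiniteType.of_comp K (adjoin K (Set.range ((↑) : s → M))) M
  have : FiniteDimensional (adjoin K (Set.range ((↑) : s → M))) M :=
    Algebra.finite_of_essFiniteType_of_isAlgebraic
  have hF : AlgebraicIndependent F ((↑) : s → M) := hs.1.extendScalars F
  have key : ∀ (n : ℕ) (v : Fin n → F), LinearIndependent K v →
      LinearIndependent (adjoin K (Set.range ((↑) : s → M))) (fun i => (v i : M)) := by
    intro n v hv
    rw [← LinearIndependent.iff_fractionRing (R := Algebra.adjoin K (Set.range ((↑) : s → M)))]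
    rw [Fintype.linearIndependent_iff]
    intro g hg
    have hp : ∀ i, ∃ p : MvPolynomial s K, hs.1.aevalEquiv p = g i := fun i =>
      hs.1.aevalEquiv.surjective (g i)
    choose p hp using hp
    have h1 : (MvPolynomial.aeval ((↑) : s → M)) (∑ i, MvPolynomial.C (v i) *
        MvPolynomial.map (algebraMap K F) (p i)) = 0 := by
      rw [map_sum, ← hg]
      refine Finset.sum_congr rfl fun i _ => ?_
      rw [map_mul, MvPolynomial.aeval_C, MvPolynomial.aeval_map_algebraMap, ← hp,
        Algebra.smul_def, hs.1.algebraMap_aevalEquiv, mul_comm]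
      rfl
    have h2 := (injective_iff_map_eq_zero _).1 hF _ h1
    intro i
    have h3 : p i = 0 := by
      ext m
      have h4 := congrArg (MvPolynomial.coeff m) h2
      simp only [MvPolynomial.coeff_sum, MvPolynomial.coeff_C_mul, MvPolynomial.coeff_map,
        MvPolynomial.coeff_zero] at h4
      have h5 : ∑ i, (MvPolynomial.coeff m (p i)) • v i = 0 := by
        rw [← h4]
        refine Finset.sum_congr rfl fun i _ => ?_
        rw [Algebra.smul_def, mul_comm]
      exact Fintype.linearIndependent_iff.1 hv _ h5 i
    rw [← hp i, h3, map_zero]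
  by_contra hcon
  have hN : ∀ N : ℕ, ∃ v : Fin N → F, LinearIndependent K v := by
    intro N
    have : (N : Cardinal) ≤ Module.rank K F := by
      have h6 : Cardinal.aleph0 ≤ Module.rank K F := by
        by_contra hlt
        exact hcon (Module.rank_lt_aleph0_iff.1 (not_le.1 hlt))
      exact le_trans (Cardinal.natCast_lt_aleph0).le h6
    exact exists_linearIndependent_of_le_rank this
  obtain ⟨v, hv⟩ := hN (Module.finrank (adjoin K (Set.range ((↑) : s → M))) M + 1)
  have := (key _ v hv).fintype_card_le_finrank
  simp at this

theorem fgf0 (K L : Type) [Field K] [CharZero K] [Field L] [Algebra K L]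
    (F M : IntermediateField K L) (hM : M.FG) (hFM : F ≤ M) (hF : Algebra.IsAlgebraic K F) :
    FiniteDimensional K F := by
  have : Algebra.EssFiniteType K M := IntermediateField.essFiniteType_iff.2 hM
  have h1 : Algebra.IsAlgebraic K (IntermediateField.restrict hFM) :=
    (IntermediateField.restrictAlgEquiv hFM).isAlgebraic
  have h2 := fgf_aux (IntermediateField.restrict hFM)
  exact Module.Finite.equiv (IntermediateField.restrictAlgEquiv hFM).symm.toLinearEquiv

theorem fgf : S_FGF := fun K L _ _ _ _ F M hM hFM hF => fgf0 K L F M hM hFM hF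

end Pool.Agent.Helper7K9.FP
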