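import Pool.Agent.Helper7K9.FP.Stm

/-!
# The operator `p - q` on the cohomology with complex coefficients
-/

open CategoryTheory AlgebraicGeometry TensorProduct

universe u

namespace Pool.Agent.Helper7K9.FP

open Module
open Pool.Agent.H914 Pool.Agent.H914.VarClass Pool.Agent.H914.VarClass.Obj
  Pool.Agent.H914.WeilCohomology
open Pool.Agent.Y133.Half
open Pool.Agent.Y121.AH

variable {k : Type u} [Field k] {𝒱 : VarClass k} {ops : CycleOps 𝒱} {T : HodgeTheory ops}
  {X Y : 𝒱.Obj}

lemma dop_pq {p q : ℤ} {x : (CW T).H X} (hx : x ∈ T.pq X p q) :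
    dop T X x = ((p - q : ℤ) : (CW T).K) • x :=
  dia_apply (Pool.Agent.Y121.AH.isInternal T X) _ (i := (p, q)) hx

lemma dop_mul (x y : (CW T).H X) : dop T X (x * y) = dop T X x * y + x * dop T X y := by
  refine pq_ind T (p := fun x => dop T X (x * y) = dop T X x * y + x * dop T X y) ?_ ?_ ?_ x
  · intro a b x hx
    refine pq_ind T (p := fun y => dop T X (x * y) = dop T X x * y + x * dop T X y) ?_ ?_ ?_ y
    · intro c d y hy
      rw [dop_pq hx, dop_pq hy, dop_pq (T.dec.mul hx hy), smul_mul_assoc, mul_smul_comm,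
        ← add_smul, ← Int.cast_add]
      congr 2
      ring
    · intro y z hy hz
      rw [mul_add, map_add, hy, hz, map_add, mul_add, mul_add]
      abel
    · rw [mul_zero, map_zero, mul_zero, mul_zero, add_zero]
  · intro x z hx hz
    rw [add_mul, map_add, hx, hz, map_add, add_mul, add_mul]
    abel
  · rw [zero_mul, map_zero, zero_mul, zero_mul, add_zero]

lemma dop_map (f : X ⟶ Y) (y : (CW T).H Y) :
    dop T X ((CW T).map f y) = (CW T).map f (dop T Y y) := by
  refine pq_ind T (p := fun y => dop T X ((CW T).map f y) = (CW T).map f (dop T Y y)) ?_ ?_ ?_ y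
  · intro a b y hy
    rw [dop_pq hy, dop_pq (T.dec.map f hy), map_smul]
  · intro y z hy hz; rw [map_add, map_add, hy, hz, map_add, map_add]
  · rw [map_zero, map_zero, map_zero, map_zero]

/-- Homogeneous classes are sums of classes of the types `(a, b)` with `a + b = i`. -/
lemma gr_le {i : ℕ} {x : (CW T).H X} (hx : x ∈ (CW T).gr X i) :
    x ∈ ⨆ r : {r : ℤ × ℤ // r.1 + r.2 = i}, T.pq X r.1.1 r.1.2 := by
  have hx' : x ∈ (T.W.gr X i).baseChange ℂ := hx
  refine base_induction (P := fun x : ℂ ⊗[T.W.K] T.W.H X => (show (CW T).H X from x) ∈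
    (⨆ r : {r : ℤ × ℤ // r.1 + r.2 = i}, T.pq X r.1.1 r.1.2 :
      Submodule (CW T).K ((CW T).H X))) ?_ ?_ ?_ hx'
  · exact Submodule.zero_mem _
  · intro x y hx hy
    exact Submodule.add_mem _ hx hy
  · intro l a ha
    have h := tmul_eq (W := T.W) (L := ℂ) l a
    rw [h]
    exact Submodule.smul_mem _ _ (T.dec.span ha)

lemma dop_gr {i : ℕ} {x : (CW T).H X} (hx : x ∈ (CW T).gr X i) :
    dop T X x ∈ (CW T).gr X i := by
  refine Submodule.iSup_induction (fun r : {r : ℤ × ℤ // r.1 + r.2 = i} => T.pq X r.1.1 r.1.2)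
    (motive := fun x => dop T X x ∈ (CW T).gr X i) (gr_le hx) ?_ ?_ ?_
  · intro r x hx
    rw [dop_pq hx]
    exact Submodule.smul_mem _ _ (T.dec.le X r.2 hx)
  · rw [map_zero]; exact Submodule.zero_mem _
  · intro x y hx hy; rw [map_add]; exact Submodule.add_mem _ hx hy

/-- The projector onto the spaces `H^(p,p)`. -/
noncomputable def eop (T : HodgeTheory ops) (X : 𝒱.Obj) : Module.End (CW T).K ((CW T).H X) :=
  dia (Pool.Agent.Y121.AH.isInternal T X) fun r : ℤ × ℤ =>
    if r.1 = r.2 then (1 : (CW T).K) else 0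

lemma eop_pq {p q : ℤ} {x : (CW T).H X} (hx : x ∈ T.pq X p q) :
    eop T X x = if p = q then x else 0 := by
  have h : eop T X x = (if p = q then (1 : (CW T).K) else 0) • x :=
    dia_apply (Pool.Agent.Y121.AH.isInternal T X) _ (i := (p, q)) hx
  rw [h]
  split_ifs
  · rw [one_smul]
  · rw [zero_smul]

lemma eop_of_dop {x : (CW T).H X} (h : dop T X x = 0) : eop T X x = x := by
  classical
  set N : Module.End (CW T).K ((CW T).H X) := dia (Pool.Agent.Y121.AH.isInternal T X) fun r =>
    if r.1 = r.2 then 0 else ((r.1 - r.2 : ℤ) : (CW T).K)⁻¹ with hN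
  have h1 : ∀ x, N (dop T X x) + eop T X x = x := by
    intro x
    refine pq_ind T (p := fun x => N (dop T X x) + eop T X x = x) ?_ ?_ ?_ x
    · intro a b x hx
      rw [dop_pq hx, map_smul, hN, eop_pq hx,
        dia_apply (Pool.Agent.Y121.AH.isInternal T X) _ (i := (a, b)) hx]
      by_cases hab : a = b
      · simp [hab]
      · simp only [if_neg hab, add_zero]
        have h2 : ((a - b : ℤ) : ℂ) ≠ 0 := by
          rw [Int.cast_ne_zero]
          omega
        have h3 : ((a - b : ℤ) : (CW T).K) ≠ 0 := h2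
        rw [smul_smul, mul_inv_cancel₀ h3, one_smul]
    · intro a b ha hb
      calc N (dop T X (a + b)) + eop T X (a + b)
          = (N (dop T X a) + eop T X a) + (N (dop T X b) + eop T X b) := by
            simp only [map_add]; abel
        _ = a + b := by rw [ha, hb]
    · simp
  have h2 := h1 x
  rwa [h, map_zero, zero_add] at h2

/-- A class of even degree killed by the operator is of type `(j, j)`. -/
lemma pq_of_dop {j : ℕ} {x : (CW T).H X} (hx : x ∈ (CW T).gr X (2 * j)) (h : dop T X x = 0) :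
    x ∈ T.pq X j j := by
  rw [← eop_of_dop h]
  refine Submodule.iSup_induction
    (fun r : {r : ℤ × ℤ // r.1 + r.2 = (2 * j : ℕ)} => T.pq X r.1.1 r.1.2)
    (motive := fun x => eop T X x ∈ T.pq X j j) (gr_le hx) ?_ ?_ ?_
  · rintro ⟨⟨a, b⟩, hr⟩ x hx
    rw [eop_pq hx]
    by_cases hab : a = b
    · subst hab
      have h3 : a = j := by
        have h4 : a + a = ((2 * j : ℕ) : ℤ) := hr
        push_cast at h4
        omega
      subst h3
      simpa using hx
    · simp [hab]
  · rw [map_zero]; exact Submodule.zero_mem _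
  · intro x y hx hy; rw [map_add]; exact Submodule.add_mem _ hx hy

/-- A class of odd degree killed by the operator is zero. -/
lemma eq_zero_of_dop {j : ℕ} {x : (CW T).H X} (hx : x ∈ (CW T).gr X (2 * j + 1))
    (h : dop T X x = 0) : x = 0 := by
  rw [← eop_of_dop h]
  refine Submodule.iSup_induction
    (fun r : {r : ℤ × ℤ // r.1 + r.2 = (2 * j + 1 : ℕ)} => T.pq X r.1.1 r.1.2)
    (motive := fun x => eop T X x = 0) (gr_le hx) ?_ ?_ ?_
  · rintro ⟨⟨a, b⟩, hr⟩ x hx
    rw [eop_pq hx, if_neg]
    intro hab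
    have hab' : a = b := hab
    have h4 : a + b = ((2 * j + 1 : ℕ) : ℤ) := hr
    push_cast at h4
    omega
  · rw [map_zero]
  · intro x y hx hy; rw [map_add, hx, hy, add_zero]

lemma dop_proj (j : ℕ) (x : (CW T).H X) : dop T X (H914.proj ((CW T).isInternal X) j x) =
    H914.proj ((CW T).isInternal X) j (dop T X x) := by
  refine gr_induction ((CW T).isInternal X) (p := fun x =>
    dop T X (H914.proj ((CW T).isInternal X) j x) =
      H914.proj ((CW T).isInternal X) j (dop T X x)) ?_ ?_ x
  · intro i x hx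
    by_cases hij : i = j
    · subst hij
      rw [proj_same _ hx, proj_same _ (dop_gr hx)]
    · rw [proj_ne _ hx hij, proj_ne _ (dop_gr hx) hij, map_zero]
  · intro a b ha hb; rw [map_add, map_add, ha, hb, map_add, map_add]

lemma em_proj (j : ℕ) (c : T.W.H X) : em T.W ℂ (H914.proj (T.W.isInternal X) j c) =
    H914.proj ((CW T).isInternal X) j (em T.W ℂ c) := by
  refine gr_induction (T.W.isInternal X) (p := fun c =>
    em T.W ℂ (H914.proj (T.W.isInternal X) j c) =
      H914.proj ((CW T).isInternal X) j (em T.W ℂ c)) ?_ ?_ c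
  · intro i x hx
    by_cases hij : i = j
    · subst hij
      rw [proj_same _ hx, proj_same _ (em_gr hx)]
    · rw [proj_ne _ hx hij, proj_ne _ (em_gr hx) hij, em_zero]
  · intro a b ha hb; rw [map_add, em_add, ha, hb, em_add, map_add]

lemma mem_hodgeSys {c : T.W.H X} (h : dop T X (em T.W ℂ c) = 0) : c ∈ (hodgeSys T).C X := by
  have h1 : c = (∑ i ∈ Finset.range (2 * X.dim + 1), H914.proj (T.W.isInternal X) i) c := by
    rw [sum_proj (T.W.isInternal X) (fun i hi => T.W.gr_eq_bot X i (by omega))]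
    rfl
  rw [h1, LinearMap.sum_apply]
  refine Submodule.sum_mem _ fun i _ => ?_
  have h2 : dop T X (em T.W ℂ (H914.proj (T.W.isInternal X) i c)) = 0 := by
    rw [em_proj, dop_proj, h, map_zero]
  have h3 := H914.proj_mem (T.W.isInternal X) i c
  rcases Nat.even_or_odd' i with ⟨j, rfl | rfl⟩
  · exact ClassPred.sp_of (Q := hodgePred T) (j := j) ⟨h3, pq_of_dop (em_gr h3) h2⟩
  · have h4 := em_injective (eq_zero_of_dop (em_gr h3) h2)
    rw [h4]
    exact Submodule.zero_mem _

lemma dop_hodge {j : ℕ} {c : T.W.H X} (hc : IsHodge T X j c) : dop T X (em T.W ℂ c) = 0 := by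
  rw [dop_pq hc.2, sub_self, Int.cast_zero, zero_smul]

theorem dop_main (T : HodgeTheory ops) : S_DOP T := by
  refine ⟨⟨fun Y a b => dop_mul a b, fun f b => dop_map f b, fun ha => dop_gr ha⟩,
    fun X p q x hx => dop_pq hx, fun X c => ⟨fun hc => ?_, mem_hodgeSys⟩,
    fun X j x hx h => pq_of_dop hx h⟩
  refine ClassPred.sp_ind (Q := hodgePred T) (q := fun c => dop T X (em T.W ℂ c) = 0)
    ?_ ?_ ?_ hc
  · intro j x hx
    exact dop_hodge hx
  · rw [em_zero, map_zero]
  · intro a b ha hb
    rw [em_add, map_add, ha, hb, add_zero]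

end Pool.Agent.Helper7K9.FP
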