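import Pool.Agent.Helper7K9.FP.Stm

/-!
# The difference of the two operators is nilpotent for the Hodge filtration
-/

open CategoryTheory AlgebraicGeometry TensorProduct

universe u v

namespace Pool.Agent.Helper7K9.FP

open Module
open Pool.Agent.H914 Pool.Agent.H914.VarClass Pool.Agent.H914.VarClass.Obj
  Pool.Agent.H914.WeilCohomology
open Pool.Agent.Y133.Half
open Pool.Agent.Y121.AH

variable {k : Type u} [Field k] {𝒱 : VarClass k} {ops : CycleOps 𝒱}

section Alg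

variable {K V : Type*} [Field K] [AddCommGroup V] [Module K V]

lemma nilp_of_fil (F : ℤ → Submodule K V) (M : Module.End K V)
    (h : ∀ p, ∀ x ∈ F p, M x ∈ F (p + 1)) {a : ℤ} (ha : F a = ⊤) (n : ℕ) (hb : F (a + n) = ⊥) :
    IsNilpotent M := by
  refine ⟨n, ?_⟩
  have key : ∀ (m : ℕ) (x : V), (M ^ m) x ∈ F (a + m) := by
    intro m
    induction m with
    | zero =>
      intro x
      simp [ha]
    | succ m ih =>
      intro x
      rw [pow_succ']
      have := h _ _ (ih x)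
      rw [show (a + ((m + 1 : ℕ) : ℤ)) = a + m + 1 by push_cast; ring]
      exact this
  ext x
  have := key n x
  rw [hb] at this
  simpa using this

end Alg

section Fil

variable {T : HodgeTheory ops} {X : 𝒱.Obj}

lemma pq_neg {a b : ℤ} (h : a + b < 0) {x : (CW T).H X} (hx : x ∈ T.pq X a b) : x = 0 := by
  have h1 := T.dec.indep X (a, b)
  have h2 : x ∈ (⨆ (j : ℤ × ℤ) (_ : j ≠ (a, b)), T.pq X j.1 j.2 :
      Submodule (CW T).K ((CW T).H X)) := by
    refine gr_induction ((CW T).isInternal X)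
      (p := fun y => y ∈ (⨆ (j : ℤ × ℤ) (_ : j ≠ (a, b)), T.pq X j.1 j.2 :
        Submodule (CW T).K ((CW T).H X))) ?_ ?_ x
    · intro i y hy
      refine (iSup_le fun r => ?_ : (⨆ r : {r : ℤ × ℤ // r.1 + r.2 = i}, T.pq X r.1.1 r.1.2) ≤
        (⨆ (j : ℤ × ℤ) (_ : j ≠ (a, b)), T.pq X j.1 j.2 :
        Submodule (CW T).K ((CW T).H X))) (gr_le_iSup hy)
      refine le_iSup₂_of_le (f := fun (j : ℤ × ℤ) (_ : j ≠ (a, b)) => T.pq X j.1 j.2) r.1 ?_ le_rfl
      intro h4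
      have h5 := r.2
      rw [h4] at h5
      simp only at h5
      omega
    · intro a b ha hb
      exact Submodule.add_mem _ ha hb
  exact (Submodule.disjoint_def.1 h1) x hx h2

lemma mem_fil {p q r : ℤ} {x : (CW T).H X} (hx : x ∈ T.pq X p q) (h : r ≤ p) :
    x ∈ fil T X r :=
  Submodule.mem_iSup_of_mem (p := fun s : {s : ℤ × ℤ // r ≤ s.1} => T.pq X s.1.1 s.1.2)
    ⟨(p, q), h⟩ hx

lemma fil_anti {p p' : ℤ} (h : p ≤ p') : fil T X p' ≤ fil T X p := by
  refine iSup_le fun r => ?_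
  intro x hx
  exact mem_fil hx (h.trans r.2)

lemma fil_gr {p : ℤ} {i : ℕ} {x : (CW T).H X} (hx : x ∈ fil T X p) (hi : x ∈ (CW T).gr X i) :
    x ∈ (⨆ r : {r : ℤ × ℤ // p ≤ r.1 ∧ r.1 + r.2 = i}, T.pq X r.1.1 r.1.2 :
      Submodule (CW T).K ((CW T).H X)) := by
  rw [← proj_same ((CW T).isInternal X) hi]
  refine Submodule.iSup_induction (fun s : {s : ℤ × ℤ // p ≤ s.1} => T.pq X s.1.1 s.1.2)
    (motive := fun x => H914.proj ((CW T).isInternal X) i x ∈
      (⨆ r : {r : ℤ × ℤ // p ≤ r.1 ∧ r.1 + r.2 = i}, T.pq X r.1.1 r.1.2 :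
      Submodule (CW T).K ((CW T).H X))) hx ?_ ?_ ?_
  · rintro ⟨⟨a, b⟩, hab⟩ y hy
    rcases lt_or_ge (a + b) 0 with h0 | h0
    · rw [pq_neg h0 hy, map_zero]
      exact Submodule.zero_mem _
    · obtain ⟨j, hj⟩ := Int.eq_ofNat_of_zero_le h0
      have h1 : y ∈ (CW T).gr X j := T.dec.le X hj hy
      by_cases hij : j = i
      · subst hij
        rw [proj_same _ h1]
        exact Submodule.mem_iSup_of_mem (p := fun s : {r : ℤ × ℤ // p ≤ r.1 ∧ r.1 + r.2 = j} =>
          T.pq X s.1.1 s.1.2) ⟨(a, b), hab, hj⟩ hy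
      · rw [proj_ne _ h1 hij]
        exact Submodule.zero_mem _
  · rw [map_zero]
    exact Submodule.zero_mem _
  · intro y z hy hz
    rw [map_add]
    exact Submodule.add_mem _ hy hz

lemma nil_dop_pq {p q : ℤ} {x : (CW T).H X} (hx : x ∈ T.pq X p q) :
    dop T X x = ((p - q : ℤ) : (CW T).K) • x :=
  dia_apply (isInternal T X) _ (i := (p, q)) hx

/-- The operator `p - q` minus its value on the part of type `(p, q)` raises the filtration. -/
lemma dop_sub_fil {p q : ℤ} {i : ℕ} (hpq : p + q = i) {x : (CW T).H X} (hx : x ∈ fil T X p)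
    (hi : x ∈ (CW T).gr X i) :
    dop T X x - ((p - q : ℤ) : (CW T).K) • x ∈ fil T X (p + 1) := by
  refine Submodule.iSup_induction
    (fun r : {r : ℤ × ℤ // p ≤ r.1 ∧ r.1 + r.2 = i} => T.pq X r.1.1 r.1.2)
    (motive := fun x => dop T X x - ((p - q : ℤ) : (CW T).K) • x ∈ fil T X (p + 1))
    (fil_gr hx hi) ?_ ?_ ?_
  · rintro ⟨⟨a, b⟩, hap, hab⟩ y hy
    simp only at hap hab hy
    rw [nil_dop_pq hy, ← sub_smul]
    rcases hap.eq_or_lt with h1 | h1
    · subst h1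
      have h2 : b = q := by omega
      subst h2
      rw [sub_self, zero_smul]
      exact Submodule.zero_mem _
    · exact Submodule.smul_mem _ _ (mem_fil hy h1)
  · rw [map_zero, smul_zero, sub_zero]
    exact Submodule.zero_mem _
  · intro y z hy hz
    rw [map_add, smul_add, add_sub_add_comm]
    exact Submodule.add_mem _ hy hz

lemma fil_top (X : 𝒱.Obj) : ∃ p₀ : ℤ, ∀ p ≤ p₀, fil T X p = ⊤ := by
  have hfin : {r : ℤ × ℤ | T.pq X r.1 r.2 ≠ ⊥}.Finite :=
    WellFoundedGT.finite_ne_bot_of_iSupIndep (T.dec.indep X)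
  obtain ⟨m, hm⟩ := (hfin.image (fun r : ℤ × ℤ => r.1)).bddBelow
  refine ⟨m, fun p hp => ?_⟩
  rw [eq_top_iff, ← iSup_top T X]
  refine iSup_le fun r => ?_
  by_cases h : T.pq X r.1 r.2 = ⊥
  · rw [h]
    exact bot_le
  · intro x hx
    exact mem_fil hx (hp.trans (hm (Set.mem_image_of_mem _ h)))

lemma fil_bot (X : 𝒱.Obj) : ∃ p₀ : ℤ, ∀ p ≥ p₀, fil T X p = ⊥ := by
  have hfin : {r : ℤ × ℤ | T.pq X r.1 r.2 ≠ ⊥}.Finite :=
    WellFoundedGT.finite_ne_bot_of_iSupIndep (T.dec.indep X)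
  obtain ⟨m, hm⟩ := (hfin.image (fun r : ℤ × ℤ => r.1)).bddAbove
  refine ⟨m + 1, fun p hp => ?_⟩
  rw [eq_bot_iff]
  refine iSup_le fun r => ?_
  by_cases h : T.pq X r.1.1 r.1.2 = ⊥
  · rw [h]
  · exfalso
    have h1 : r.1.1 ≤ m := hm (Set.mem_image_of_mem (fun r : ℤ × ℤ => r.1) (by exact h))
    have h2 := r.2
    omega

lemma par_pq {p q : ℤ} {x : (CW T).H X} (hx : x ∈ T.pq X p q) :
    H914.par ((CW T).isInternal X) x ∈ T.pq X p q := by
  rcases lt_or_ge (p + q) 0 with h0 | h0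
  · rw [pq_neg h0 hx, map_zero]
    exact Submodule.zero_mem _
  · obtain ⟨j, hj⟩ := Int.eq_ofNat_of_zero_le h0
    have h1 : x ∈ (CW T).gr X j := T.dec.le X hj hx
    rw [H914.par, scal_apply _ _ h1]
    exact Submodule.smul_mem _ _ hx

lemma par_fil {p : ℤ} {x : (CW T).H X} (hx : x ∈ fil T X p) :
    H914.par ((CW T).isInternal X) x ∈ fil T X p := by
  refine Submodule.iSup_induction (fun s : {s : ℤ × ℤ // p ≤ s.1} => T.pq X s.1.1 s.1.2)
    (motive := fun x => H914.par ((CW T).isInternal X) x ∈ fil T X p) hx ?_ ?_ ?_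
  · rintro ⟨⟨a, b⟩, hab⟩ y hy
    exact mem_fil (par_pq hy) hab
  · rw [map_zero]
    exact Submodule.zero_mem _
  · intro y z hy hz
    rw [map_add]
    exact Submodule.add_mem _ hy hz

lemma corr_pq {c : T.W.H (X.prod X)} (hc : IsHodge T (X.prod X) X.dim c) {p q : ℤ}
    {x : (CW T).H X} (hx : x ∈ T.pq X p q) :
    (CW T).corr (em T.W ℂ c) x ∈ T.pq X p q := by
  rw [corr_apply]
  have h1 := T.dec.push (snd X X) (T.dec.mul hc.2 (T.dec.map (fst X X) hx))
  have h2 : ((X.dim : ℤ) + p + X.dim - (X.prod X).dim) = p := by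
    rw [dim_prod]; push_cast; ring
  have h3 : ((X.dim : ℤ) + q + X.dim - (X.prod X).dim) = q := by
    rw [dim_prod]; push_cast; ring
  rw [h2, h3] at h1
  exact h1

end Fil

theorem nil_main (T T' : HodgeTheory ops) : S_NIL T T' := by
  intro R hR X c hc N hN
  have h1 : ∀ (p q : ℤ) (x : (CW T).H X), x ∈ T.pq X p q → N x ∈ fil T X (p + 1) := by
    intro p q x hx
    rcases lt_or_ge (p + q) 0 with h0 | h0
    · rw [pq_neg h0 hx, map_zero]
      exact Submodule.zero_mem _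
    · obtain ⟨j, hj⟩ := Int.eq_ofNat_of_zero_le h0
      have h2 : x ∈ (CW T).gr X j := T.dec.le X hj hx
      rw [hR, hN, nil_dop_pq hx, R.semi, map_intCast]
      exact dop_sub_fil hj ((hR X p x).1 (mem_fil hx le_rfl)) (R.gr.2 h2)
  have h2 : ∀ (p : ℤ) (x : (CW T).H X), x ∈ fil T X p →
      (H914.par ((CW T).isInternal X) ∘ₗ N ∘ₗ (CW T).corr (em T.W ℂ c)) x ∈ fil T X (p + 1) := by
    intro p x hx
    refine Submodule.iSup_induction (fun s : {s : ℤ × ℤ // p ≤ s.1} => T.pq X s.1.1 s.1.2)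
      (motive := fun x => (H914.par ((CW T).isInternal X) ∘ₗ N ∘ₗ
        (CW T).corr (em T.W ℂ c)) x ∈ fil T X (p + 1)) hx ?_ ?_ ?_
    · rintro ⟨⟨a, b⟩, hab⟩ y hy
      have hab' : p ≤ a := hab
      simp only [LinearMap.comp_apply]
      exact par_fil (fil_anti (by omega) (h1 a b _ (corr_pq hc hy)))
    · rw [map_zero]
      exact Submodule.zero_mem _
    · intro y z hy hz
      rw [map_add]
      exact Submodule.add_mem _ hy hz
  obtain ⟨p₀, hp₀⟩ := fil_top (T := T) X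
  obtain ⟨p₁, hp₁⟩ := fil_bot (T := T) X
  have h3 : IsNilpotent (H914.par ((CW T).isInternal X) ∘ₗ N ∘ₗ (CW T).corr (em T.W ℂ c)) := by
    refine nilp_of_fil (fil T X) _ h2 (hp₀ p₀ le_rfl) (p₁ - p₀).toNat (hp₁ _ ?_)
    have := Int.self_le_toNat (p₁ - p₀)
    omega
  exact (LinearMap.isNilpotent_trace_of_isNilpotent h3).eq_zero

end Pool.Agent.Helper7K9.FP
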