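import Pool.Agent.Y121.AHS.Law

/-!
# Comparison isomorphisms which respect the Hodge filtration: definitions
-/

open CategoryTheory AlgebraicGeometry

universe u

namespace Pool.Agent.Helper7K9.FP

open Pool.Agent.H914 Pool.Agent.H914.VarClass Pool.Agent.H914.VarClass.Obj
  Pool.Agent.H914.WeilCohomology
open Pool.Agent.Y121.AHS
open Pool.Agent.Y133.Half (pw)

variable {k : Type u} [Field k] {𝒱 : VarClass k} {ops : CycleOps 𝒱}

/-- The class `x` is in the step `F^p` of the Hodge filtration of the cohomology of `X` with complex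
coefficients: the sum of the spaces `H^(r,s)(X)` with `p ≤ r`. -/
def InFil (T : HodgeTheory ops) {X : 𝒱.Obj} (p : ℤ) (x : HL T.W ℂ X) : Prop :=
  x ∈ ⨆ r : {r : ℤ × ℤ // p ≤ r.1}, T.pq X r.1.1 r.1.2

/-- The maps `θ X` from the cohomology with coefficients in `L` to the cohomology with
complex coefficients are additive and map `l ⊗ c` to `τ(l) ⊗ c`. -/
def IsExt {W : WeilCohomology.{u, 0} ops} [Algebra W.K ℂ] {L : Type} [Field L] [Algebra W.K L]
    (τ : L ≃+* ℂ) (θ : ∀ X : 𝒱.Obj, HL W L X → HL W ℂ X) : Prop :=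
  (∀ X x y, θ X (x + y) = θ X x + θ X y) ∧
  ∀ (X : 𝒱.Obj) (l : L) (c : W.H X), θ X (smL l (emL W L c)) = smL (τ l) (emL W ℂ c)

/-- The comparison isomorphism respects the Hodge filtrations: for some identification `τ` of the
field of coefficients with the field of complex numbers a class `x` is in `F^p` if and only if its
image is in `F^p` (in the intended use: the comparison isomorphism given by de Rham cohomology). -/
def RespFil {T T' : HodgeTheory ops} {L : Type} [Field L] [Algebra T.W.K L] [Algebra T'.W.K L]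
    (C : Comparison T.W T'.W L) : Prop :=
  ∃ (τ : L ≃+* ℂ) (θ : ∀ X : 𝒱.Obj, HL T.W L X → HL T.W ℂ X)
    (θ' : ∀ X : 𝒱.Obj, HL T'.W L X → HL T'.W ℂ X), IsExt τ θ ∧ IsExt τ θ' ∧
    ∀ X p x, InFil T p (θ X x) ↔ InFil T' p (θ' X (C.e X x))

end Pool.Agent.Helper7K9.FP
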