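import Pool.Agent.Helper7K9.FP.Stm

/-!
# The projector onto the common kernel
-/

open CategoryTheory AlgebraicGeometry TensorProduct

universe u v

namespace Pool.Agent.Helper7K9.FP

open Module
open Pool.Agent.H914 Pool.Agent.H914.VarClass Pool.Agent.H914.VarClass.Obj
  Pool.Agent.H914.WeilCohomology
open Pool.Agent.Y133.Half
open Pool.Agent.Y121.AH

/-- Left ideals of an algebra of operators with nondegenerate trace form are generated by
idempotents. -/
lemma exists_idem {K H : Type*} [Field K] [CharZero K] [AddCommGroup H] [Module K H]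
    [FiniteDimensional K H]
    (E : Subalgebra K (Module.End K H))
    (hE : ∀ u ∈ E, (∀ g ∈ E, LinearMap.trace K H (g ∘ₗ u) = 0) → u = 0) (I : Ideal E) :
    ∃ q : E, q ∈ I ∧ ∀ f ∈ I, f * q = f := by
  let t : Tr K E :=
    { τ := LinearMap.trace K H ∘ₗ E.val.toLinearMap
      cyc := fun x y => LinearMap.trace_mul_comm K (x : Module.End K H) y
      nil := fun x hx => by
        have h1 : IsNilpotent (x : Module.End K H) := hx.map E.val
        exact (LinearMap.isNilpotent_trace_of_isNilpotent h1).eq_zero }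
  have h1 : t.rad = ⊥ := by
    rw [eq_bot_iff]
    intro x hx
    rw [Submodule.mem_bot]
    apply Subtype.ext
    refine hE x x.2 fun g hg => ?_
    have h2 := hx ⟨g, hg⟩
    rw [t.cyc] at h2
    exact h2
  have hss : IsSemisimpleRing E := by
    let φ : (E ⧸ t.rad) →+* E := Ideal.Quotient.lift t.rad (RingHom.id E) fun a ha => by
      rw [h1, Submodule.mem_bot] at ha
      rw [ha, map_zero]
    have hφ : Function.Surjective φ := fun a =>
      ⟨Ideal.Quotient.mk t.rad a, Ideal.Quotient.lift_mk _ _ _⟩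
    exact RingHom.isSemisimpleRing_of_surjective φ hφ
  obtain ⟨q, hq, hI⟩ := IsSemisimpleRing.ideal_eq_span_idempotent I
  refine ⟨q, hI ▸ Ideal.subset_span rfl, fun f hf => ?_⟩
  rw [hI] at hf
  obtain ⟨a, rfl⟩ := Submodule.mem_span_singleton.1 hf
  rw [smul_eq_mul, mul_assoc, hq.eq]

variable {k : Type u} [Field k] {𝒱 : VarClass k} {ops : CycleOps 𝒱}

theorem prj (W : WeilCohomology.{u, v} ops) : S_PRJ W := by
  intro S M hM ι N φ hφ hN
  let E : Subalgebra W.K (Module.End W.K (W.H M)) :=
    { carrier := S.Op M M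
      mul_mem' := fun {a b} ha hb => Sys.Op.comp ha hb
      one_mem' := Sys.Op.id
      add_mem' := fun {a b} ha hb => Submodule.add_mem _ ha hb
      zero_mem' := Submodule.zero_mem _
      algebraMap_mem' := fun r => by
        rw [Algebra.algebraMap_eq_smul_one]
        exact Submodule.smul_mem _ _ Sys.Op.id }
  have hE : ∀ u ∈ E, (∀ g ∈ E, LinearMap.trace W.K (W.H M) (g ∘ₗ u) = 0) → u = 0 :=
    fun u hu h => Sys.eq_zero_of_trace hM hu h
  let I : Ideal E :=
    { carrier := {f | ∀ z, (∀ i, φ i z = 0) → (f : Module.End W.K (W.H M)) z = 0}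
      add_mem' := fun {a b} ha hb z hz => by
        change (a : Module.End W.K (W.H M)) z + (b : Module.End W.K (W.H M)) z = 0
        rw [ha z hz, hb z hz, add_zero]
      zero_mem' := fun z _ => rfl
      smul_mem' := fun c x hx z hz => by
        change (c : Module.End W.K (W.H M)) ((x : Module.End W.K (W.H M)) z) = 0
        rw [hx z hz, map_zero] }
  obtain ⟨q, hq, hqI⟩ := exists_idem E hE I
  refine ⟨1 - q, Submodule.sub_mem _ Sys.Op.id q.2, fun i => ?_, fun z hz => ?_⟩
  · have hp : φ i ∘ₗ (1 - (q : Module.End W.K (W.H M))) ∈ S.Op M (N i) :=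
      Sys.Op.comp (hφ i) (Submodule.sub_mem _ Sys.Op.id q.2)
    refine Sys.eq_zero_of_trace (hN i) hp fun g hg => ?_
    have h1 : (⟨g ∘ₗ φ i, Sys.Op.comp hg (hφ i)⟩ : E) ∈ I := by
      intro z hz
      change g (φ i z) = 0
      rw [hz i, map_zero]
    have h2 := congrArg Subtype.val (hqI _ h1)
    have h3 : g ∘ₗ (φ i ∘ₗ (1 - (q : Module.End W.K (W.H M)))) = 0 := by
      have h4 : (g ∘ₗ φ i) * (q : Module.End W.K (W.H M)) = g ∘ₗ φ i := h2
      rw [← LinearMap.comp_assoc]
      change (g ∘ₗ φ i) * (1 - (q : Module.End W.K (W.H M))) = 0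
      rw [mul_sub, mul_one, h4, sub_self]
    rw [h3, map_zero]
  · change z - (q : Module.End W.K (W.H M)) z = z
    rw [hq z hz, sub_zero]

end Pool.Agent.Helper7K9.FP
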