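import Pool.Agent.Helper7K9.FP.Stm

/-!
# The extension of a comparison isomorphism to complex coefficients
-/

open CategoryTheory AlgebraicGeometry TensorProduct

universe u v

namespace Pool.Agent.Helper7K9.FP

open Module
open Pool.Agent.H914 Pool.Agent.H914.VarClass Pool.Agent.H914.VarClass.Obj
  Pool.Agent.H914.WeilCohomology
open Pool.Agent.Y133.Half
open Pool.Agent.Y121.AH

variable {k : Type u} [Field k] {𝒱 : VarClass k} {ops : CycleOps 𝒱}

variable {T T' : HodgeTheory ops} {L : Type} [Field L] [Algebra T.W.K L] [Algebra T'.W.K L]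
  (C : Comparison (baseW T.W L) (baseW T'.W L)) (τ : L →+* ℂ) (σ : ℂ ≃+* ℂ) {X Y : 𝒱.Obj}

/-- The isomorphism of the coefficients. -/
def sg (T T' : HodgeTheory ops) (σ : ℂ ≃+* ℂ) : (CW T).K ≃+* (CW T').K := σ

lemma sg_ex (r : T.W.K) : sg T T' σ (ex T.W ℂ r) = (rlz C τ).s r := by
  obtain ⟨q, rfl⟩ := T.rat r
  rw [ex_rat, map_ratCast, map_ratCast]

/-- The additive map. -/
noncomputable def rhoAdd (X : 𝒱.Obj) : (CW T).H X →+ (CW T').H X :=
  (TensorProduct.liftAddHom (R := T.W.K) (M := ℂ) (N := T.W.H X) (P := (CW T').H X)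
    { toFun := fun l =>
        { toFun := fun v => sg T T' σ l • (rlz C τ).E X v
          map_zero' := by rw [map_zero, smul_zero]
          map_add' := fun v w => by rw [map_add, smul_add] }
      map_zero' := by
        ext v
        change sg T T' σ 0 • (rlz C τ).E X v = 0
        rw [map_zero, zero_smul]
      map_add' := fun l m => by
        ext v
        have h : sg T T' σ (show (CW T).K from (l + m : ℂ)) = sg T T' σ l + sg T T' σ m :=
          map_add (sg T T' σ) l m
        exact (congrArg (fun c => c • (rlz C τ).E X v) h).trans (add_smul _ _ _) }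
    (fun r l v => by
      have h : sg T T' σ (show (CW T).K from (r • l : ℂ)) =
          sg T T' σ l * sg T T' σ (ex T.W ℂ r) := by
        have h1 : (r • l : ℂ) = l * algebraMap T.W.K ℂ r := by
          rw [Algebra.smul_def, mul_comm]
        exact (congrArg (sg T T' σ) h1).trans (map_mul (sg T T' σ) l (ex T.W ℂ r))
      have h2 : (rlz C τ).E X (r • v) = sg T T' σ (ex T.W ℂ r) • (rlz C τ).E X v := by
        rw [(rlz C τ).semi, ← sg_ex C τ σ r]
      refine (congrArg (fun c => c • (rlz C τ).E X v) h).trans ?_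
      refine Eq.trans ?_ (congrArg (fun c => sg T T' σ l • c) h2).symm
      exact mul_smul _ _ _) : ℂ ⊗[T.W.K] T.W.H X →+ (CW T').H X)

lemma rhoAdd_tmul (l : (CW T).K) (v : T.W.H X) :
    rhoAdd C τ σ X (l • em T.W ℂ v) = sg T T' σ l • (rlz C τ).E X v := by
  have key : ∀ m : ℂ, rhoAdd C τ σ X ((show (CW T).K from m) • em T.W ℂ v) =
      sg T T' σ m • (rlz C τ).E X v := by
    intro m
    rw [← tmul_eq m v]
    exact TensorProduct.liftAddHom_tmul _ _ _ _
  exact key l

lemma rhoAdd_em (v : T.W.H X) : rhoAdd C τ σ X (em T.W ℂ v) = (rlz C τ).E X v := by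
  have h := rhoAdd_tmul C τ σ (1 : (CW T).K) v
  rwa [one_smul, map_one, one_smul] at h

lemma em_ind {p : (CW T).H X → Prop} (h0 : p 0) (hadd : ∀ x y, p x → p y → p (x + y))
    (h : ∀ (l : (CW T).K) (a : T.W.H X), p (l • em T.W ℂ a)) (x : (CW T).H X) : p x := by
  refine tmul_ind (p := p) h0 hadd ?_ x
  intro l a
  rw [tmul_eq]
  exact h l a

lemma rhoAdd_mul (x y : (CW T).H X) :
    rhoAdd C τ σ X (x * y) = rhoAdd C τ σ X x * rhoAdd C τ σ X y := by
  refine em_ind (p := fun x => rhoAdd C τ σ X (x * y) =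
    rhoAdd C τ σ X x * rhoAdd C τ σ X y) ?_ ?_ ?_ x
  · rw [zero_mul, map_zero, zero_mul]
  · intro x z hx hz; rw [add_mul, map_add, hx, hz, map_add, add_mul]
  · intro l a
    refine em_ind (p := fun y => rhoAdd C τ σ X (l • em T.W ℂ a * y) =
      rhoAdd C τ σ X (l • em T.W ℂ a) * rhoAdd C τ σ X y) ?_ ?_ ?_ y
    · rw [mul_zero, map_zero, mul_zero]
    · intro y z hy hz; rw [mul_add, map_add, hy, hz, map_add, mul_add]
    · intro m b
      rw [smul_mul_smul_comm, ← em_mul, rhoAdd_tmul, rhoAdd_tmul, rhoAdd_tmul,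
        smul_mul_smul_comm, map_mul, map_mul]

lemma rho_em_one : em T.W ℂ (1 : T.W.H X) = 1 := rfl

/-- The ring homomorphism. -/
noncomputable def rho (X : 𝒱.Obj) : (CW T).H X →+* (CW T').H X :=
  { rhoAdd C τ σ X with
    map_one' := by
      change rhoAdd C τ σ X 1 = 1
      rw [← rho_em_one, rhoAdd_em, map_one]
    map_mul' := rhoAdd_mul C τ σ }

lemma rho_em (v : T.W.H X) : rho C τ σ X (em T.W ℂ v) = (rlz C τ).E X v :=
  rhoAdd_em C τ σ v

lemma rho_semi (l : (CW T).K) (x : (CW T).H X) :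
    rho C τ σ X (l • x) = sg T T' σ l • rho C τ σ X x := by
  refine em_ind (p := fun x => rho C τ σ X (l • x) = sg T T' σ l • rho C τ σ X x) ?_ ?_ ?_ x
  · rw [smul_zero, map_zero, smul_zero]
  · intro x y hx hy; rw [smul_add, map_add, hx, hy, map_add, smul_add]
  · intro m a
    rw [smul_smul]
    change rhoAdd C τ σ X ((l * m) • em T.W ℂ a) = sg T T' σ l • rhoAdd C τ σ X (m • em T.W ℂ a)
    rw [rhoAdd_tmul, rhoAdd_tmul, smul_smul, map_mul]

lemma rho_gr {i : ℕ} {x : (CW T).H X} (hx : x ∈ (CW T).gr X i) :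
    rho C τ σ X x ∈ (CW T').gr X i := by
  have hx' : x ∈ (T.W.gr X i).baseChange ℂ := hx
  refine base_induction (P := fun x : ℂ ⊗[T.W.K] T.W.H X =>
    rho C τ σ X (show (CW T).H X from x) ∈ (CW T').gr X i) ?_ ?_ ?_ hx'
  · exact (map_zero (rho C τ σ X)).symm ▸ Submodule.zero_mem _
  · intro x y hx hy
    exact (map_add (rho C τ σ X) x y).symm ▸ Submodule.add_mem _ hx hy
  · intro l a ha
    rw [tmul_eq, rho_semi, rho_em]
    exact Submodule.smul_mem _ _ ((rlz C τ).gr ha)

lemma rho_map (f : X ⟶ Y) (x : (CW T).H Y) :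
    rho C τ σ X ((CW T).map f x) = (CW T').map f (rho C τ σ Y x) := by
  refine em_ind (p := fun x => rho C τ σ X ((CW T).map f x) =
    (CW T').map f (rho C τ σ Y x)) ?_ ?_ ?_ x
  · simp only [map_zero]
  · intro x y hx hy; simp only [map_add, hx, hy]
  · intro l a
    rw [map_smul, em_map, rho_semi, rho_em, rho_semi, rho_em, map_smul, (rlz C τ).nat]

lemma rho_cyc {j : ℕ} {z : X.Cycles} (hz : X.IsCyc j z) :
    rho C τ σ X ((CW T).cl X z) = (rlz C τ).c ^ j • (CW T').cl X z := by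
  rw [em_cl, rho_em, rlz_apply, ← em_cl, C.cyc hz, psi_smul, em_cl, psi_em, em_cl, map_pow]
  rfl

lemma rho_tr (x : (CW T).H X) :
    (CW T').tr X (rho C τ σ X x) = (rlz C τ).c ^ X.dim * sg T T' σ ((CW T).tr X x) := by
  refine em_ind (p := fun x => (CW T').tr X (rho C τ σ X x) =
    (rlz C τ).c ^ X.dim * sg T T' σ ((CW T).tr X x)) ?_ ?_ ?_ x
  · simp only [map_zero, mul_zero]
  · intro x y hx hy; simp only [map_add, hx, hy, mul_add]
  · intro l a
    have h1 : (CW T').tr X ((rlz C τ).E X a) =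
        (rlz C τ).c ^ X.dim * (rlz C τ).s (T.W.tr X a) := by
      rw [rlz_apply, psi_tr, C.tr, map_mul, map_pow, em_tr]
      rfl
    rw [rho_semi, rho_em, map_smul, map_smul, h1, em_tr, smul_eq_mul, smul_eq_mul, map_mul,
      sg_ex C τ σ]
    ring

lemma rho_inj : Function.Injective (rho C τ σ X) := by
  rw [injective_iff_map_eq_zero]
  intro x hx
  apply (CW T).nondeg
  intro y
  have h1 := rho_tr C τ σ (x * y)
  rw [map_mul, hx, zero_mul, map_zero] at h1
  have h2 := mul_eq_zero.1 h1.symm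
  rcases h2 with h2 | h2
  · exact absurd h2 (pow_ne_zero _ (rlz C τ).ne)
  · exact (map_eq_zero_iff _ (sg T T' σ).injective).1 h2

lemma rho_surj : Function.Surjective (rho C τ σ X) := by
  have h1 : ∀ u : (baseW T.W L).H X, ∃ x, rho C τ σ X x =
      psi T'.W (ratAlg T' τ) X (C.e X u) := by
    intro u
    refine tmul_ind (p := fun u => ∃ x, rho C τ σ X x =
      psi T'.W (ratAlg T' τ) X (C.e X u)) ?_ ?_ ?_ u
    · exact ⟨0, by simp only [map_zero]⟩
    · rintro u v ⟨x, hx⟩ ⟨y, hy⟩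
      exact ⟨x + y, by simp only [map_add, hx, hy]⟩
    · intro l a
      refine ⟨(sg T T' σ).symm (kap T'.W (ratAlg T' τ) (C.s l)) • em T.W ℂ a, ?_⟩
      rw [rho_semi, RingEquiv.apply_symm_apply, rho_em, rlz_apply, tmul_eq, C.semi, psi_smul]
  intro y
  refine em_ind (p := fun y => ∃ x, rho C τ σ X x = y) ?_ ?_ ?_ y
  · exact ⟨0, map_zero _⟩
  · rintro u v ⟨x, hx⟩ ⟨y, hy⟩
    exact ⟨x + y, by rw [map_add, hx, hy]⟩
  · intro l a
    obtain ⟨x, hx⟩ := h1 ((C.e X).symm (em T'.W L a))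
    rw [RingEquiv.apply_symm_apply, psi_em] at hx
    refine ⟨(sg T T' σ).symm l • x, ?_⟩
    rw [rho_semi, RingEquiv.apply_symm_apply, hx]

lemma rho_proj (i : ℕ) (x : (CW T).H X) :
    rho C τ σ X (H914.proj ((CW T).isInternal X) i x) =
      H914.proj ((CW T').isInternal X) i (rho C τ σ X x) := by
  refine gr_induction ((CW T).isInternal X) (p := fun x =>
    rho C τ σ X (H914.proj ((CW T).isInternal X) i x) =
      H914.proj ((CW T').isInternal X) i (rho C τ σ X x)) ?_ ?_ x
  · intro j x hx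
    by_cases hij : j = i
    · subst hij
      rw [proj_same _ hx, proj_same _ (rho_gr C τ σ hx)]
    · rw [proj_ne _ hx hij, proj_ne _ (rho_gr C τ σ hx) hij, map_zero]
  · intro x y hx hy
    rw [map_add, map_add, hx, hy, map_add, map_add]

lemma rho_gr_iff {i : ℕ} {x : (CW T).H X} :
    rho C τ σ X x ∈ (CW T').gr X i ↔ x ∈ (CW T).gr X i := by
  refine ⟨fun h => ?_, rho_gr C τ σ⟩
  have h1 := rho_proj C τ σ i x
  rw [proj_same _ h] at h1
  rw [← rho_inj C τ σ h1]
  exact proj_mem _ _ _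

/-- The comparison isomorphism with complex coefficients. -/
noncomputable def rhoC : Comparison (CW T) (CW T') where
  s := sg T T' σ
  c := (rlz C τ).c
  ne := (rlz C τ).ne
  e X := RingEquiv.ofBijective (rho C τ σ X) ⟨rho_inj C τ σ, rho_surj C τ σ⟩
  semi X l a := rho_semi C τ σ l a
  gr := rho_gr_iff C τ σ
  nat f b := rho_map C τ σ f b
  cyc hz := rho_cyc C τ σ hz
  tr X a := rho_tr C τ σ a

theorem rho_main (T T' : HodgeTheory ops) : S_RHO T T' := by
  intro L _ _ _ C τ σ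
  exact ⟨rhoC C τ σ, rfl, rfl, fun X v => rho_em C τ σ v⟩

end Pool.Agent.Helper7K9.FP
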