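import Pool.Agent.Helper7K9.FP.Tor
import Pool.Agent.Helper7K9.FP.Nil
import Pool.Agent.Helper7K9.FP.Rho
import Pool.Agent.Helper7K9.FP.Prj
import Pool.Agent.Helper7K9.FP.Dop
import Pool.Agent.Helper7K9.FP.Out
import Pool.Agent.Y121.AH.Alg3

/-!
# The fourth power theorem: conversion
-/

open CategoryTheory AlgebraicGeometry TensorProduct

universe u

namespace Pool.Agent.Helper7K9.FP

open Module
open Pool.Agent.H914 Pool.Agent.H914.VarClass Pool.Agent.H914.VarClass.Obj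
  Pool.Agent.H914.WeilCohomology
open Pool.Agent.Y133.Half
open Pool.Agent.Y121

variable {k : Type u} [Field k] {𝒱 : VarClass k} {ops : CycleOps 𝒱}

section Span

variable {T T' : AH.HodgeTheory ops} {L : Type} [Field L] [Algebra T'.W.K L] {X : 𝒱.Obj}

/-- The elements of the span of the Hodge classes are sums of multiples of Hodge classes. -/
lemma mem_sums {j : ℕ} {w : (baseW T'.W L).H X}
    (hw : w ∈ Submodule.span (baseW T'.W L).K
      {x | ∃ c', AH.IsHodge T' X j c' ∧ AH.em T'.W L c' = x}) :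
    w ∈ AH.hodgeSums T' L Set.univ X j := by
  have key : ∀ r : (baseW T'.W L).K, r • w ∈ AH.hodgeSums T' L Set.univ X j := by
    induction hw using Submodule.span_induction with
    | mem x hx =>
      obtain ⟨c, hc, rfl⟩ := hx
      exact fun r => AddSubmonoid.subset_closure ⟨r, trivial, c, hc, rfl⟩
    | zero => intro r; rw [smul_zero]; exact AddSubmonoid.zero_mem _
    | add x y _ _ hx hy => intro r; rw [smul_add]; exact AddSubmonoid.add_mem _ (hx r) (hy r)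
    | smul s x _ hx => intro r; rw [smul_smul]; exact hx _
  have h := key 1
  rwa [one_smul] at h

end Span

section Main

variable {T T' : AH.HodgeTheory ops} {X : 𝒱.Obj}

/-- Images of absolutely Hodge classes under the extended comparison isomorphism. -/
lemma rho_abs {L : Type} [Field L] [Algebra T.W.K L] [Algebra T'.W.K L]
    (C : AH.Comparison (baseW T.W L) (baseW T'.W L)) (τ : L →+* ℂ)
    {R : AH.Comparison (AH.CW T) (AH.CW T')}
    (hRc : R.c = AH.kap T'.W (AH.ratAlg T' τ) C.c)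
    (hRe : ∀ (X : 𝒱.Obj) (v : T.W.H X),
      R.e X (AH.em T.W ℂ v) = AH.psi T'.W (AH.ratAlg T' τ) X (C.e X (AH.em T.W L v)))
    {Z : 𝒱.Obj} {j : ℕ} {c : T.W.H Z} {c' : T'.W.H Z} (h : AH.nrm C Z j c = AH.em T'.W L c') :
    R.e Z (AH.em T.W ℂ c) = R.c ^ j • AH.em T'.W ℂ c' := by
  rw [hRe, (AH.nrm_eq_iff C).1 h, AH.psi_smul, AH.psi_em, hRc, map_pow]

/-- The class is in the span if all conjugates of its realisation are killed by `p - q`. -/
lemma span_of_kill {L : Type} [Field L] [Algebra T.W.K L] [Algebra T'.W.K L]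
    (C : AH.Comparison (baseW T.W L) (baseW T'.W L)) (τ : L →+* ℂ)
    {Z : 𝒱.Obj} {j : ℕ} {b : T.W.H Z} (hb : b ∈ T.W.gr Z (2 * j))
    (h : ∀ (g : ℂ ≃+* ℂ) (R : AH.Comparison (AH.CW T) (AH.CW T')),
      R.c = AH.kap T'.W (AH.ratAlg T' (g.toRingHom.comp τ)) C.c →
      (∀ (X : 𝒱.Obj) (v : T.W.H X), R.e X (AH.em T.W ℂ v) =
        AH.psi T'.W (AH.ratAlg T' (g.toRingHom.comp τ)) X (C.e X (AH.em T.W L v))) →
      dop T' Z (R.e Z (AH.em T.W ℂ b)) = 0) :
    AH.nrm C Z j b ∈ Submodule.span (baseW T'.W L).K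
      {x | ∃ c', AH.IsHodge T' Z j c' ∧ AH.em T'.W L c' = x} := by
  refine AH.mem_span_hodge τ fun g => ?_
  obtain ⟨R, -, hRc, hRe⟩ := rho_main T T' L C (g.toRingHom.comp τ) (RingEquiv.refl ℂ)
  have h1 := h g R hRc hRe
  have h2 : R.e Z (AH.em T.W ℂ b) ∈ (AH.CW T').gr Z (2 * j) := R.gr.2 (AH.em_gr hb)
  have h3 : R.e Z (AH.em T.W ℂ b) ∈ T'.pq Z j j := pq_of_dop h2 h1
  rw [hRe] at h3
  rw [AH.nrm, AH.psi_smul]
  exact Submodule.smul_mem _ _ h3

end Main

section Full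

open Pool.Agent.Y121.AHS Pool.Agent.Y121.AHS.Full

variable {T : AHS.HodgeTheory ops} {D : AHS.Full.Conjugates T} {X : 𝒱.Obj}

/-- The extension of the coefficients is unique. -/
lemma ext_aux (T : AH.HodgeTheory ops) {L : Type} [Field L] [Algebra T.W.K L] (τ : L →+* ℂ)
    {X : 𝒱.Obj} (Θ : (baseW T.W L).H X →+ (AH.CW T).H X)
    (h : ∀ (l : L) (c : T.W.H X), Θ ((show (baseW T.W L).K from l) • AH.em T.W L c) =
      (show (AH.CW T).K from τ l) • AH.em T.W ℂ c) (x : (baseW T.W L).H X) :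
    Θ x = AH.psi T.W (AH.ratAlg T τ) X x := by
  refine AH.tmul_ind (p := fun x => Θ x = AH.psi T.W (AH.ratAlg T τ) X x) ?_ ?_ ?_ x
  · rw [map_zero, map_zero]
  · intro x y hx hy; rw [map_add, map_add, hx, hy]
  · intro l a
    rw [AH.tmul_eq, AH.psi_smul, AH.psi_em]
    exact h l a

/-- The comparison isomorphism extended along an isomorphism of the coefficients. -/
lemma rho_key (T T' : AH.HodgeTheory ops) {L : Type} [Field L] [Algebra T.W.K L]
    [Algebra T'.W.K L] (C : AH.Comparison (baseW T.W L) (baseW T'.W L)) (τ : L ≃+* ℂ) :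
    ∃ (R : AH.Comparison (AH.CW T) (AH.CW T')),
      R.c = AH.kap T'.W (AH.ratAlg T' τ.toRingHom) C.c ∧
      (∀ (X : 𝒱.Obj) (v : T.W.H X), R.e X (AH.em T.W ℂ v) =
        AH.psi T'.W (AH.ratAlg T' τ.toRingHom) X (C.e X (AH.em T.W L v))) ∧
      ∀ (X : 𝒱.Obj) (u : (baseW T.W L).H X), R.e X (AH.psi T.W
        (AH.ratAlg T τ.toRingHom) X u) = AH.psi T'.W
          (AH.ratAlg T' τ.toRingHom) X (C.e X u) := by
  let σ : L ≃+* L := C.s
  obtain ⟨R, hRs, hRc, hRe⟩ := rho_main T T' L C τ.toRingHom ((τ.symm.trans σ).trans τ)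
  refine ⟨R, hRc, hRe, fun X u => ?_⟩
  have hs : ∀ l : L, R.s (AH.kap T.W (AH.ratAlg T τ.toRingHom) l) =
      AH.kap T'.W (AH.ratAlg T' τ.toRingHom) (C.s l) := by
    intro l
    rw [hRs]
    change τ (C.s (τ.symm (τ l))) = τ (C.s l)
    rw [RingEquiv.symm_apply_apply]
  refine AH.tmul_ind (p := fun u => R.e X (AH.psi T.W
    (AH.ratAlg T τ.toRingHom) X u) = AH.psi T'.W
      (AH.ratAlg T' τ.toRingHom) X (C.e X u)) ?_ ?_ ?_ u
  · rw [map_zero, map_zero, map_zero, map_zero]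
  · intro x y hx hy; rw [map_add, map_add, map_add, map_add, hx, hy]
  · intro l a
    rw [AH.tmul_eq, AH.psi_smul, AH.psi_em, R.semi, hRe, C.semi, AH.psi_smul]
    exact congrArg (fun c => c • _) (hs l)

lemma psi_surj (T : AH.HodgeTheory ops) {L : Type} [Field L] [Algebra T.W.K L] (τ : L ≃+* ℂ)
    (X : 𝒱.Obj) (x : (AH.CW T).H X) : ∃ u : (baseW T.W L).H X, AH.psi T.W
      (AH.ratAlg T τ.toRingHom) X u = x := by
  refine AH.tmul_ind (p := fun x => ∃ u : (baseW T.W L).H X, AH.psi T.W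
    (AH.ratAlg T τ.toRingHom) X u = x) ?_ ?_ ?_ x
  · exact ⟨0, map_zero _⟩
  · rintro x y ⟨u, rfl⟩ ⟨v, rfl⟩; exact ⟨u + v, map_add _ _ _⟩
  · intro l a
    refine ⟨(show (baseW T.W L).H X from (τ.symm l ⊗ₜ[T.W.K] a)), ?_⟩
    rw [AH.psi_tmul]
    have h1 : (AH.ratAlg T τ.toRingHom) (τ.symm l) = l := τ.apply_symm_apply l
    rw [h1]

/-- The comparison isomorphism which respects the filtrations, over the complex numbers. -/
lemma rho_fil {T' : AHS.HodgeTheory ops} {L : Type} [Field L] [Algebra T.W.K L]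
    [Algebra T'.W.K L] {C : AHS.Comparison T.W T'.W L} (h : RespFil C) :
    ∃ (τ : L →+* ℂ) (R : AH.Comparison (AH.CW (toH T)) (AH.CW (toH T'))),
      R.c = AH.kap (toH T').W (AH.ratAlg (toH T') τ) (toC C).c ∧
      (∀ (X : 𝒱.Obj) (v : (toH T).W.H X), R.e X (AH.em (toH T).W ℂ v) =
        AH.psi (toH T').W (AH.ratAlg (toH T') τ) X ((toC C).e X (AH.em (toH T).W L v))) ∧
      ∀ (X : 𝒱.Obj) (p : ℤ) (x : (AH.CW (toH T)).H X), x ∈ fil (toH T) X p ↔
        R.e X x ∈ fil (toH T') X p := by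
  obtain ⟨τ, θ, θ', hθ, hθ', hf⟩ := h
  obtain ⟨R, hRc, hRe, key⟩ := rho_key (toH T) (toH T') (toC C) τ
  refine ⟨τ.toRingHom, R, hRc, hRe, fun X p x => ?_⟩
  obtain ⟨u, rfl⟩ := psi_surj (toH T) τ X x
  have e1 := ext_aux (toH T) τ.toRingHom (X := X)
    (AddMonoidHom.mk' (θ X) fun x y => hθ.1 X x y) (fun l c => hθ.2 X l c) u
  have e2 := ext_aux (toH T') τ.toRingHom (X := X)
    (AddMonoidHom.mk' (θ' X) fun x y => hθ'.1 X x y) (fun l c => hθ'.2 X l c) ((toC C).e X u)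
  rw [key]
  have h1 : AH.psi (toH T).W (AH.ratAlg (toH T) τ.toRingHom) X u ∈ fil (toH T) X p ↔
      InFil T p (θ X u) := by rw [← e1]; exact Iff.rfl
  have h2 : AH.psi (toH T').W (AH.ratAlg (toH T') τ.toRingHom) X ((toC C).e X u) ∈
      fil (toH T') X p ↔ InFil T' p (θ' X (C.e X u)) := by
    constructor
    · exact fun h => cast (congrArg (fun y => y ∈ fil (toH T') X p) e2.symm) h
    · exact fun h => cast (congrArg (fun y => y ∈ fil (toH T') X p) e2) h
  exact h1.trans ((hf X p u).trans h2.symm)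

/-- The Hodge classes on the power of `X`. -/
lemma hyp_conv
    (h4 : ∀ c, AHS.IsHodge T (pw X 3) (2 * X.dim) c → AHS.Full.IsAbsHodge D (pw X 3) (2 * X.dim) c) :
    ∀ c, AH.IsHodge (toH T) ((X.prod X).prod (X.prod X)) (2 * X.dim) c →
      AH.IsAbsHodge (AHS.Full.toD D) ((X.prod X).prod (X.prod X)) (2 * X.dim) c := by
  intro c hc
  let θ : (X.prod X).prod (X.prod X) ≅ pw X 3 := pwAdd X 1 1
  have h1 : AH.IsHodge (toH T) (pw X 3) (2 * X.dim) ((toH T).W.map θ.inv c) := hc.map θ.inv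
  have h2 := (AHS.Full.isAbsHodge_iff (D := D)).2 (h4 _ h1)
  have h3 := (AH.absPred (AHS.Full.toD D)).map θ.hom h2
  rw [map_hom_inv] at h3
  exact h3

/-- **The fourth power theorem.** -/
theorem fourth (hM : S_MID (toH T))
    (h4 : ∀ c, AHS.IsHodge T (pw X 3) (2 * X.dim) c → AHS.Full.IsAbsHodge D (pw X 3) (2 * X.dim) c)
    (i : D.ι) (a₀ : D.J i) (h0 : RespFil (D.cmp i a₀)) (a : D.J i) (n j : ℕ)
    (c : T.W.H (pw X n)) (hc : AHS.IsHodge T (pw X n) j c) :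
    ∃ w ∈ AHS.hodgeSums (D.T' i) (D.L i a) Set.univ (pw X n) j, (D.cmp i a).Maps j c w := by
  obtain ⟨τ₀, R₀, hR₀c, hR₀e, hfil⟩ := rho_fil h0
  obtain ⟨τ⟩ := D.emb i a
  have h1 : AH.nrm (cmpH D i a) (pw X n) j c ∈ Submodule.span (baseW (toH (D.T' i)).W (D.L i a)).K
      {x | ∃ c', AH.IsHodge (toH (D.T' i)) (pw X n) j c' ∧
        AH.em (toH (D.T' i)).W (D.L i a) c' = x} := by
    refine span_of_kill (T := toH T) (T' := toH (D.T' i)) (cmpH D i a) τ hc.1
      fun g R hRc hRe => ?_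
    refine anti_conj (T := toH T) (T' := toH (D.T' i)) (X := X) (D := AHS.Full.toD D) hM
      (dop_main _) (dop_main _) (nil_main _ _) (hyp_conv h4) (R₀ := R₀) (R := R) ?_ hfil hc
    intro Z l z hz
    obtain ⟨z', hz', hzz⟩ := abs_of i Z l z hz
    refine ⟨z', hz', rho_abs (T := toH T) (T' := toH (D.T' i)) (cmpH D i a₀) τ₀ hR₀c hR₀e (hzz a₀),
      rho_abs (T := toH T) (T' := toH (D.T' i)) (cmpH D i a) _ hRc hRe (hzz a)⟩
  refine ⟨_, mem_hodgeSums (mem_sums h1), ?_⟩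
  exact (AH.nrm_eq_iff (cmpH D i a)).1 rfl

end Full

end Pool.Agent.Helper7K9.FP
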