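import Pool.Agent.Y121.AHS.Law

/-!
# Central derivations: definitions
-/

open CategoryTheory AlgebraicGeometry

universe u

namespace Pool.Agent.Helper7K9.FP

open Pool.Agent.H914 Pool.Agent.H914.VarClass Pool.Agent.H914.VarClass.Obj
  Pool.Agent.H914.WeilCohomology
open Pool.Agent.Y121.AHS
open Pool.Agent.Y133.Half (pw)

variable {k : Type u} [Field k] {𝒱 : VarClass k} {ops : CycleOps 𝒱}

section Op

/-- Maps from the cohomology of `X` with complex coefficients to itself. -/
abbrev Op (T : HodgeTheory ops) (X : 𝒱.Obj) : Type := HL T.W ℂ X → HL T.W ℂ X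

variable {T : HodgeTheory ops} {X : 𝒱.Obj}

/-- The action `a ↦ pr₂_* (z · pr₁^* a)` of the class `z` on `X × X`. -/
noncomputable def act (z : T.W.H (X.prod X)) : Op T X := fun a =>
  pushL (snd X X) (mulL (emL T.W ℂ z) (mapL (fst X X) a))

/-- The map is skew for the Poincaré duality. -/
def IsSkew (y : Op T X) : Prop := ∀ a b, trL (mulL (y a) b + mulL a (y b)) = 0

/-- The map is a derivation of the cohomology ring. -/
def IsLeib (y : Op T X) : Prop := ∀ a b, y (mulL a b) = mulL (y a) b + mulL a (y b)

/-- The map is linear. -/
def IsLin (y : Op T X) : Prop := (∀ a b, y (a + b) = y a + y b) ∧ ∀ l a, y (smL l a) = smL l (y a)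

/-- The map `y` on the cohomology of the power `X ^ (n + 1)` is a linear derivation which extends
the map `z` on the cohomology of `X` (for the projections to the factors and all other morphisms from
the power to `X`). -/
def Extends {n : ℕ} (z : Op T X) (y : Op T (pw X n)) : Prop :=
  IsLeib y ∧ IsLin y ∧ ∀ (f : pw X n ⟶ X) a, y (mapL f a) = mapL f (z a)

/-- The Hodge class `z` of middle degree on `X × X` acts on the cohomology of `X` as a skew
derivation which commutes with the action of all Hodge classes of middle degree on `X × X`. -/
def IsCentral (z : T.W.H (X.prod X)) : Prop :=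
  IsHodge T (X.prod X) X.dim z ∧ IsSkew (act z) ∧ IsLeib (act z) ∧
    ∀ z', IsHodge T (X.prod X) X.dim z' → ∀ a, act z (act z' a) = act z' (act z a)

/-- The class `b` on the power `X ^ (n + 1)` is killed by the derivations of the cohomology of the
power which extend the action of the central classes on the cohomology of the factors. -/
def IsKilled {n : ℕ} (b : T.W.H (pw X n)) : Prop :=
  ∀ z, IsCentral z → z ≠ 0 → ∀ y, Extends (act z) y → y (emL T.W ℂ b) = 0

end Op

/-- The comparison isomorphism maps the class `b` of degree `2 j` (corrected by the effect on the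
Tate twist) to a linear combination with coefficients in `F` of Hodge classes of degree `2 j`. -/
def Preserved {T T' : HodgeTheory ops} {L : Type} [Field L] [Algebra T.W.K L] [Algebra T'.W.K L]
    (C : Comparison T.W T'.W L) (F : Set L) {X : 𝒱.Obj} (j : ℕ) (b : T.W.H X) : Prop :=
  ∃ w ∈ hodgeSums T' L F X j, C.Maps j b w

end Pool.Agent.Helper7K9.FP
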