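import Pool.Agent.Helper7K9.FP.Kil
import Pool.Agent.Helper7K9.FP.Fin
import Pool.Agent.Helper7K9.FP.Drv
import Pool.Agent.Helper7K9.FP.Fgf
import Pool.Agent.Helper7K9.FP.Coe
import Pool.Agent.Helper7K9.FP.Algd
import Pool.Agent.Helper7K9.FP.Out2

/-!
# Hodge classes which are preserved over a number field
-/

open CategoryTheory AlgebraicGeometry TensorProduct

universe u

namespace Pool.Agent.Helper7K9.FP

open Module
open Pool.Agent.H914 Pool.Agent.H914.VarClass Pool.Agent.H914.VarClass.Obj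
  Pool.Agent.H914.WeilCohomology
open Pool.Agent.Y133.Half
open Pool.Agent.Y121

variable {k : Type u} [Field k] {𝒱 : VarClass k} {ops : CycleOps 𝒱}

section AH

open Pool.Agent.Y121.AH

lemma nondeg_em {W : WeilCohomology.{u, 0} ops} {L : Type} [Field L] [Algebra W.K L] {Z : 𝒱.Obj}
    {w : (baseW W L).H Z} (h : ∀ y : W.H Z, (baseW W L).tr Z (w * em W L y) = 0) : w = 0 := by
  apply (baseW W L).nondeg
  intro b
  refine tmul_ind (p := fun b => (baseW W L).tr Z (w * b) = 0) ?_ ?_ ?_ b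
  · rw [mul_zero, map_zero]
  · intro x y hx hy; rw [mul_add, map_add, hx, hy, add_zero]
  · intro l a
    rw [tmul_eq, mul_smul_comm, map_smul, h, smul_zero]

variable {T T' : HodgeTheory ops} {X : 𝒱.Obj} {D : Conjugates T}

/-- Conjugates of the operator `p - q`. -/
lemma dop_conj (hM : S_MID T)
    (hH : ∀ c, IsHodge T ((X.prod X).prod (X.prod X)) (2 * X.dim) c →
      IsAbsHodge D ((X.prod X).prod (X.prod X)) (2 * X.dim) c)
    {R : Comparison (CW T) (CW T')}
    (hR : ∀ (Z : 𝒱.Obj) (j : ℕ) (c : T.W.H Z), IsAbsHodge D Z j c → ∃ c', IsHodge T' Z j c' ∧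
      R.e Z (em T.W ℂ c) = R.c ^ j • em T'.W ℂ c')
    {n j : ℕ} {b : T.W.H (pw X n)} (hb : IsHodge T (pw X n) j b)
    (hb' : ∀ z, Ctr T X z → Anti (absSys D) X (T.W.corr z) → del T.W (T.W.corr z) n b = 0) :
    dop T' (pw X n) (R.e _ (em T.W ℂ b)) = 0 := by
  have hD : S_DOP T := dop_main T
  have hD' : S_DOP T' := dop_main T'
  have h1 := kill_of (L := ℂ) hM hD hH (isDer_cj R hD'.1) (fun Z c hc => ?_) hb hb'
  · have h3 := congrArg (R.e (pw X n)) h1
    rw [e_cj, map_zero] at h3
    exact h3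
  · refine ClassPred.sp_ind (Q := absPred D)
      (q := fun c => cj R (dop T' Z) (em T.W ℂ c) = 0) ?_ ?_ ?_ hc
    · intro j c hc
      obtain ⟨c', hc', h1⟩ := hR Z j c hc
      apply e_inj R
      rw [e_cj, h1, map_smul, (hD'.2.2.1 _ _).1 (ClassPred.sp_of (Q := hodgePred T') hc'),
        smul_zero, map_zero]
    · rw [em_zero, map_zero]
    · intro a b ha hb; rw [em_add, map_add, ha, hb, add_zero]

variable {L : Type} [Field L] [Algebra T.W.K L] [Algebra T'.W.K L]

/-- The derivations of the coefficients kill the coordinates. -/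
lemma drv_kill (hM : S_MID T)
    (hH : ∀ c, IsHodge T ((X.prod X).prod (X.prod X)) (2 * X.dim) c →
      IsAbsHodge D ((X.prod X).prod (X.prod X)) (2 * X.dim) c)
    {C : Comparison (baseW T.W L) (baseW T'.W L)}
    (hC : ∀ (Z : 𝒱.Obj) (j : ℕ) (c : T.W.H Z), IsAbsHodge D Z j c → ∃ c', IsHodge T' Z j c' ∧
      nrm C Z j c = em T'.W L c') (δ : Derivation T'.W.K L L)
    {n j : ℕ} {b : T.W.H (pw X n)} (hb : IsHodge T (pw X n) j b)
    (hb' : ∀ z, Ctr T X z → Anti (absSys D) X (T.W.corr z) → del T.W (T.W.corr z) n b = 0) (y : T'.W.H (pw X n)) :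
    δ (show L from (baseW T'.W L).tr _ (nrm C _ j b * em T'.W L y)) = 0 := by
  obtain ⟨x, hx, hxe⟩ := drv_main T T' L C δ
  have hcp : ∀ j, (show L from C.c) ^ j ≠ 0 := fun j => cpow C j
  have h1 := kill_of hM (dop_main T) hH hx (fun Z c hc => ?_) hb hb'
  · have h2 := hxe (pw X n) j b hb.1 y
    rw [h1, map_zero, zero_mul, map_zero] at h2
    have h3 : (show L from C.c) ^ j *
        δ (show L from (baseW T'.W L).tr _ (nrm C _ j b * em T'.W L y)) = 0 := h2.symm
    exact (mul_eq_zero.1 h3).resolve_left (hcp j)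
  · refine ClassPred.sp_ind (Q := absPred D) (q := fun c => x Z (em T.W L c) = 0) ?_ ?_ ?_ hc
    · intro j c hc
      obtain ⟨c', hc', h1⟩ := hC Z j c hc
      apply e_inj C
      rw [map_zero]
      apply nondeg_em
      intro y
      rw [hxe Z j c hc.1.1 y, h1]
      have h3 : δ (show L from (baseW T'.W L).tr Z (em T'.W L c' * em T'.W L y)) = 0 := by
        rw [← em_mul, em_tr]
        exact δ.map_algebraMap _
      have h4 : (show L from C.c) ^ j *
          δ (show L from (baseW T'.W L).tr Z (em T'.W L c' * em T'.W L y)) = 0 := by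
        rw [h3, mul_zero]
      exact h4
    · rw [em_zero, map_zero]
    · intro a b ha hb; rw [em_add, map_add, ha, hb, add_zero]

/-- **The Hodge classes are preserved over a number field.** -/
theorem num_main (hM : S_MID T)
    (hH : ∀ c, IsHodge T ((X.prod X).prod (X.prod X)) (2 * X.dim) c →
      IsAbsHodge D ((X.prod X).prod (X.prod X)) (2 * X.dim) c)
    {C : Comparison (baseW T.W L) (baseW T'.W L)} (τ : L →+* ℂ)
    (hC : ∀ (Z : 𝒱.Obj) (j : ℕ) (c : T.W.H Z), IsAbsHodge D Z j c → ∃ c', IsHodge T' Z j c' ∧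
      nrm C Z j c = em T'.W L c') :
    ∃ F : IntermediateField T'.W.K L, FiniteDimensional T'.W.K F ∧
      ∀ (n j : ℕ) (b : T.W.H (pw X n)), IsHodge T (pw X n) j b →
        (∀ z, Ctr T X z → Anti (absSys D) X (T.W.corr z) → del T.W (T.W.corr z) n b = 0) →
          nrm C (pw X n) j b ∈ hodgeSums T' L (F : Set L) (pw X n) j := by
  obtain ⟨M, hM1, hM2, hM3⟩ := coe_main T T' L C X
  let F : IntermediateField T'.W.K L := algebraicClosure T'.W.K L ⊓ M
  have hFa : Algebra.IsAlgebraic T'.W.K F := by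
    constructor
    intro x
    have h1 : IsAlgebraic T'.W.K (x : L) := mem_algebraicClosure_iff.1 x.2.1
    exact (isAlgebraic_algebraMap_iff (algebraMap F L).injective).1 h1
  refine ⟨F, fgf T'.W.K L F M hM1 inf_le_right hFa, fun n j b hb hb' => ?_⟩
  by_cases hj : j ≤ (pw X n).dim
  · have h1 : nrm C (pw X n) j b ∈ Submodule.span (baseW T'.W L).K
        {x | ∃ c', IsHodge T' (pw X n) j c' ∧ em T'.W L c' = x} := by
      refine span_of_kill C τ hb.1 fun g R hRc hRe => ?_
      refine dop_conj hM hH ?_ hb hb'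
      intro Z l z hz
      obtain ⟨z', hz', hzz⟩ := hC Z l z hz
      exact ⟨z', hz', rho_abs C _ hRc hRe hzz⟩
    obtain ⟨r, h, y, hh, -, hw⟩ := exists_coord T' L (pw X n) hj
    rw [hw _ h1]
    refine sum_mem_hodgeSums _ (fun i => ?_) hh
    refine ⟨?_, ?_⟩
    · refine mem_algebraicClosure_iff.2 ?_
      by_contra hcon
      obtain ⟨δ, hδ⟩ := algd T'.W.K L _ hcon
      exact hδ (drv_kill hM hH hC δ hb hb' (y i))
    · have h2 := hM3 n b (y i)
      have h3 : (baseW T'.W L).tr _ (nrm C _ j b * em T'.W L (y i)) =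
          (C.c ^ j)⁻¹ * (baseW T'.W L).tr _ (C.e _ (em T.W L b) * em T'.W L (y i)) := by
        rw [nrm, smul_mul_assoc, map_smul, smul_eq_mul]
      rw [h3]
      exact M.mul_mem (M.inv_mem (_root_.pow_mem hM2 j)) h2
  · rw [hodge_gt (not_le.1 hj) hb, nrm_zero]
    exact AddSubmonoid.zero_mem _

end AH

section Base

open Pool.Agent.Y121.AH

variable {W : WeilCohomology.{u, 0} ops} {L : Type} [Field L] [Algebra W.K L] {X Y : 𝒱.Obj}

/-- Induction for two classes with extended coefficients. -/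
lemma em_ind₂ {p : (baseW W L).H X → (baseW W L).H Y → Prop} (h0 : ∀ b, p 0 b)
    (h0' : ∀ a, p a 0) (hadd : ∀ a a' b, p a b → p a' b → p (a + a') b)
    (hadd' : ∀ a b b', p a b → p a b' → p a (b + b'))
    (h : ∀ (l m : (baseW W L).K) (a : W.H X) (b : W.H Y), p (l • em W L a) (m • em W L b))
    (a : (baseW W L).H X) (b : (baseW W L).H Y) : p a b := by
  refine tmul_ind (p := fun a => p a b) (h0 b) (fun x y hx hy => hadd _ _ _ hx hy) ?_ a
  intro l a
  rw [tmul_eq]
  refine tmul_ind (p := fun b => p _ b) (h0' _) (fun x y hx hy => hadd' _ _ _ hx hy) ?_ b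
  intro m b
  rw [tmul_eq]
  exact h _ _ a b

variable {y : Module.End W.K (W.H X)} {y' : Module.End (baseW W L).K ((baseW W L).H X)}

lemma Lb.base (hy' : ∀ a, y' (em W L a) = em W L (y a)) (hy : Lb W y) : Lb (baseW W L) y' := by
  intro a b
  refine em_ind₂ (p := fun a b => y' (a * b) = y' a * b + a * y' b) ?_ ?_ ?_ ?_ ?_ a b
  · intro b; rw [zero_mul, map_zero, zero_mul, zero_mul, add_zero]
  · intro b; rw [mul_zero, map_zero, mul_zero, mul_zero, add_zero]
  · intro a a' b ha ha'; rw [add_mul, map_add, ha, ha', map_add, add_mul, add_mul]; abel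
  · intro a a' b ha ha'; rw [mul_add, map_add, ha, ha', map_add, mul_add, mul_add]; abel
  · intro l m a b
    rw [smul_mul_smul_comm, map_smul, ← em_mul, hy', hy, map_smul, map_smul, hy', hy', em_add,
      em_mul, em_mul, smul_mul_smul_comm, smul_mul_smul_comm, smul_add]

lemma Adj.base (hy' : ∀ a, y' (em W L a) = em W L (y a)) (hy : Adj W y (-y)) :
    ∀ a b, (baseW W L).tr X (y' a * b + a * y' b) = 0 := by
  intro a b
  refine em_ind₂ (p := fun a b => (baseW W L).tr X (y' a * b + a * y' b) = 0) ?_ ?_ ?_ ?_ ?_ a b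
  · intro b; rw [map_zero, zero_mul, zero_mul, add_zero, map_zero]
  · intro b; rw [map_zero, mul_zero, mul_zero, add_zero, map_zero]
  · intro a a' b ha ha'
    have h1 : y' (a + a') * b + (a + a') * y' b = (y' a * b + a * y' b) +
        (y' a' * b + a' * y' b) := by rw [map_add, add_mul, add_mul]; abel
    rw [h1, map_add, ha, ha', add_zero]
  · intro a b b' ha ha'
    have h1 : y' a * (b + b') + a * y' (b + b') = (y' a * b + a * y' b) +
        (y' a * b' + a * y' b') := by rw [map_add, mul_add, mul_add]; abel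
    rw [h1, map_add, ha, ha', add_zero]
  · intro l m a b
    rw [map_smul, map_smul, hy', hy', smul_mul_smul_comm, smul_mul_smul_comm, ← smul_add,
      ← em_mul, ← em_mul, ← em_add, map_smul, em_tr, map_add, hy, LinearMap.neg_apply, mul_neg,
      map_neg, neg_add_cancel]
    have h0 : ex W L 0 = 0 := map_zero (algebraMap W.K L)
    rw [h0, smul_zero]

lemma comm_base {z : Module.End W.K (W.H X)} {z' : Module.End (baseW W L).K ((baseW W L).H X)}
    (hy' : ∀ a, y' (em W L a) = em W L (y a)) (hz' : ∀ a, z' (em W L a) = em W L (z a))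
    (h : ∀ a, y (z a) = z (y a)) (a : (baseW W L).H X) : y' (z' a) = z' (y' a) := by
  refine tmul_ind (p := fun a => y' (z' a) = z' (y' a)) ?_ ?_ ?_ a
  · rw [map_zero, map_zero, map_zero]
  · intro a b ha hb; simp only [map_add, ha, hb]
  · intro l a
    rw [tmul_eq, map_smul, map_smul, map_smul, map_smul, hz', hy', hy', hz', h]

lemma del_base (hy' : ∀ a, y' (em W L a) = em W L (y a)) : ∀ (n : ℕ) (b : W.H (pw X n)),
    del (baseW W L) y' n (em W L b) = em W L (del W y n b)
  | 0, b => hy' b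
  | n + 1, b => by
    have ih := del_base hy' n
    have key : ∀ b : W.H ((pw X n).prod X), dd (baseW W L) (del (baseW W L) y' n) y'
        (em W L b) = em W L (dd W (del W y n) y b) := by
      intro b
      refine xp_induction (p := fun b => dd (baseW W L) (del (baseW W L) y' n) y'
        (em W L b) = em W L (dd W (del W y n) y b)) ?_ ?_ b
      · intro a b ha hb; rw [em_add, map_add, ha, hb, map_add, em_add]
      · intro i j a _ b _
        rw [em_xp, dd_xp, dd_xp, em_add, em_xp, em_xp, ih, hy']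
    exact key b

lemma map_base (hy' : ∀ a, y' (em W L a) = em W L (y a)) {n : ℕ} {f : pw X n ⟶ X}
    (h : ∀ a, del W y n (W.map f a) = W.map f (y a)) (a : (baseW W L).H X) :
    del (baseW W L) y' n ((baseW W L).map f a) = (baseW W L).map f (y' a) := by
  refine tmul_ind (p := fun a => del (baseW W L) y' n ((baseW W L).map f a) =
    (baseW W L).map f (y' a)) ?_ ?_ ?_ a
  · rw [map_zero, map_zero, map_zero, map_zero]
  · intro a b ha hb; simp only [map_add, ha, hb]
  · intro l a
    rw [tmul_eq, map_smul, map_smul, map_smul, map_smul, em_map, del_base hy', h, hy', em_map]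

end Base

section Gen

variable {W : WeilCohomology.{u, 0} ops} {X : 𝒱.Obj}

lemma del_corr_zero {z : W.H (X.prod X)} (h : z = 0) (n : ℕ) (b : W.H (pw X n)) :
    del W (W.corr z) n b = 0 := by
  rw [h, corr_zero, del_zero_op]
  rfl

end Gen

section Full

open Pool.Agent.Y121.AHS Pool.Agent.Y121.AHS.Full

variable {T : AHS.HodgeTheory ops} {D : AHS.Full.Conjugates T} {X : 𝒱.Obj}

lemma central_of {z : T.W.H (X.prod X)} (hz : Ctr (toH T) X z) : IsCentral z := by
  have h1 : ∀ (z : (toH T).W.H (X.prod X)) a, (AH.CW (toH T)).corr (AH.em (toH T).W ℂ z)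
      (AH.em (toH T).W ℂ a) = AH.em (toH T).W ℂ ((toH T).W.corr z a) := fun z a =>
    AH.em_corr z a
  refine ⟨hz.hodge, Adj.base (h1 z) hz.skew, Lb.base (h1 z) hz.leib, fun z' hz' => ?_⟩
  exact comm_base (h1 z) (h1 z') (hz.comm z' hz')

lemma killed_of {z : T.W.H (X.prod X)} (hz : Ctr (toH T) X z)
    (hz' : Anti (AH.absSys (AHS.Full.toD D)) X ((toH T).W.corr z)) {n : ℕ} {b : T.W.H (pw X n)}
    (h : ∀ y : Op T (pw X n), Extends (act z) y → y (emL T.W ℂ b) = 0) :
    del (toH T).W ((toH T).W.corr z) n b = 0 := by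
  have h1 : ∀ a, (AH.CW (toH T)).corr (AH.em (toH T).W ℂ z)
      (AH.em (toH T).W ℂ a) = AH.em (toH T).W ℂ ((toH T).W.corr z a) := fun a =>
    AH.em_corr z a
  have h2 : Lb (AH.CW (toH T)) ((AH.CW (toH T)).corr (AH.em (toH T).W ℂ z)) :=
    Lb.base h1 hz.leib
  have h3 : Ev (AH.CW (toH T)) ((AH.CW (toH T)).corr (AH.em (toH T).W ℂ z)) :=
    Ev.corr (PH.of' (by omega) (AH.em_gr hz.hodge.1))
  have h6 : ∀ (l : (AH.CW (toH T)).K) (a : (AH.CW (toH T)).H (pw X n)),
      del (AH.CW (toH T)) ((AH.CW (toH T)).corr (AH.em (toH T).W ℂ z)) n (l • a) =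
        l • del (AH.CW (toH T)) ((AH.CW (toH T)).corr (AH.em (toH T).W ℂ z)) n a :=
    fun l a => map_smul _ l a
  have h4 := h (del (AH.CW (toH T)) ((AH.CW (toH T)).corr (AH.em (toH T).W ℂ z)) n)
    ⟨Lb.del h2 h3 n, ⟨fun _ _ => map_add _ _ _, h6⟩, fun f a =>
      map_base h1 (fun a => hz'.map_nat f a) a⟩
  have h5 := (del_base h1 n b).symm.trans h4
  exact AH.em_injective h5

/-- **The Hodge classes are preserved over a number field.** -/
theorem num_full
    (h4 : ∀ c, AHS.IsHodge T (pw X 3) (2 * X.dim) c → AHS.Full.IsAbsHodge D (pw X 3) (2 * X.dim) c)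
    (i : D.ι) (a : D.J i) :
    ForFinite (D.T' i).W.K (D.L i a) fun F => ∀ (n j : ℕ) (b : T.W.H (pw X n)),
      AHS.IsHodge T (pw X n) j b → IsKilled b → Preserved (D.cmp i a) F j b := by
  obtain ⟨τ⟩ := D.emb i a
  obtain ⟨F, hF, h⟩ := num_main (T := toH T) (T' := toH (D.T' i)) (X := X)
    (D := AHS.Full.toD D) (C := cmpH D i a) (mid_main _ (prj _)) (hyp_conv h4) τ
    fun Z j c hc => by
      obtain ⟨z', hz', hzz⟩ := abs_of i Z j c hc
      exact ⟨z', hz', hzz a⟩
  refine ⟨F, hF, fun n j b hb hb' => ⟨_, mem_hodgeSums (h n j b hb fun z hz hzA => ?_),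
    (AH.nrm_eq_iff (cmpH D i a)).1 rfl⟩⟩
  rcases eq_or_ne z 0 with h0 | h0
  · exact del_corr_zero (W := (toH T).W) h0 n b
  · exact killed_of (D := D) hz hzA (hb' z (central_of hz) h0)

end Full

end Pool.Agent.Helper7K9.FP
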