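import Pool.Agent.Helper7K9.FP.Stm2

/-!
# The projector onto the Lie algebra is given by a class of middle degree
-/

open CategoryTheory AlgebraicGeometry TensorProduct

universe u v

namespace Pool.Agent.Helper7K9.FP

open Module
open Pool.Agent.H914 Pool.Agent.H914.VarClass Pool.Agent.H914.VarClass.Obj
  Pool.Agent.H914.WeilCohomology
open Pool.Agent.Y133.Half
open Pool.Agent.Y121.AH

variable {k : Type u} [Field k] {𝒱 : VarClass k} {ops : CycleOps 𝒱}

section Shift

variable {W : WeilCohomology.{u, v} ops} {X Y Z : 𝒱.Obj}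

/-- The projector onto a graded piece, indexed by the integers. -/
noncomputable def zp (W : WeilCohomology.{u, v} ops) (Y : 𝒱.Obj) (i : ℤ) :
    Module.End W.K (W.H Y) :=
  if 0 ≤ i then H914.proj (W.isInternal Y) i.toNat else 0

lemma zp_nat (i : ℕ) : zp W Y (i : ℤ) = H914.proj (W.isInternal Y) i := by simp [zp]

lemma zp_same {i : ℤ} {a : W.H Y} (ha : a ∈ grZ (W.gr Y) i) : zp W Y i a = a := by
  by_cases hi : 0 ≤ i
  · lift i to ℕ using hi
    rw [grZ_natCast] at ha
    rw [zp_nat, proj_same _ ha]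
  · rw [grZ_of_neg (by omega), Submodule.mem_bot] at ha
    rw [ha, map_zero]

lemma zp_ne {i j : ℤ} {a : W.H Y} (ha : a ∈ grZ (W.gr Y) i) (hij : i ≠ j) :
    zp W Y j a = 0 := by
  by_cases hi : 0 ≤ i
  · lift i to ℕ using hi
    by_cases hj : 0 ≤ j
    · lift j to ℕ using hj
      rw [grZ_natCast] at ha
      rw [zp_nat, proj_ne _ ha (by exact_mod_cast hij)]
    · rw [zp, if_neg hj, LinearMap.zero_apply]
  · rw [grZ_of_neg (by omega), Submodule.mem_bot] at ha
    rw [ha, map_zero]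

lemma zp_mem (i : ℤ) (a : W.H Y) : zp W Y i a ∈ grZ (W.gr Y) i := by
  by_cases hi : 0 ≤ i
  · lift i to ℕ using hi
    rw [grZ_natCast, zp_nat]
    exact proj_mem _ _ _
  · rw [zp, if_neg hi, LinearMap.zero_apply]
    exact Submodule.zero_mem _

/-- The operators of degree `m`. -/
def Sh (W : WeilCohomology.{u, v} ops) {Y Z : 𝒱.Obj} (m : ℤ) (f : W.H Y →ₗ[W.K] W.H Z) : Prop :=
  ∀ (i : ℤ) (a : W.H Y), zp W Z (i + m) (f a) = f (zp W Y i a)

variable {m : ℤ}

lemma Sh.of {f : W.H Y →ₗ[W.K] W.H Z}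
    (h : ∀ (i : ℕ) (a : W.H Y), a ∈ W.gr Y i → f a ∈ grZ (W.gr Z) (i + m)) : Sh W m f := by
  intro i a
  refine gr_induction (W.isInternal Y)
    (p := fun a => zp W Z (i + m) (f a) = f (zp W Y i a)) ?_ ?_ a
  · intro l a ha
    have ha' : a ∈ grZ (W.gr Y) (l : ℤ) := by rwa [grZ_natCast]
    by_cases hi : (l : ℤ) = i
    · subst hi
      rw [zp_same (h l a ha), zp_same ha']
    · rw [zp_ne (h l a ha) (by omega), zp_ne ha' hi, map_zero]
  · intro a b ha hb; simp only [map_add, ha, hb]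

lemma Sh.mem {f : W.H Y →ₗ[W.K] W.H Z} (h : Sh W m f) {i : ℕ} {a : W.H Y}
    (ha : a ∈ W.gr Y i) : f a ∈ grZ (W.gr Z) (i + m) := by
  have h1 := h i a
  rw [zp_same (i := (i : ℤ)) (by rwa [grZ_natCast])] at h1
  rw [← h1]
  exact zp_mem _ _

lemma Sh.add {f g : W.H Y →ₗ[W.K] W.H Z} (hf : Sh W m f) (hg : Sh W m g) : Sh W m (f + g) := by
  intro i a
  rw [LinearMap.add_apply, map_add, hf, hg, LinearMap.add_apply]

lemma xpZ_left {i : ℤ} {j : ℕ} {a : W.H Y} {b : W.H Z} (ha : a ∈ grZ (W.gr Y) i)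
    (hb : b ∈ W.gr Z j) : xp W a b ∈ grZ (W.gr (Y.prod Z)) (i + j) := by
  by_cases hi : 0 ≤ i
  · lift i to ℕ using hi
    rw [grZ_natCast] at ha
    rw [← Nat.cast_add, grZ_natCast]
    exact W.mul_mem (W.map_mem _ ha) (W.map_mem _ hb)
  · rw [grZ_of_neg (by omega), Submodule.mem_bot] at ha
    rw [ha, xp, map_zero, zero_mul]
    exact Submodule.zero_mem _

lemma xpZ_right {i : ℕ} {j : ℤ} {a : W.H Y} {b : W.H Z} (ha : a ∈ W.gr Y i)
    (hb : b ∈ grZ (W.gr Z) j) : xp W a b ∈ grZ (W.gr (Y.prod Z)) (i + j) := by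
  by_cases hj : 0 ≤ j
  · lift j to ℕ using hj
    rw [grZ_natCast] at hb
    rw [← Nat.cast_add, grZ_natCast]
    exact W.mul_mem (W.map_mem _ ha) (W.map_mem _ hb)
  · rw [grZ_of_neg (by omega), Submodule.mem_bot] at hb
    rw [hb, xp, map_zero, mul_zero]
    exact Submodule.zero_mem _

lemma Sh.dd {f : Module.End W.K (W.H Y)} {g : Module.End W.K (W.H Z)} (hf : Sh W m f)
    (hg : Sh W m g) : Sh W m (dd W f g) := by
  intro i c
  refine W.kunneth_induction (p := fun c => zp W _ (i + m) (FP.dd W f g c) =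
    FP.dd W f g (zp W _ i c)) ?_ ?_ c
  · intro a b ha hb; simp only [map_add, ha, hb]
  · intro l l' a ha b hb
    have h0 : W.map (fst Y Z) a * W.map (snd Y Z) b = xp W a b := rfl
    rw [h0]
    have h1 : xp W a b ∈ grZ (W.gr (Y.prod Z)) ((l : ℤ) + l') :=
      xpZ_left (by rwa [grZ_natCast]) hb
    have h2 : FP.dd W f g (xp W a b) ∈ grZ (W.gr (Y.prod Z)) ((l : ℤ) + l' + m) := by
      rw [dd_xp]
      refine Submodule.add_mem _ ?_ ?_
      · have := xpZ_left (W := W) (hf.mem ha) hb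
        rwa [add_right_comm] at this
      · have := xpZ_right (W := W) ha (hg.mem hb)
        rwa [← add_assoc] at this
    by_cases hi : (l : ℤ) + l' = i
    · subst hi
      rw [zp_same h1, zp_same h2]
    · rw [zp_ne h1 hi, zp_ne h2 (by omega), map_zero]

lemma Sh.del {f : Module.End W.K (W.H X)} (hf : Sh W m f) : ∀ n, Sh W m (del W f n)
  | 0 => hf
  | n + 1 => (hf.del n).dd hf

lemma corr_sh {i : ℕ} {z : W.H (X.prod Y)} (hz : z ∈ W.gr (X.prod Y) i) :
    Sh W ((i : ℤ) - 2 * X.dim) (W.corr z) := by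
  apply Sh.of
  intro l a ha
  rw [corr_apply]
  have h1 := W.push_mem (snd X Y) (W.mul_mem hz (W.map_mem (fst X Y) ha))
  have h2 : ((i + l : ℕ) : ℤ) + 2 * ((Y.dim : ℤ) - (X.prod Y).dim) = l + ((i : ℤ) - 2 * X.dim) := by
    rw [dim_prod]; push_cast; ring
  rw [h2] at h1
  exact h1

/-- The adjoint operator is unique. -/
lemma adj_unique {f g g' : Module.End W.K (W.H X)} (h : Adj W f g) (h' : Adj W f g') :
    g = g' := by
  apply LinearMap.ext
  intro b
  rw [← sub_eq_zero]
  have h5 : ∀ a, W.tr X (a * (g b - g' b)) = 0 := by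
    intro a
    rw [mul_sub, map_sub, ← h, ← h', sub_self]
  obtain ⟨w, hw⟩ : ∃ w : W.H X, w = g b - g' b := ⟨_, rfl⟩
  rw [← hw] at h5 ⊢
  apply W.nondeg
  intro c
  refine gr_induction (W.isInternal X) (p := fun c => W.tr X (w * c) = 0) ?_ ?_ c
  · intro i c hc
    have h6 : ∀ w : W.H X, W.tr X (w * c) = (-1 : W.K) ^ (i * i) * W.tr X (c * w) := by
      intro w
      refine gr_induction (W.isInternal X) (p := fun w => W.tr X (w * c) =
        (-1 : W.K) ^ (i * i) * W.tr X (c * w)) ?_ ?_ w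
      · intro j w hw
        rw [W.comm hw hc, map_smul, smul_eq_mul]
        by_cases hij : (j + i) % 2 = 0
        · congr 1
          apply neg_pow_congr
          rw [Nat.mul_mod, Nat.mul_mod i i]
          have : j % 2 = i % 2 := by omega
          rw [this]
        · have h7 : W.tr X (c * w) = 0 :=
            W.tr_eq_zero (W.mul_mem hc hw) (by omega)
          rw [h7, mul_zero, mul_zero]
      · intro a b ha hb
        rw [add_mul, map_add, ha, hb, mul_add, map_add, mul_add]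
    rw [h6, h5, mul_zero]
  · intro a b ha hb; rw [mul_add, map_add, ha, hb, add_zero]

lemma corr_neg' (z : W.H (X.prod Y)) : W.corr (-z) = -W.corr z := by
  rw [eq_neg_iff_add_eq_zero, ← corr_add, neg_add_cancel, corr_zero]

lemma swap_of_adj {z : W.H (X.prod X)} (hz : z ∈ PH W (X.prod X) 0)
    (h : Adj W (W.corr z) (-W.corr z)) : W.map (swap X X) z = -z := by
  apply corr_injective
  rw [corr_neg']
  exact adj_unique (tr_corr' hz) h

lemma adj_of_swap {z : W.H (X.prod X)} (hz : z ∈ PH W (X.prod X) 0)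
    (h : W.map (swap X X) z = -z) : Adj W (W.corr z) (-W.corr z) := by
  rw [← corr_neg', ← h]
  exact tr_corr' hz

lemma proj_map (f : X ⟶ Y) (i : ℕ) (z : W.H Y) :
    H914.proj (W.isInternal X) i (W.map f z) = W.map f (H914.proj (W.isInternal Y) i z) := by
  refine gr_induction (W.isInternal Y) (p := fun z => H914.proj (W.isInternal X) i (W.map f z) =
    W.map f (H914.proj (W.isInternal Y) i z)) ?_ ?_ z
  · intro l z hz
    by_cases hl : l = i
    · subst hl; rw [proj_same _ hz, proj_same _ (W.map_mem f hz)]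
    · rw [proj_ne _ hz hl, proj_ne _ (W.map_mem f hz) hl, map_zero]
  · intro a b ha hb; simp only [map_add, ha, hb]

lemma proj_PH {i : ℕ} {z : W.H X} {b : ℕ} (hz : z ∈ PH W X b) :
    H914.proj (W.isInternal X) i z ∈ PH W X b := by
  refine PH.ind (p := fun z => H914.proj (W.isInternal X) i z ∈ PH W X b) ?_ ?_ ?_ hz
  · intro l hl z hz
    by_cases hi : l = i
    · subst hi; rw [proj_same _ hz]; exact PH.of' hl hz
    · rw [proj_ne _ hz hi]; exact Submodule.zero_mem _
  · rw [map_zero]; exact Submodule.zero_mem _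
  · intro x y hx hy; rw [map_add]; exact Submodule.add_mem _ hx hy

lemma eq_of_proj {Z : 𝒱.Obj} {f g : W.H Y →ₗ[W.K] W.H Z} {z : W.H Y}
    (h : ∀ i, f (H914.proj (W.isInternal Y) i z) = g (H914.proj (W.isInternal Y) i z)) :
    f z = g z := by
  have h1 := scal_eq_sum (W.isInternal Y) (N := 2 * Y.dim + 1)
    (fun i hi => W.gr_eq_bot Y i (by omega)) (fun _ => (1 : W.K))
  rw [scal_one] at h1
  have h2 := congrArg (fun F : Module.End W.K (W.H Y) => F z) h1
  simp only [Module.End.one_apply, LinearMap.sum_apply, one_smul] at h2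
  rw [h2, map_sum, map_sum]
  exact Finset.sum_congr rfl fun i _ => h i

/-- The homogeneous components of the action on a homogeneous class. -/
lemma phi_zp {n : ℕ} {j : ℕ} {b : W.H (pw X n)} (hb : b ∈ W.gr (pw X n) j)
    {φ : W.H (X.prod X) →ₗ[W.K] W.H (pw X n)}
    (hφ : ∀ z ∈ PH W (X.prod X) 0, φ z = FP.del W (W.corr z) n b) (i : ℕ) {z : W.H (X.prod X)}
    (hz : z ∈ PH W (X.prod X) 0) :
    zp W (pw X n) ((j : ℤ) + (i - 2 * X.dim)) (φ z) =
      φ (H914.proj (W.isInternal (X.prod X)) i z) := by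
  refine PH.ind (p := fun z => zp W (pw X n) ((j : ℤ) + (i - 2 * X.dim)) (φ z) =
      φ (H914.proj (W.isInternal (X.prod X)) i z)) ?_ ?_ ?_ hz
  · intro l hl z hz
    have h1 : φ z ∈ grZ (W.gr (pw X n)) ((j : ℤ) + (l - 2 * X.dim)) := by
      rw [hφ z (PH.of' hl hz)]
      exact ((corr_sh hz).del n).mem hb
    by_cases hi : l = i
    · subst hi; rw [proj_same _ hz, zp_same h1]
    · rw [proj_ne _ hz hi, zp_ne h1 (by omega), map_zero]
  · rw [map_zero, map_zero, map_zero, map_zero]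
  · intro x y hx hy; simp only [map_add, hx, hy]

end Shift

section Typ

variable {T : HodgeTheory ops} {X : 𝒱.Obj}

/-- The Lie algebra is graded. -/
lemma anti_proj {z : T.W.H (X.prod X)} (hz : z ∈ PH T.W (X.prod X) 0)
    (h : Anti (hodgeSys T) X (T.W.corr z)) (i : ℕ) :
    Anti (hodgeSys T) X (T.W.corr (H914.proj (T.W.isInternal (X.prod X)) i z)) := by
  refine ⟨Ev.corr (proj_PH hz), adj_of_swap (proj_PH hz) ?_, fun n b hb => ?_⟩
  · rw [← proj_map, swap_of_adj hz h.adj, map_neg]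
  · refine ClassPred.sp_ind (Q := hodgePred T) (q := fun b =>
      del T.W (T.W.corr (H914.proj (T.W.isInternal (X.prod X)) i z)) n b = 0) ?_ ?_ ?_ hb
    · intro j b hb
      obtain ⟨φ, -, hφ⟩ := phi_exists (S := hodgeSys T) (X := X) (n := n) (b := b)
        (ClassPred.sp_of (Q := hodgePred T) hb)
      rw [← hφ _ (proj_PH hz), ← phi_zp hb.1 hφ i hz, hφ z hz,
        h.kill n b (ClassPred.sp_of (Q := hodgePred T) hb), map_zero]
    · rw [map_zero]
    · intro a b ha hb; rw [map_add, ha, hb, add_zero]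

lemma del_zero_op {W : WeilCohomology.{u, v} ops} {X : 𝒱.Obj} :
    ∀ n, del W (0 : Module.End W.K (W.H X)) n = 0
  | 0 => rfl
  | n + 1 => by
    rw [del_succ, del_zero_op n, dd, extOp_zero_left, extOp_zero_right, add_zero]
    rfl

lemma dd_add {W : WeilCohomology.{u, v} ops} {X Y : 𝒱.Obj} (a a' : Module.End W.K (W.H X))
    (b b' : Module.End W.K (W.H Y)) : dd W (a + a') (b + b') = dd W a b + dd W a' b' := by
  rw [dd, extOp_add_left, extOp_add_right, dd, dd]
  abel

lemma del_add {W : WeilCohomology.{u, v} ops} {X : 𝒱.Obj} (x y : Module.End W.K (W.H X)) :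
    ∀ n, del W (x + y) n = del W x n + del W y n
  | 0 => rfl
  | n + 1 => by rw [del_succ, del_add x y n, dd_add, del_succ, del_succ]; rfl

lemma Anti.zero {W : WeilCohomology.{u, v} ops} {S : Sys W} {X : 𝒱.Obj} :
    Anti S X (0 : Module.End W.K (W.H X)) where
  ev i x _ := Submodule.zero_mem _
  adj a b := by rw [LinearMap.zero_apply, neg_zero, LinearMap.zero_apply, zero_mul, mul_zero]
  kill n b _ := by rw [del_zero_op]; rfl

lemma Anti.add {W : WeilCohomology.{u, v} ops} {S : Sys W} {X : 𝒱.Obj}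
    {x y : Module.End W.K (W.H X)} (hx : Anti S X x) (hy : Anti S X y) : Anti S X (x + y) where
  ev := ev_add hx.ev hy.ev
  adj := by rw [neg_add]; exact adj_add hx.adj hy.adj
  kill n b hb := by rw [del_add, LinearMap.add_apply, hx.kill n b hb, hy.kill n b hb, add_zero]

/-- The component of middle degree. -/
lemma corr_mid (c₀ : T.W.H ((X.prod X).prod (X.prod X))) {i : ℕ} {z : T.W.H (X.prod X)}
    (hz : z ∈ T.W.gr (X.prod X) i) :
    T.W.corr (H914.proj (T.W.isInternal ((X.prod X).prod (X.prod X))) (2 * (2 * X.dim)) c₀) z =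
      H914.proj (T.W.isInternal (X.prod X)) i (T.W.corr c₀ z) := by
  refine gr_induction (T.W.isInternal ((X.prod X).prod (X.prod X))) (p := fun c₀ =>
    T.W.corr (H914.proj (T.W.isInternal ((X.prod X).prod (X.prod X))) (2 * (2 * X.dim)) c₀) z =
      H914.proj (T.W.isInternal (X.prod X)) i (T.W.corr c₀ z)) ?_ ?_ c₀
  · intro l c hc
    have h1 := (corr_sh hc).mem hz
    rw [← zp_nat (Y := X.prod X)]
    by_cases hl : l = 2 * (2 * X.dim)
    · have h2 : (i : ℤ) + ((l : ℤ) - 2 * (X.prod X).dim) = i := by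
        rw [hl, dim_prod]; push_cast; ring
      rw [h2] at h1
      rw [zp_same h1, ← hl, proj_same _ hc]
    · have h2 : (i : ℤ) + ((l : ℤ) - 2 * (X.prod X).dim) ≠ i := by
        rw [dim_prod]; push_cast; omega
      rw [zp_ne h1 h2, proj_ne _ hc hl, corr_zero, LinearMap.zero_apply]
  · intro a b ha hb
    rw [map_add, corr_add, LinearMap.add_apply, ha, hb, corr_add, LinearMap.add_apply, map_add]

theorem mid_main (T : HodgeTheory ops) (hP : S_PRJ T.W) : S_MID T := by
  intro X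
  obtain ⟨p, hp, hp1, hp2, -⟩ := exists_p hP X
  obtain ⟨c₀, hc₀, rfl⟩ := Sys.mem_Op.1 hp
  refine ⟨H914.proj (T.W.isInternal ((X.prod X).prod (X.prod X))) (2 * (2 * X.dim)) c₀,
    ClassPred.sp_proj (Q := hodgePred T) hc₀ (2 * X.dim), fun z hz => ?_, fun z hz hzz => ?_⟩
  · refine PH.ind (p := fun z => Anti (hodgeSys T) X (T.W.corr (T.W.corr (H914.proj
      (T.W.isInternal ((X.prod X).prod (X.prod X))) (2 * (2 * X.dim)) c₀) z))) ?_ ?_ ?_ hz
    · intro i hi z hz
      rw [corr_mid c₀ hz]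
      exact anti_proj (Sys.Op.ev hp _ _ (PH.of' hi hz)) (hp1 z (PH.of' hi hz)) i
    · rw [map_zero, corr_zero]
      exact Anti.zero
    · intro x y hx hy
      rw [map_add, corr_add]
      exact hx.add hy
  · refine eq_of_proj (g := LinearMap.id) fun i => ?_
    have h1 := proj_mem (T.W.isInternal (X.prod X)) i z
    rw [corr_mid c₀ h1, hp2 _ (proj_PH hz) (anti_proj hz hzz i), proj_same _ h1]
    rfl

end Typ

end Pool.Agent.Helper7K9.FP
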