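import Pool.Agent.Helper7K9.FP.Del
import Pool.Agent.Y121.AH.Alg

/-!
# The components of a derivation of the cohomology with extended coefficients
-/

open CategoryTheory AlgebraicGeometry TensorProduct

universe u

namespace Pool.Agent.Helper7K9.FP

open Module
open Pool.Agent.H914 Pool.Agent.H914.VarClass Pool.Agent.H914.VarClass.Obj
  Pool.Agent.H914.WeilCohomology
open Pool.Agent.Y133.Half
open Pool.Agent.Y121.AH

variable {k : Type u} [Field k] {𝒱 : VarClass k} {ops : CycleOps 𝒱}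
  {W : WeilCohomology.{u, 0} ops} {L : Type} [Field L] [Algebra W.K L] {X Y Z : 𝒱.Obj}

/-- The component of a class with coefficients extended to `L` given by a linear form on `L`. -/
noncomputable def cm (φ : L →ₗ[W.K] W.K) (Y : 𝒱.Obj) : (baseW W L).H Y →+ W.H Y :=
  ((TensorProduct.lid W.K (W.H Y)).toLinearMap ∘ₗ LinearMap.rTensor (W.H Y) φ :
    L ⊗[W.K] W.H Y →ₗ[W.K] W.H Y).toAddMonoidHom

variable (φ : L →ₗ[W.K] W.K)

lemma cm_tmul (l : L) (a : W.H Y) :
    cm φ Y (show (baseW W L).H Y from (l ⊗ₜ[W.K] a)) = φ l • a := by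
  change ((TensorProduct.lid W.K (W.H Y)).toLinearMap ∘ₗ LinearMap.rTensor (W.H Y) φ :
    L ⊗[W.K] W.H Y →ₗ[W.K] W.H Y) (l ⊗ₜ[W.K] a) = φ l • a
  simp

lemma cm_smul (r : W.K) (w : (baseW W L).H Y) : cm φ Y (ex W L r • w) = r • cm φ Y w := by
  refine tmul_ind (p := fun w => cm φ Y (ex W L r • w) = r • cm φ Y w) ?_ ?_ ?_ w
  · rw [smul_zero, map_zero, smul_zero]
  · intro x y hx hy; rw [smul_add, map_add, hx, hy, map_add, smul_add]
  · intro l a
    have h1 : ex W L r • (show (baseW W L).H Y from (l ⊗ₜ[W.K] a)) =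
        (show (baseW W L).H Y from ((r • l) ⊗ₜ[W.K] a)) := by
      change (algebraMap W.K L r) • (l ⊗ₜ[W.K] a) = (r • l) ⊗ₜ[W.K] a
      rw [TensorProduct.smul_tmul', smul_eq_mul, Algebra.smul_def]
    rw [h1, cm_tmul, cm_tmul, map_smul, smul_assoc]

lemma cm_mul_em (w : (baseW W L).H Y) (a : W.H Y) : cm φ Y (w * em W L a) = cm φ Y w * a := by
  refine tmul_ind (p := fun w => cm φ Y (w * em W L a) = cm φ Y w * a) ?_ ?_ ?_ w
  · rw [zero_mul, map_zero, zero_mul]
  · intro x y hx hy; rw [add_mul, map_add, hx, hy, map_add, add_mul]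
  · intro l b
    have h1 : (show (baseW W L).H Y from (l ⊗ₜ[W.K] b)) * em W L a =
        (show (baseW W L).H Y from (l ⊗ₜ[W.K] (b * a))) := by
      change (l ⊗ₜ[W.K] b : L ⊗[W.K] W.H Y) * ((1 : L) ⊗ₜ[W.K] a) = l ⊗ₜ[W.K] (b * a)
      rw [Algebra.TensorProduct.tmul_mul_tmul, mul_one]
    rw [h1, cm_tmul, cm_tmul, smul_mul_assoc]

lemma cm_em_mul (a : W.H Y) (w : (baseW W L).H Y) : cm φ Y (em W L a * w) = a * cm φ Y w := by
  refine tmul_ind (p := fun w => cm φ Y (em W L a * w) = a * cm φ Y w) ?_ ?_ ?_ w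
  · rw [mul_zero, map_zero, mul_zero]
  · intro x y hx hy; rw [mul_add, map_add, hx, hy, map_add, mul_add]
  · intro l b
    have h1 : em W L a * (show (baseW W L).H Y from (l ⊗ₜ[W.K] b)) =
        (show (baseW W L).H Y from (l ⊗ₜ[W.K] (a * b))) := by
      change ((1 : L) ⊗ₜ[W.K] a) * (l ⊗ₜ[W.K] b : L ⊗[W.K] W.H Y) = l ⊗ₜ[W.K] (a * b)
      rw [Algebra.TensorProduct.tmul_mul_tmul, one_mul]
    rw [h1, cm_tmul, cm_tmul, mul_smul_comm]

lemma cm_map (f : Y ⟶ Z) (w : (baseW W L).H Z) :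
    cm φ Y ((baseW W L).map f w) = W.map f (cm φ Z w) := by
  refine tmul_ind (p := fun w => cm φ Y ((baseW W L).map f w) = W.map f (cm φ Z w)) ?_ ?_ ?_ w
  · rw [map_zero, map_zero, map_zero, map_zero]
  · intro x y hx hy; rw [map_add, map_add, hx, hy, map_add, map_add]
  · intro l b
    have h1 : (baseW W L).map f (show (baseW W L).H Z from (l ⊗ₜ[W.K] b)) =
        (show (baseW W L).H Y from (l ⊗ₜ[W.K] W.map f b)) :=
      Algebra.TensorProduct.map_tmul _ _ _ _
    rw [h1, cm_tmul, cm_tmul, map_smul]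

lemma cm_gr {i : ℕ} {w : (baseW W L).H Y} (hw : w ∈ (baseW W L).gr Y i) :
    cm φ Y w ∈ W.gr Y i := by
  have hw' : w ∈ (W.gr Y i).baseChange L := hw
  refine base_induction (P := fun w : L ⊗[W.K] W.H Y =>
    cm φ Y (show (baseW W L).H Y from w) ∈ W.gr Y i) ?_ ?_ ?_ hw'
  · exact (map_zero (cm φ Y)).symm ▸ Submodule.zero_mem _
  · intro x y hx hy
    exact (map_add (cm φ Y) x y).symm ▸ Submodule.add_mem _ hx hy
  · intro l a ha
    rw [cm_tmul]
    exact Submodule.smul_mem _ _ ha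

lemma cm_tr (w : (baseW W L).H Y) : W.tr Y (cm φ Y w) = φ ((baseW W L).tr Y w) := by
  refine tmul_ind (p := fun w => W.tr Y (cm φ Y w) = φ ((baseW W L).tr Y w)) ?_ ?_ ?_ w
  · rw [map_zero, map_zero, map_zero]
    exact (map_zero φ).symm
  · intro x y hx hy
    rw [map_add, map_add, hx, hy, map_add]
    exact (map_add φ _ _).symm
  · intro l b
    have h1 : (baseW W L).tr Y (show (baseW W L).H Y from (l ⊗ₜ[W.K] b)) =
        (W.tr Y b • l : L) := by
      change formBase L (W.tr Y) (l ⊗ₜ[W.K] b) = _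
      rw [formBase_tmul, Algebra.smul_def, mul_comm]
    rw [h1, cm_tmul, map_smul, smul_eq_mul]
    have h2 : φ (W.tr Y b • l) = W.tr Y b • φ l := map_smul φ _ _
    refine Eq.trans ?_ h2.symm
    rw [smul_eq_mul, mul_comm]

omit φ in
/-- A class is determined by its components. -/
lemma eq_zero_of_cm {w : (baseW W L).H Y} (h : ∀ φ : L →ₗ[W.K] W.K, cm φ Y w = 0) : w = 0 := by
  classical
  let b := Module.finBasis W.K (W.H Y)
  obtain ⟨f, hf⟩ : ∃ f : Fin (finrank W.K (W.H Y)) → L,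
      (w : L ⊗[W.K] W.H Y) = ∑ i, f i ⊗ₜ[W.K] b i := by
    refine tmul_ind (p := fun w => ∃ f : Fin (finrank W.K (W.H Y)) → L,
      (w : L ⊗[W.K] W.H Y) = ∑ i, f i ⊗ₜ[W.K] b i) ?_ ?_ ?_ w
    · exact ⟨fun _ => 0, by simp only [TensorProduct.zero_tmul, Finset.sum_const_zero]; rfl⟩
    · rintro x y ⟨f, hf⟩ ⟨g, hg⟩
      refine ⟨fun i => f i + g i, ?_⟩
      simp only [TensorProduct.add_tmul, Finset.sum_add_distrib, ← hf, ← hg]
      rfl
    · intro l a
      refine ⟨fun i => b.repr a i • l, ?_⟩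
      simp only [TensorProduct.smul_tmul]
      rw [← TensorProduct.tmul_sum, b.sum_repr]
  have h1 : ∀ (φ : L →ₗ[W.K] W.K) i, φ (f i) = 0 := by
    intro φ i
    have h2 : cm φ Y w = ∑ i, φ (f i) • b i := by
      have h3 : w = ∑ i, (show (baseW W L).H Y from (f i ⊗ₜ[W.K] b i)) := hf
      rw [h3, map_sum]
      exact Finset.sum_congr rfl fun i _ => cm_tmul φ _ _
    rw [h φ] at h2
    exact Fintype.linearIndependent_iff.1 b.linearIndependent _ h2.symm i
  have h2 : ∀ i, f i = 0 := fun i =>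
    (Module.forall_dual_apply_eq_zero_iff W.K (f i)).1 fun φ => h1 φ i
  have h3 : w = (∑ i, (show L from f i) ⊗ₜ[W.K] b i : L ⊗[W.K] W.H Y) := hf
  rw [h3]
  simp only [h2, TensorProduct.zero_tmul, Finset.sum_const_zero]
  rfl

/-- The components of an operator with coefficients extended to `L`. -/
noncomputable def cmo (g : (baseW W L).H Y →ₗ[(baseW W L).K] (baseW W L).H Z) :
    W.H Y →ₗ[W.K] W.H Z where
  toFun v := cm φ Z (g (em W L v))
  map_add' v w := by rw [em_add, map_add, map_add]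
  map_smul' r v := by rw [em_smul, map_smul, cm_smul]; rfl

lemma cmo_apply (g : (baseW W L).H Y →ₗ[(baseW W L).K] (baseW W L).H Z) (v : W.H Y) :
    cmo φ g v = cm φ Z (g (em W L v)) := rfl

/-- The components of a derivation are derivations. -/
lemma isDer_cmo {x : ∀ Y : 𝒱.Obj, Module.End (baseW W L).K ((baseW W L).H Y)}
    (hx : IsDer (baseW W L) x) : IsDer W fun Y => cmo φ (x Y) where
  mul Y a b := by
    rw [cmo_apply, cmo_apply, cmo_apply, em_mul, hx.mul, map_add, cm_mul_em, cm_em_mul]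
  nat f b := by
    rw [cmo_apply, cmo_apply, ← em_map, hx.nat, cm_map]
  gr ha := cm_gr φ (hx.gr (em_gr ha))

lemma cmo_extOp (g : Module.End (baseW W L).K ((baseW W L).H Z)) (c : W.H (Y.prod Z)) :
    extOp W 1 (cmo φ g) c = cm φ (Y.prod Z) (extOp (baseW W L) 1 g (em W L c)) := by
  refine xp_induction (p := fun c => extOp W 1 (cmo φ g) c =
    cm φ (Y.prod Z) (extOp (baseW W L) 1 g (em W L c))) ?_ ?_ c
  · intro a b ha hb; rw [map_add, ha, hb, em_add, map_add, map_add]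
  · intro i j a _ b _
    rw [em_xp, extOp_xp, extOp_xp, xp_def, xp_def, Module.End.one_apply, Module.End.one_apply,
      em_map, cm_em_mul, cm_map, cmo_apply]

lemma em_one : em W L (1 : W.H Y) = 1 := rfl

lemma cmo_zcl (g : Module.End (baseW W L).K ((baseW W L).H X)) :
    zcl W (cmo φ g) = cm φ (X.prod X) (zcl (baseW W L) g) := by
  rw [zcl, cmo_extOp, zcl, ← em_push, em_one]

/-- The pairings of the class of a component. -/
lemma cmo_tr (g : Module.End (baseW W L).K ((baseW W L).H X)) (c : W.H (X.prod X)) :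
    W.tr _ (zcl W (cmo φ g) * c) = φ ((baseW W L).tr _ (zcl (baseW W L) g * em W L c)) := by
  rw [cmo_zcl, ← cm_mul_em, cm_tr]

section Der

variable {V : WeilCohomology.{u, 0} ops} {x : ∀ Y : 𝒱.Obj, Module.End V.K (V.H Y)}

lemma IsDer.prod (hx : IsDer V x) (Y Z : 𝒱.Obj) : x (Y.prod Z) = dd V (x Y) (x Z) := by
  apply xp_ext
  intro i j a _ b _
  rw [dd_xp, xp_def, hx.mul, hx.nat, hx.nat]
  rfl

lemma IsDer.pw (hx : IsDer V x) (X : 𝒱.Obj) :
    ∀ n, x (Pool.Agent.Y133.Half.pw X n) = del V (x X) n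
  | 0 => rfl
  | n + 1 => by
    have h := hx.prod (Pool.Agent.Y133.Half.pw X n) X
    rw [hx.pw X n] at h
    exact h

lemma IsDer.ev (hx : IsDer V x) (Y : 𝒱.Obj) : Ev V (x Y) := by
  intro b a ha
  refine PH.ind (p := fun a => x Y a ∈ PH V Y b) ?_ ?_ ?_ ha
  · intro i hi a ha; exact PH.of' hi (hx.gr ha)
  · rw [map_zero]; exact Submodule.zero_mem _
  · intro a a' ha ha'; rw [map_add]; exact Submodule.add_mem _ ha ha'

lemma IsDer.tr_zero (hx : IsDer V x) {l : V.H X} (hl : l ∈ V.gr X (2 * X.dim))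
    (hl1 : V.tr X l = 1) (h0 : x X l = 0) (a : V.H X) : V.tr X (x X a) = 0 := by
  refine gr_induction (V.isInternal X) (p := fun a => V.tr X (x X a) = 0) ?_ ?_ a
  · intro i a ha
    by_cases hi : i = 2 * X.dim
    · subst hi
      rw [top_eq hl hl1 ha, map_smul, h0, smul_zero, map_zero]
    · exact V.tr_eq_zero (hx.gr ha) hi
  · intro a b ha hb; rw [map_add, map_add, ha, hb, add_zero]

lemma IsDer.adj (hx : IsDer V x) (h : Nontrivial (V.H X) → ∃ l ∈ V.gr X (2 * X.dim),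
    V.tr X l = 1 ∧ x X l = 0) : Adj V (x X) (-x X) := by
  rcases subsingleton_or_nontrivial (V.H X) with hs | hn
  · intro a b
    rw [Subsingleton.elim (x X a * b) 0, Subsingleton.elim (a * (-x X) b) 0]
  · obtain ⟨l, hl, hl1, h0⟩ := h hn
    intro a b
    have h1 := hx.tr_zero hl hl1 h0 (a * b)
    rw [hx.mul, map_add] at h1
    rw [LinearMap.neg_apply, mul_neg, map_neg]
    exact eq_neg_of_add_eq_zero_left h1

lemma IsDer.anti (hx : IsDer V x) {S : Sys V}
    (h : Nontrivial (V.H X) → ∃ l ∈ S.C X, l ∈ V.gr X (2 * X.dim) ∧ V.tr X l = 1)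
    (hk : ∀ n, ∀ b ∈ S.C (Pool.Agent.Y133.Half.pw X n), x _ b = 0) : Anti S X (x X) where
  ev := hx.ev X
  adj := hx.adj fun hn => by
    obtain ⟨l, hl, hl2, hl1⟩ := h hn
    exact ⟨l, hl2, hl1, hk 0 l hl⟩
  kill n b hb := by rw [← hx.pw]; exact hk n b hb

end Der

end Pool.Agent.Helper7K9.FP
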