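import Pool.Agent.Helper7K9.FP.Defs

/-!
# Statements of some of the steps
-/

open CategoryTheory AlgebraicGeometry TensorProduct

universe u v

namespace Pool.Agent.Helper7K9.FP

open Module
open Pool.Agent.H914 Pool.Agent.H914.VarClass Pool.Agent.H914.VarClass.Obj
  Pool.Agent.H914.WeilCohomology
open Pool.Agent.Y133.Half
open Pool.Agent.Y121.AH

variable {k : Type u} [Field k] {𝒱 : VarClass k} {ops : CycleOps 𝒱}

/-- The projector onto the common kernel of operators of a nondegenerate system. -/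
def S_PRJ (W : WeilCohomology.{u, v} ops) : Prop :=
  ∀ (S : Sys W) (M : 𝒱.Obj), Sys.Nondeg S (M.prod M) → ∀ (ι : Type v) (N : ι → 𝒱.Obj)
    (φ : ∀ i, W.H M →ₗ[W.K] W.H (N i)), (∀ i, φ i ∈ S.Op M (N i)) →
    (∀ i, Sys.Nondeg S (M.prod (N i))) →
    ∃ p ∈ S.Op M M, (∀ i, φ i ∘ₗ p = 0) ∧ ∀ z, (∀ i, φ i z = 0) → p z = z

/-- The properties of the operator `p - q`. -/
def S_DOP (T : HodgeTheory ops) : Prop :=
  IsDer (CW T) (dop T) ∧
  (∀ (X : 𝒱.Obj) (p q : ℤ) (x : (CW T).H X), x ∈ T.pq X p q →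
    dop T X x = ((p - q : ℤ) : (CW T).K) • x) ∧
  (∀ (X : 𝒱.Obj) (c : T.W.H X), c ∈ (hodgeSys T).C X ↔ dop T X (em T.W ℂ c) = 0) ∧
  (∀ (X : 𝒱.Obj) (j : ℕ) (x : (CW T).H X), x ∈ (CW T).gr X (2 * j) → dop T X x = 0 →
    x ∈ T.pq X j j)

/-- The extension of a comparison isomorphism to complex coefficients. -/
def S_RHO (T T' : HodgeTheory ops) : Prop :=
  ∀ (L : Type) [Field L] [Algebra T.W.K L] [Algebra T'.W.K L]
    (C : Comparison (baseW T.W L) (baseW T'.W L)) (τ : L →+* ℂ) (σ : ℂ ≃+* ℂ),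
    ∃ R : Comparison (CW T) (CW T'), R.s = (show (CW T).K ≃+* (CW T').K from σ) ∧
      R.c = kap T'.W (ratAlg T' τ) C.c ∧
      ∀ (X : 𝒱.Obj) (v : T.W.H X),
        R.e X (em T.W ℂ v) = psi T'.W (ratAlg T' τ) X (C.e X (em T.W L v))

/-- The difference of the two operators `p - q` raises the Hodge filtration. -/
def S_NIL (T T' : HodgeTheory ops) : Prop :=
  ∀ (R : Comparison (CW T) (CW T')),
    (∀ (X : 𝒱.Obj) (p : ℤ) (x : (CW T).H X), x ∈ fil T X p ↔ R.e X x ∈ fil T' X p) →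
    ∀ (X : 𝒱.Obj) (c : T.W.H (X.prod X)), IsHodge T (X.prod X) X.dim c →
    ∀ N : Module.End (CW T).K ((CW T).H X),
    (∀ x, R.e X (N x) = dop T' X (R.e X x) - R.e X (dop T X x)) →
    LinearMap.trace (CW T).K ((CW T).H X)
      (H914.par ((CW T).isInternal X) ∘ₗ N ∘ₗ (CW T).corr (em T.W ℂ c)) = 0

/-- Transcendental elements are detected by derivations. -/
def S_ALGD : Prop :=
  ∀ (F L : Type) [Field F] [CharZero F] [Field L] [Algebra F L] (x : L), ¬ IsAlgebraic F x →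
    ∃ D : Derivation F L L, D x ≠ 0

end Pool.Agent.Helper7K9.FP
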