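import Pool.Agent.Helper7K9.FP.Phi
import Pool.Agent.Helper7K9.FP.Cps
import Pool.Agent.Helper7K9.FP.Stm

/-!
# The criterion for the elements of the Lie algebra of the Hodge group
-/

open CategoryTheory AlgebraicGeometry TensorProduct

universe u

namespace Pool.Agent.Helper7K9.FP

open Module
open Pool.Agent.H914 Pool.Agent.H914.VarClass Pool.Agent.H914.VarClass.Obj
  Pool.Agent.H914.WeilCohomology
open Pool.Agent.Y133.Half
open Pool.Agent.Y121.AH

variable {k : Type u} [Field k] {𝒱 : VarClass k} {ops : CycleOps 𝒱} {T : HodgeTheory ops}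
  {X : 𝒱.Obj}

lemma hodge_nd (T : HodgeTheory ops) (Z : 𝒱.Obj) : Sys.Nondeg (hodgeSys T) Z :=
  fun _ hx h => hodge_nondeg hx h

/-- The component of top degree of a class of a system. -/
lemma exists_top {W : WeilCohomology.{u, 0} ops} {Q : ClassPred W} {l : W.H X}
    (hl : l ∈ Q.sp X) (hl1 : W.tr X l = 1) : ∃ l, Q.P X X.dim l ∧ W.tr X l = 1 := by
  refine ⟨_, ClassPred.sp_proj hl X.dim, ?_⟩
  have h := tr_proj (W := W) (Nat.zero_le X.dim) (x := 1) (W.one_mem X) l
  rw [one_mul, one_mul, Nat.sub_zero] at h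
  rw [h, hl1]

/-- The classes which are invariant under all elements of the Lie algebra are Hodge classes. -/
theorem mem_of_inv (hD : S_DOP T) {z : T.W.H (X.prod X)}
    (hz : ∀ h, Anti (hodgeSys T) X h → dd T.W h h z = 0) : z ∈ (hodgeSys T).C (X.prod X) := by
  obtain ⟨h1, -, h3, -⟩ := hD
  rw [h3]
  apply eq_zero_of_cm
  intro φ
  have hder := isDer_cmo φ h1
  have hanti : Anti (hodgeSys T) X (cmo φ (dop T X)) := by
    refine hder.anti (S := hodgeSys T) ?_ ?_
    · intro hn
      obtain ⟨l, hl, hl1⟩ := exists_tr_hodge T X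
      exact ⟨l, ClassPred.sp_of (Q := hodgePred T) hl, hl.1, hl1⟩
    · intro n b hb
      rw [cmo_apply, (h3 _ _).1 hb, map_zero]
  have h4 := hz _ hanti
  rw [← hder.prod X X] at h4
  exact h4

/-- The projector onto the Lie algebra. -/
theorem exists_p (hP : S_PRJ T.W) (X : 𝒱.Obj) :
    ∃ p ∈ (hodgeSys T).Op (X.prod X) (X.prod X),
      (∀ z ∈ PH T.W (X.prod X) 0, Anti (hodgeSys T) X (T.W.corr (p z))) ∧
      (∀ z ∈ PH T.W (X.prod X) 0, Anti (hodgeSys T) X (T.W.corr z) → p z = z) ∧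
      ∀ z, p (p z) = p z := by
  have hφ : ∀ i : (Σ n, (hodgeSys T).C (pw X n)), ∃ φ ∈ (hodgeSys T).Op (X.prod X) (pw X i.1),
      ∀ z ∈ PH T.W (X.prod X) 0, φ z = del T.W (T.W.corr z) i.1 (i.2 : T.W.H (pw X i.1)) :=
    fun i => phi_exists i.2.2
  choose φ hφ1 hφ2 using hφ
  let N : Option (Σ n, (hodgeSys T).C (pw X n)) → 𝒱.Obj := fun i => match i with
    | none => X.prod X
    | some i => pw X i.1
  let Φ : ∀ i, T.W.H (X.prod X) →ₗ[T.W.K] T.W.H (N i) := fun i => match i with
    | none => LinearMap.id + (T.W.map (swap X X)).toLinearMap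
    | some i => φ i
  have hΦ : ∀ i, Φ i ∈ (hodgeSys T).Op (X.prod X) (N i) := by
    rintro (_ | i)
    · exact Submodule.add_mem _ Sys.Op.id (Sys.Op.map _)
    · exact hφ1 i
  obtain ⟨p, hp, h1, h2⟩ := hP (hodgeSys T) (X.prod X) (hodge_nd T _) _ N Φ hΦ
    (fun i => hodge_nd T _)
  refine ⟨p, hp, fun z hz => ?_, fun z hz hzz => h2 z ?_, fun z => h2 _ fun i =>
    congrArg (fun f => f z) (h1 i)⟩
  · have hpz : p z ∈ PH T.W (X.prod X) 0 := Sys.Op.ev hp _ _ hz
    refine ⟨Ev.corr hpz, ?_, fun n b hb => ?_⟩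
    · have h3 : p z + T.W.map (swap X X) (p z) = 0 := congrArg (fun f => f z) (h1 none)
      have h4 : T.W.corr (T.W.map (swap X X) (p z)) = -T.W.corr (p z) := by
        rw [eq_neg_iff_add_eq_zero, ← corr_add, add_comm, h3, corr_zero]
      rw [← h4]
      exact tr_corr' hpz
    · rw [← hφ2 ⟨n, b, hb⟩ _ hpz]
      exact congrArg (fun f => f z) (h1 (some ⟨n, b, hb⟩))
  · rintro (_ | i)
    · change z + T.W.map (swap X X) z = 0
      apply corr_inj
      rw [corr_add]
      have h3 : Adj T.W (T.W.corr z) (T.W.corr (T.W.map (swap X X) z)) := tr_corr' hz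
      have h4 : T.W.corr (T.W.map (swap X X) z) = -T.W.corr z := by
        apply LinearMap.ext
        intro b
        rw [← sub_eq_zero]
        -- the adjoint is unique
        have h5 : ∀ a, T.W.tr X (a * (T.W.corr (T.W.map (swap X X) z) b - (-T.W.corr z) b)) = 0 := by
          intro a
          rw [mul_sub, map_sub, ← h3, ← hzz.adj, sub_self]
        obtain ⟨w, hw⟩ : ∃ w : T.W.H X, w = T.W.corr (T.W.map (swap X X) z) b -
          (-T.W.corr z) b := ⟨_, rfl⟩
        rw [← hw] at h5 ⊢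
        apply T.W.nondeg
        intro c
        refine gr_induction (T.W.isInternal X) (p := fun c => T.W.tr X (w * c) = 0) ?_ ?_ c
        · intro i c hc
          have h6 : ∀ w : T.W.H X, T.W.tr X (w * c) = (-1 : T.W.K) ^ (i * i) * T.W.tr X (c * w) := by
            intro w
            refine gr_induction (T.W.isInternal X) (p := fun w => T.W.tr X (w * c) =
              (-1 : T.W.K) ^ (i * i) * T.W.tr X (c * w)) ?_ ?_ w
            · intro j w hw
              rw [T.W.comm hw hc, map_smul, smul_eq_mul]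
              by_cases hij : (j + i) % 2 = 0
              · congr 1
                apply neg_pow_congr
                rw [Nat.mul_mod, Nat.mul_mod i i]
                have : j % 2 = i % 2 := by omega
                rw [this]
              · have h7 : T.W.tr X (c * w) = 0 :=
                  T.W.tr_eq_zero (T.W.mul_mem hc hw) (by omega)
                rw [h7, mul_zero, mul_zero]
            · intro a b ha hb
              rw [add_mul, map_add, ha, hb, mul_add, map_add, mul_add]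
          rw [h6, h5, mul_zero]
        · intro a b ha hb; rw [mul_add, map_add, ha, hb, add_zero]
      rw [h4, add_neg_cancel]
    · change φ i z = 0
      rw [hφ2 i z hz]
      exact hzz.kill _ _ i.2.2

/-- The decomposition of the elements of the Lie algebra of a smaller system. -/
theorem decomp (hD : S_DOP T) {A : Sys T.W} (hA : ∀ Z, A.C Z ≤ (hodgeSys T).C Z)
    {p : Module.End T.W.K (T.W.H (X.prod X))} (hp : p ∈ (hodgeSys T).Op (X.prod X) (X.prod X))
    (hpA : p ∈ A.Op (X.prod X) (X.prod X))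
    (hp1 : ∀ z ∈ PH T.W (X.prod X) 0, Anti (hodgeSys T) X (T.W.corr (p z)))
    (hp2 : ∀ z ∈ PH T.W (X.prod X) 0, Anti (hodgeSys T) X (T.W.corr z) → p z = z)
    (hp3 : ∀ z, p (p z) = p z) {x : Module.End T.W.K (T.W.H X)} (hx : Anti A X x) :
    zcl T.W x - p (zcl T.W x) ∈ (hodgeSys T).C (X.prod X) := by
  apply mem_of_inv hD
  intro h hh
  have hp' : p ∈ (hodgeSys T).Op (pw X 1) (pw X 1) := hp
  have hpA' : p ∈ A.Op (pw X 1) (pw X 1) := hpA
  have e1 : ∀ z, dd T.W h h (p z) = p (dd T.W h h z) := fun z => hh.nat hp' z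
  have e2 : ∀ z, dd T.W x x (p z) = p (dd T.W x x z) := fun z => hx.nat hpA' z
  have e3 : dd T.W h h (zcl T.W x) = -dd T.W x x (zcl T.W h) := by
    apply corr_injective
    have h5 : T.W.corr (-dd T.W x x (zcl T.W h)) = -T.W.corr (dd T.W x x (zcl T.W h)) := by
      rw [eq_neg_iff_add_eq_zero, ← corr_add, neg_add_cancel, corr_zero]
    rw [h5, Anti.corr_dd hh.ev hh.adj hh.ev, Anti.corr_dd hx.ev hx.adj hx.ev, corr_zcl hx.ev,
      corr_zcl hh.ev]
    abel
  have e4 : p (zcl T.W h) = zcl T.W h :=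
    hp2 _ (zcl_even hh.ev) (by rw [corr_zcl hh.ev]; exact hh)
  have e5 : p (dd T.W x x (zcl T.W h)) = dd T.W x x (zcl T.W h) := by
    rw [← e2, e4]
  rw [map_sub, e1, e3, map_neg, e5, sub_self]

/-- **The criterion.** -/
theorem crit (hP : S_PRJ T.W) (hD : S_DOP T) {A : Sys T.W}
    (hA : ∀ Z, A.C Z ≤ (hodgeSys T).C Z)
    (hA4 : (hodgeSys T).C ((X.prod X).prod (X.prod X)) ≤ A.C ((X.prod X).prod (X.prod X))) :
    ∃ C₀ : Set (T.W.H (X.prod X)), (∀ c ∈ C₀, c ∈ (hodgeSys T).C (X.prod X)) ∧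
      ∀ x, Anti A X x → (Anti (hodgeSys T) X x ↔ ∀ c ∈ C₀, T.W.tr _ (zcl T.W x * c) = 0) := by
  obtain ⟨p, hp, hp1, hp2, hp3⟩ := exists_p hP X
  obtain ⟨p', hp', hadj⟩ := Sys.Op.exists_adj hp
  have hpA : p ∈ A.Op (X.prod X) (X.prod X) := by
    obtain ⟨c, hc, rfl⟩ := Sys.mem_Op.1 hp
    exact Sys.Op.corr (hA4 hc)
  refine ⟨{c | ∃ c' ∈ (hodgeSys T).C (X.prod X), c = c' - p' c'}, ?_, fun x hx => ?_⟩
  · rintro _ ⟨c, hc, rfl⟩
    exact Submodule.sub_mem _ hc (Sys.Op.apply (fun _ => le_rfl) hp' hc)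
  · have key : ∀ c, T.W.tr _ (zcl T.W x * (c - p' c)) =
        T.W.tr _ ((zcl T.W x - p (zcl T.W x)) * c) := by
      intro c
      rw [mul_sub, map_sub, sub_mul, map_sub, hadj]
    constructor
    · rintro h c ⟨c', -, rfl⟩
      rw [key, hp2 _ (zcl_even hx.ev) (by rw [corr_zcl hx.ev]; exact h), sub_self, zero_mul,
        map_zero]
    · intro h
      have h1 := decomp hD hA hp hpA hp1 hp2 hp3 hx
      have h2 : zcl T.W x - p (zcl T.W x) = 0 := by
        apply hodge_nondeg h1
        intro c hc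
        rw [← key]
        exact h _ ⟨c, hc, rfl⟩
      have h3 : x = T.W.corr (p (zcl T.W x)) := by
        rw [← sub_eq_zero.1 h2, corr_zcl hx.ev]
      rw [h3]
      exact hp1 _ (zcl_even hx.ev)

end Pool.Agent.Helper7K9.FP
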