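import Pool.Agent.Helper7K9.FP.Stm2

/-!
# The criterion for the elements of the Lie algebra of the Hodge group, in the middle degree
-/

open CategoryTheory AlgebraicGeometry TensorProduct

universe u

namespace Pool.Agent.Helper7K9.FP

open Module
open Pool.Agent.H914 Pool.Agent.H914.VarClass Pool.Agent.H914.VarClass.Obj
  Pool.Agent.H914.WeilCohomology
open Pool.Agent.Y133.Half
open Pool.Agent.Y121.AH

variable {k : Type u} [Field k] {𝒱 : VarClass k} {ops : CycleOps 𝒱} {T : HodgeTheory ops}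
  {X : 𝒱.Obj}

namespace Mid

/-- The decomposition of the elements of the Lie algebra of a smaller system. -/
theorem decomp (hD : S_DOP T) {A : Sys T.W}
    {p : Module.End T.W.K (T.W.H (X.prod X))} (hp : p ∈ (hodgeSys T).Op (X.prod X) (X.prod X))
    (hpA : p ∈ A.Op (X.prod X) (X.prod X))
    (hp2 : ∀ z ∈ PH T.W (X.prod X) 0, Anti (hodgeSys T) X (T.W.corr z) → p z = z)
    {x : Module.End T.W.K (T.W.H X)} (hx : Anti A X x) :
    zcl T.W x - p (zcl T.W x) ∈ (hodgeSys T).C (X.prod X) := by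
  apply mem_of_inv hD
  intro h hh
  have hp' : p ∈ (hodgeSys T).Op (pw X 1) (pw X 1) := hp
  have hpA' : p ∈ A.Op (pw X 1) (pw X 1) := hpA
  have e1 : ∀ z, dd T.W h h (p z) = p (dd T.W h h z) := fun z => hh.nat hp' z
  have e2 : ∀ z, dd T.W x x (p z) = p (dd T.W x x z) := fun z => hx.nat hpA' z
  have e3 : dd T.W h h (zcl T.W x) = -dd T.W x x (zcl T.W h) := by
    apply corr_injective
    have h5 : T.W.corr (-dd T.W x x (zcl T.W h)) = -T.W.corr (dd T.W x x (zcl T.W h)) := by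
      rw [eq_neg_iff_add_eq_zero, ← corr_add, neg_add_cancel, corr_zero]
    rw [h5, Anti.corr_dd hh.ev hh.adj hh.ev, Anti.corr_dd hx.ev hx.adj hx.ev, corr_zcl hx.ev,
      corr_zcl hh.ev]
    abel
  have e4 : p (zcl T.W h) = zcl T.W h :=
    hp2 _ (zcl_even hh.ev) (by rw [corr_zcl hh.ev]; exact hh)
  have e5 : p (dd T.W x x (zcl T.W h)) = dd T.W x x (zcl T.W h) := by
    rw [← e2, e4]
  rw [map_sub, e1, e3, map_neg, e5, sub_self]

/-- **The criterion.** -/
theorem crit (hM : S_MID T) (hD : S_DOP T) {A : Sys T.W}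
    (hA4 : ∀ c, IsHodge T ((X.prod X).prod (X.prod X)) (2 * X.dim) c → c ∈ A.C _) :
    ∃ C₀ : Set (T.W.H (X.prod X)), (∀ c ∈ C₀, c ∈ (hodgeSys T).C (X.prod X)) ∧
      ∀ x, Anti A X x → (Anti (hodgeSys T) X x ↔ ∀ c ∈ C₀, T.W.tr _ (zcl T.W x * c) = 0) := by
  obtain ⟨c₀, hc₀, hp1, hp2⟩ := hM X
  have hp : T.W.corr c₀ ∈ (hodgeSys T).Op (X.prod X) (X.prod X) :=
    Sys.Op.corr (ClassPred.sp_of (Q := hodgePred T) hc₀)
  have hpA : T.W.corr c₀ ∈ A.Op (X.prod X) (X.prod X) := Sys.Op.corr (hA4 _ hc₀)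
  set p : Module.End T.W.K (T.W.H (X.prod X)) := T.W.corr c₀ with hpdef
  obtain ⟨p', hp', hadj⟩ := Sys.Op.exists_adj hp
  refine ⟨{c | ∃ c' ∈ (hodgeSys T).C (X.prod X), c = c' - p' c'}, ?_, fun x hx => ?_⟩
  · rintro _ ⟨c, hc, rfl⟩
    exact Submodule.sub_mem _ hc (Sys.Op.apply (fun _ => le_rfl) hp' hc)
  · have key : ∀ c, T.W.tr _ (zcl T.W x * (c - p' c)) =
        T.W.tr _ ((zcl T.W x - p (zcl T.W x)) * c) := by
      intro c
      rw [mul_sub, map_sub, sub_mul, map_sub, hadj]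
    constructor
    · rintro h c ⟨c', -, rfl⟩
      rw [key, hp2 _ (zcl_even hx.ev) (by rw [corr_zcl hx.ev]; exact h), sub_self, zero_mul,
        map_zero]
    · intro h
      have h1 := decomp hD hp hpA hp2 hx
      have h2 : zcl T.W x - p (zcl T.W x) = 0 := by
        apply hodge_nondeg h1
        intro c hc
        rw [← key]
        exact h _ ⟨c, hc, rfl⟩
      have h3 : x = T.W.corr (p (zcl T.W x)) := by
        rw [← sub_eq_zero.1 h2, corr_zcl hx.ev]
      rw [h3]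
      exact hp1 _ (zcl_even hx.ev)

/-- The decomposition: an element of the Lie algebra of the smaller system is the sum of an element
of the Lie algebra and of a class of the middle degree. -/
theorem exists_decomp (hM : S_MID T) (hD : S_DOP T) {A : Sys T.W}
    (hA4 : ∀ c, IsHodge T ((X.prod X).prod (X.prod X)) (2 * X.dim) c → c ∈ A.C _)
    {x : Module.End T.W.K (T.W.H X)} (hx : Anti A X x)
    (hgr : zcl T.W x ∈ T.W.gr (X.prod X) (2 * X.dim)) :
    ∃ h z, Anti (hodgeSys T) X h ∧ IsHodge T (X.prod X) X.dim z ∧ x = h + T.W.corr z := by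
  obtain ⟨c₀, hc₀, hp1, hp2⟩ := hM X
  have hp : T.W.corr c₀ ∈ (hodgeSys T).Op (X.prod X) (X.prod X) :=
    Sys.Op.corr (ClassPred.sp_of (Q := hodgePred T) hc₀)
  have hpA : T.W.corr c₀ ∈ A.Op (X.prod X) (X.prod X) := Sys.Op.corr (hA4 _ hc₀)
  refine ⟨T.W.corr (T.W.corr c₀ (zcl T.W x)), zcl T.W x - T.W.corr c₀ (zcl T.W x),
    hp1 _ (zcl_even hx.ev), ?_, ?_⟩
  · have h1 := decomp hD hp hpA hp2 hx
    have h2 : T.W.corr c₀ (zcl T.W x) ∈ T.W.gr (X.prod X) (2 * X.dim) := by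
      rw [corr_apply]
      refine push_gr _ (j := 3 * X.dim) (by simp only [dim_prod]; ring) ?_
      have h3 := T.W.mul_mem hc₀.1 (T.W.map_mem (fst (X.prod X) (X.prod X)) hgr)
      have h4 : 2 * (2 * X.dim) + 2 * X.dim = 2 * (3 * X.dim) := by ring
      rwa [h4] at h3
    have h3 := ClassPred.sp_proj (Q := hodgePred T) h1 X.dim
    rw [proj_same _ (Submodule.sub_mem _ hgr h2)] at h3
    exact h3
  · have h1 : T.W.corr (zcl T.W x - T.W.corr c₀ (zcl T.W x)) =
        x - T.W.corr (T.W.corr c₀ (zcl T.W x)) := by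
      rw [eq_sub_iff_add_eq, ← corr_add, sub_add_cancel, corr_zcl hx.ev]
    rw [h1]
    abel

end Mid

end Pool.Agent.Helper7K9.FP
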