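import Pool.Agent.Y121.AHS.Law

/-!
# Derivations of the cohomology: definitions
-/

open CategoryTheory AlgebraicGeometry TensorProduct

universe u v

namespace Pool.Agent.Helper7K9.FP

open Module
open Pool.Agent.H914 Pool.Agent.H914.VarClass Pool.Agent.H914.VarClass.Obj
  Pool.Agent.H914.WeilCohomology
open Pool.Agent.Y133.Half
open Pool.Agent.Y121 (AH.HodgeTheory)
open Pool.Agent.Y121.AH

variable {k : Type u} [Field k] {𝒱 : VarClass k} {ops : CycleOps 𝒱}

section General

variable (W : WeilCohomology.{u, v} ops) {X : 𝒱.Obj}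

/-- The operator on the cohomology of the powers of `X` which acts as a derivation. -/
noncomputable def del (x : Module.End W.K (W.H X)) : ∀ n, Module.End W.K (W.H (pw X n))
  | 0 => x
  | n + 1 => (extOp W (del x n) 1 + extOp W 1 x : Module.End W.K (W.H ((pw X n).prod X)))

/-- A derivation of the cohomology theory. -/
structure IsDer (x : ∀ Y : 𝒱.Obj, Module.End W.K (W.H Y)) : Prop where
  mul : ∀ (Y : 𝒱.Obj) (a b : W.H Y), x Y (a * b) = x Y a * b + a * x Y b
  nat : ∀ {Y Z : 𝒱.Obj} (f : Y ⟶ Z) (b : W.H Z), x Y (W.map f b) = W.map f (x Z b)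
  gr : ∀ {Y : 𝒱.Obj} {i : ℕ} {a : W.H Y}, a ∈ W.gr Y i → x Y a ∈ W.gr Y i

/-- The operator `x` is even, antiselfadjoint and kills the classes of the system `S` on all
powers of `X`. -/
structure Anti {W : WeilCohomology.{u, v} ops} (S : Sys W) (X : 𝒱.Obj)
    (x : Module.End W.K (W.H X)) : Prop where
  ev : Ev W x
  adj : Adj W x (-x)
  kill : ∀ n, ∀ b ∈ S.C (pw X n), del W x n b = 0

/-- The class of the operator `x` on `X × X`. -/
noncomputable def zcl (x : Module.End W.K (W.H X)) : W.H (X.prod X) :=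
  extOp W 1 x (W.push (diag X) (1 : W.H X))

end General

section Typ

variable (T : HodgeTheory ops)

/-- The operator `p - q`. -/
noncomputable def dop (X : 𝒱.Obj) : Module.End (CW T).K ((CW T).H X) :=
  dia (Pool.Agent.Y121.AH.isInternal T X) fun r => ((r.1 - r.2 : ℤ) : (CW T).K)

/-- The Hodge filtration. -/
noncomputable def fil (X : 𝒱.Obj) (p : ℤ) : Submodule (CW T).K ((CW T).H X) :=
  ⨆ r : {r : ℤ × ℤ // p ≤ r.1}, T.pq X r.1.1 r.1.2

end Typ

end Pool.Agent.Helper7K9.FP
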