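import Pool.Agent.Helper7K9.FP.Defs

/-!
# Derivations on the powers of a variety
-/

open CategoryTheory AlgebraicGeometry TensorProduct

universe u v

namespace Pool.Agent.Helper7K9.FP

open Module
open Pool.Agent.H914 Pool.Agent.H914.VarClass Pool.Agent.H914.VarClass.Obj
  Pool.Agent.H914.WeilCohomology
open Pool.Agent.Y133.Half

variable {k : Type u} [Field k] {𝒱 : VarClass k} {ops : CycleOps 𝒱}
  {W : WeilCohomology.{u, v} ops} {X Y Z P Q M N : 𝒱.Obj} {S : Sys W}

lemma ev_one : Ev W (1 : Module.End W.K (W.H X)) := Ev.id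

lemma ev_add {a b : W.H X →ₗ[W.K] W.H Y} (ha : Ev W a) (hb : Ev W b) : Ev W (a + b) :=
  fun i x hx => Submodule.add_mem _ (ha i x hx) (hb i x hx)

lemma ev_neg {a : W.H X →ₗ[W.K] W.H Y} (ha : Ev W a) : Ev W (-a) :=
  fun i x hx => Submodule.neg_mem _ (ha i x hx)

lemma ev_sub {a b : W.H X →ₗ[W.K] W.H Y} (ha : Ev W a) (hb : Ev W b) : Ev W (a - b) :=
  fun i x hx => Submodule.sub_mem _ (ha i x hx) (hb i x hx)

lemma adj_add {a a' b b' : Module.End W.K (W.H X)} (ha : Adj W a a') (hb : Adj W b b') :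
    Adj W (a + b) (a' + b') := by
  intro x y
  rw [LinearMap.add_apply, add_mul, map_add, ha, hb, LinearMap.add_apply, mul_add, map_add]

lemma extOp_neg_left (a : Module.End W.K (W.H X)) (b : Module.End W.K (W.H Y)) :
    extOp W (-a) b = -extOp W a b := by
  rw [eq_neg_iff_add_eq_zero, ← extOp_add_left, neg_add_cancel, extOp_zero_left]

lemma extOp_neg_right (a : Module.End W.K (W.H X)) (b : Module.End W.K (W.H Y)) :
    extOp W a (-b) = -extOp W a b := by
  rw [eq_neg_iff_add_eq_zero, ← extOp_add_right, neg_add_cancel, extOp_zero_right]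

/-- The operator on a product given by operators on the factors. -/
noncomputable def dd (W : WeilCohomology.{u, v} ops) {X Y : 𝒱.Obj}
    (a : Module.End W.K (W.H X)) (b : Module.End W.K (W.H Y)) :
    Module.End W.K (W.H (X.prod Y)) :=
  extOp W a 1 + extOp W 1 b

lemma dd_xp (a : Module.End W.K (W.H X)) (b : Module.End W.K (W.H Y)) (x : W.H X) (y : W.H Y) :
    dd W a b (xp W x y) = xp W (a x) y + xp W x (b y) := by
  rw [dd, LinearMap.add_apply, extOp_xp, extOp_xp]
  rfl

lemma dd_ev {a : Module.End W.K (W.H X)} {b : Module.End W.K (W.H Y)} (ha : Ev W a)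
    (hb : Ev W b) : Ev W (dd W a b) := ev_add (ha.extOp ev_one) (ev_one.extOp hb)

lemma dd_adj {a : Module.End W.K (W.H X)} {b : Module.End W.K (W.H Y)} (ha : Ev W a)
    (hb : Ev W b) (ha' : Adj W a (-a)) (hb' : Adj W b (-b)) : Adj W (dd W a b) (-dd W a b) := by
  have h1 := adj_add (Adj.extOp ha' Adj.one (ev_neg ha) (ev_one (X := Y)))
    (Adj.extOp (Adj.one (X := X)) hb' ev_one hb)
  rw [extOp_neg_left, extOp_neg_right, ← neg_add] at h1
  exact h1

lemma del_zero (x : Module.End W.K (W.H X)) : del W x 0 = x := rfl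

lemma del_succ (x : Module.End W.K (W.H X)) (n : ℕ) :
    del W x (n + 1) = (dd W (del W x n) x : Module.End W.K (W.H ((pw X n).prod X))) := rfl

lemma del_succ_xp (x : Module.End W.K (W.H X)) (n : ℕ) (a : W.H (pw X n)) (b : W.H X) :
    del W x (n + 1) (xp W a b : W.H ((pw X n).prod X)) =
      (xp W (del W x n a) b + xp W a (x b) : W.H ((pw X n).prod X)) :=
  dd_xp _ _ _ _

lemma del_ev {x : Module.End W.K (W.H X)} (hx : Ev W x) : ∀ n, Ev W (del W x n)
  | 0 => hx
  | n + 1 => dd_ev (del_ev hx n) hx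

lemma del_adj {x : Module.End W.K (W.H X)} (hx : Ev W x) (hx' : Adj W x (-x)) :
    ∀ n, Adj W (del W x n) (-del W x n)
  | 0 => hx'
  | n + 1 => dd_adj (del_ev hx n) hx (del_adj hx hx' n) hx'

lemma map_prodCongr_xp {X' Y' : 𝒱.Obj} (α : X ≅ X') (β : Y ≅ Y') (a : W.H X') (b : W.H Y') :
    W.map (prodCongr α β).hom (xp W a b) = xp W (W.map α.hom a) (W.map β.hom b) := by
  have e1 : (prodCongr α β).hom ≫ fst X' Y' = fst X Y ≫ α.hom := Obj.lift_fst _ _
  have e2 : (prodCongr α β).hom ≫ snd X' Y' = snd X Y ≫ β.hom := Obj.lift_snd _ _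
  rw [map_xp, e1, e2, W.map_comp, W.map_comp, xp_def]

lemma map_hom_inv {Z' : 𝒱.Obj} (θ : Z' ≅ Z) (x : W.H Z') :
    W.map θ.hom (W.map θ.inv x) = x := by
  rw [← W.map_comp, θ.hom_inv_id, W.map_id]

lemma map_inv_hom {Z' : 𝒱.Obj} (θ : Z' ≅ Z) (x : W.H Z) :
    W.map θ.inv (W.map θ.hom x) = x := by
  rw [← W.map_comp, θ.inv_hom_id, W.map_id]

lemma θ₃_inv_xp (p : W.H P) (q : W.H Q) (z : W.H Z) :
    W.map (θ₃ P Q Z).inv (xp W (xp W p q) z) = xp W p (xp W q z) := by
  rw [← θ₃_xp, map_inv_hom]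

lemma dd_assoc (a : Module.End W.K (W.H P)) (b : Module.End W.K (W.H Q))
    (c : Module.End W.K (W.H Z)) (w : W.H (P.prod Q)) (z : W.H Z) :
    dd W a (dd W b c) (W.map (θ₃ P Q Z).inv (xp W w z)) =
      W.map (θ₃ P Q Z).inv (xp W (dd W a b w) z + xp W w (c z)) := by
  refine xp_induction (p := fun w => dd W a (dd W b c) (W.map (θ₃ P Q Z).inv (xp W w z)) =
      W.map (θ₃ P Q Z).inv (xp W (dd W a b w) z + xp W w (c z))) ?_ ?_ w
  · intro w w' hw hw'
    rw [xp_add_left, map_add, map_add, hw, hw', map_add (dd W a b), xp_add_left, xp_add_left,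
      ← map_add]
    congr 1
    abel
  · intro i j p _ q _
    rw [θ₃_inv_xp, dd_xp, dd_xp, dd_xp, xp_add_left, map_add, map_add, θ₃_inv_xp, θ₃_inv_xp,
      θ₃_inv_xp, xp_add_right]
    abel

lemma del_pwAdd (x : Module.End W.K (W.H X)) (m : ℕ) : ∀ (n : ℕ) (c : W.H (pw X (m + n + 1))),
    dd W (del W x m) (del W x n) (W.map (pwAdd X m n).hom c) =
      W.map (pwAdd X m n).hom (del W x (m + n + 1) c)
  | 0, c => by
    have h1 : ∀ c : W.H ((pw X m).prod X), dd W (del W x m) x
        (W.map (𝟙 ((pw X m).prod X)) c) = W.map (𝟙 ((pw X m).prod X))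
          (dd W (del W x m) x c) := fun c => by rw [W.map_id, W.map_id]
    exact h1 c
  | n + 1, c => by
    have ih := del_pwAdd x m n
    have key : ∀ c : W.H ((pw X (m + n + 1)).prod X),
        dd W (del W x m) (dd W (del W x n) x) (W.map (θ₃ (pw X m) (pw X n) X).inv
          (W.map (prodCongr (pwAdd X m n) (Iso.refl X)).hom c)) =
        W.map (θ₃ (pw X m) (pw X n) X).inv
          (W.map (prodCongr (pwAdd X m n) (Iso.refl X)).hom
            (dd W (del W x (m + n + 1)) x c)) := by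
      intro c
      refine xp_induction (p := fun c => dd W (del W x m) (dd W (del W x n) x)
        (W.map (θ₃ (pw X m) (pw X n) X).inv
          (W.map (prodCongr (pwAdd X m n) (Iso.refl X)).hom c)) =
        W.map (θ₃ (pw X m) (pw X n) X).inv
          (W.map (prodCongr (pwAdd X m n) (Iso.refl X)).hom
            (dd W (del W x (m + n + 1)) x c))) ?_ ?_ c
      · intro a b ha hb; simp only [map_add, ha, hb]
      · intro i j a _ b _
        have h1 : ∀ b : W.H X, W.map (Iso.refl X).hom b = b := fun b => W.map_id _ b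
        rw [map_prodCongr_xp, dd_assoc, ih, dd_xp, map_add, map_add, map_add, map_prodCongr_xp,
          map_prodCongr_xp, h1, h1]
    have key2 : ∀ c : W.H ((pw X (m + n + 1)).prod X),
        dd W (del W x m) (dd W (del W x n) x) (W.map ((θ₃ (pw X m) (pw X n) X).inv ≫
          (prodCongr (pwAdd X m n) (Iso.refl X)).hom) c) =
        W.map ((θ₃ (pw X m) (pw X n) X).inv ≫
          (prodCongr (pwAdd X m n) (Iso.refl X)).hom)
            (dd W (del W x (m + n + 1)) x c) := by
      intro c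
      rw [W.map_comp, W.map_comp]
      exact key c
    exact key2 c

namespace Anti

variable {x : Module.End W.K (W.H X)}

lemma kill_prod (h : Anti S X x) {m n : ℕ} {c : W.H ((pw X m).prod (pw X n))}
    (hc : c ∈ S.C ((pw X m).prod (pw X n))) : dd W (del W x m) (del W x n) c = 0 := by
  rw [← map_hom_inv (pwAdd X m n) c, del_pwAdd, h.kill _ _ (S.map _ hc), map_zero]

lemma corr_dd {a : Module.End W.K (W.H X)} {b : Module.End W.K (W.H Y)} (ha : Ev W a)
    (ha' : Adj W a (-a)) (hb : Ev W b) (c : W.H (X.prod Y)) :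
    W.corr (dd W a b c) = b ∘ₗ W.corr c - W.corr c ∘ₗ a := by
  rw [dd, LinearMap.add_apply, corr_add, corr_extOp ha' (ev_neg ha) ev_one,
    corr_extOp Adj.one ev_one hb]
  apply LinearMap.ext
  intro z
  simp only [LinearMap.add_apply, LinearMap.comp_apply, LinearMap.sub_apply, LinearMap.neg_apply,
    Module.End.one_apply, map_neg]
  abel

/-- The operator commutes with the operators of the system. -/
lemma nat (h : Anti S X x) {m n : ℕ} {f : W.H (pw X m) →ₗ[W.K] W.H (pw X n)}
    (hf : f ∈ S.Op (pw X m) (pw X n)) (a : W.H (pw X m)) :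
    del W x n (f a) = f (del W x m a) := by
  obtain ⟨c, hc, rfl⟩ := Sys.mem_Op.1 hf
  have h1 := corr_dd (del_ev h.ev m) (del_adj h.ev h.adj m) (del_ev h.ev n) c
  rw [h.kill_prod hc, corr_zero] at h1
  have h2 := congrArg (fun F : W.H (pw X m) →ₗ[W.K] W.H (pw X n) => F a) h1
  simp only [LinearMap.zero_apply, LinearMap.sub_apply, LinearMap.comp_apply] at h2
  exact sub_eq_zero.1 h2.symm

end Anti

lemma corr_zcl {x : Module.End W.K (W.H X)} (hx : Ev W x) : W.corr (zcl W x) = x := by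
  rw [zcl, corr_extOp Adj.one ev_one hx, Sys.corr_diag_one]
  rfl

lemma diag_even : W.push (diag X) (1 : W.H X) ∈ PH W (X.prod X) 0 :=
  PH.push _ (PH.of' rfl (W.one_mem X))

lemma zcl_even {x : Module.End W.K (W.H X)} (hx : Ev W x) : zcl W x ∈ PH W (X.prod X) 0 :=
  (ev_one.extOp hx) _ _ diag_even

lemma corr_injective {c d : W.H (X.prod Y)} (h : W.corr c = W.corr d) : c = d := by
  rw [← sub_eq_zero]
  apply corr_inj
  have h1 : W.corr (c - d) + W.corr d = W.corr c := by rw [← corr_add, sub_add_cancel]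
  rw [h] at h1
  exact add_eq_right.1 h1

lemma zcl_corr {c : W.H (X.prod X)} (hc : c ∈ PH W (X.prod X) 0) : zcl W (W.corr c) = c :=
  corr_injective (corr_zcl (Ev.corr hc))

end Pool.Agent.Helper7K9.FP
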