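import Mathlib

/-!
# Algebraic subextensions of finitely generated extensions are finite
-/

set_option autoImplicit false

namespace Pool.Agent.Helper7K9.FP

open IntermediateField in
open scoped IntermediateField.algebraAdjoinAdjoin in
theorem fgf_aux {K M : Type} [Field K] [Field M] [Algebra K M]
    [Algebra.EssFiniteType K M] (F : IntermediateField K M) [Algebra.IsAlgebraic K F] :
    FiniteDimensional K F := by
  obtain ⟨ι, x, hx⟩ := exists_isTranscendenceBasis' K M
  have hxF : AlgebraicIndependent F x := hx.1.extendScalars F
  have hPalg : Algebra.IsAlgebraic (adjoin K (Set.range x)) M := hx.isAlgebraic_field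
  have : Algebra.EssFiniteType (adjoin K (Set.range x)) M := Algebra.EssFiniteType.of_comp K _ M
  have : FiniteDimensional (adjoin K (Set.range x)) M :=
    Algebra.finite_of_essFiniteType_of_isAlgebraic
  have key : ∀ s : Finset F, LinearIndependent K (fun i : s => (i : F)) →
      s.card ≤ Module.finrank (adjoin K (Set.range x)) M := by
    intro s hs
    have hli : LinearIndependent (adjoin K (Set.range x)) (fun i : s => ((i : F) : M)) := by
      rw [← LinearIndependent.iff_fractionRing (Algebra.adjoin K (Set.range x)),
        Fintype.linearIndependent_iff]
      intro g hg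
      have hp : ∀ i, ∃ p : MvPolynomial ι K, MvPolynomial.aeval x p = (g i : M) := by
        intro i
        have h1 : ∀ z : M, z ∈ Algebra.adjoin K (Set.range x) →
            ∃ p : MvPolynomial ι K, MvPolynomial.aeval x p = z := by
          intro z hz
          rw [Algebra.adjoin_range_eq_range_aeval] at hz
          exact hz
        exact h1 _ (g i).2
      choose p hp using hp
      have h2 : ∑ i : s, (MvPolynomial.C (i : F) : MvPolynomial ι F) *
          MvPolynomial.map (algebraMap K F) (p i) = 0 := by
        apply hxF
        rw [map_zero, map_sum, ← hg]
        refine Finset.sum_congr rfl fun i _ => ?_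
        rw [map_mul, MvPolynomial.aeval_C, MvPolynomial.aeval_map_algebraMap, hp, Algebra.smul_def,
          mul_comm]
        rfl
      intro i
      have h3 : p i = 0 := by
        ext m
        have h4 : ∑ i : s, MvPolynomial.coeff m (p i) • (i : F) = 0 := by
          have h5 := congrArg (MvPolynomial.coeff m) h2
          rw [MvPolynomial.coeff_sum, MvPolynomial.coeff_zero] at h5
          rw [← h5]
          refine Finset.sum_congr rfl fun j _ => ?_
          rw [MvPolynomial.coeff_C_mul, MvPolynomial.coeff_map, Algebra.smul_def, mul_comm]
        rw [MvPolynomial.coeff_zero]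
        exact (Fintype.linearIndependent_iff.mp hs) _ h4 i
      have h6 := hp i
      rw [h3, map_zero] at h6
      exact Subtype.ext h6.symm
    have := hli.fintype_card_le_finrank
    rwa [Fintype.card_coe] at this
  have h1 : Module.rank K F ≤ Module.finrank (adjoin K (Set.range x)) M := rank_le key
  exact Module.rank_lt_aleph0_iff.mp (h1.trans_lt (Cardinal.natCast_lt_aleph0))

theorem fgf_main {K L : Type} [Field K] [Field L] [Algebra K L] (F M : IntermediateField K L)
    (hM : M.FG) (hF : F ≤ M) (halg : Algebra.IsAlgebraic K F) : FiniteDimensional K F := by
  have h1 : Algebra.EssFiniteType K M := IntermediateField.essFiniteType_iff.mpr hM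
  have h2 : Algebra.IsAlgebraic K (IntermediateField.restrict hF) :=
    Algebra.IsAlgebraic.of_injective (IntermediateField.restrictAlgEquiv hF).symm.toAlgHom
      (IntermediateField.restrictAlgEquiv hF).symm.injective
  have h3 := fgf_aux (IntermediateField.restrict hF)
  exact FiniteDimensional.of_injective (IntermediateField.restrictAlgEquiv hF).toAlgHom.toLinearMap
    (IntermediateField.restrictAlgEquiv hF).injective

end Pool.Agent.Helper7K9.FP
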