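import Pool.Agent.Helper7K9.FP.Tor
import Pool.Agent.Helper7K9.FP.Mid

/-!
# Derivations which kill the absolutely Hodge classes
-/

open CategoryTheory AlgebraicGeometry TensorProduct

universe u v

namespace Pool.Agent.Helper7K9.FP

open Module
open Pool.Agent.H914 Pool.Agent.H914.VarClass Pool.Agent.H914.VarClass.Obj
  Pool.Agent.H914.WeilCohomology
open Pool.Agent.Y133.Half
open Pool.Agent.Y121.AH

variable {k : Type u} [Field k] {𝒱 : VarClass k} {ops : CycleOps 𝒱}

section Leib

variable {W : WeilCohomology.{u, v} ops} {X Y Z : 𝒱.Obj}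

/-- The operator is a derivation of the cohomology ring. -/
def Lb (W : WeilCohomology.{u, v} ops) {X : 𝒱.Obj} (y : Module.End W.K (W.H X)) : Prop :=
  ∀ a b, y (a * b) = y a * b + a * y b

lemma Lb.one {y : Module.End W.K (W.H X)} (h : Lb W y) : y 1 = 0 := by
  have h1 := h 1 1
  rw [mul_one, mul_one, one_mul] at h1
  exact left_eq_add.1 h1

lemma Lb.dd {y : Module.End W.K (W.H X)} {z : Module.End W.K (W.H Y)} (hy : Lb W y)
    (hz : Lb W z) (hy' : Ev W y) (hz' : Ev W z) : Lb W (dd W y z) := by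
  intro u v
  refine xp_induction (p := fun u => FP.dd W y z (u * v) = FP.dd W y z u * v +
    u * FP.dd W y z v) ?_ ?_ u
  · intro u u' hu hu'
    rw [add_mul, map_add, hu, hu', map_add, add_mul, add_mul]; abel
  · intro i j a ha b hb
    refine xp_induction (p := fun v => FP.dd W y z (xp W a b * v) = FP.dd W y z (xp W a b) * v +
      xp W a b * FP.dd W y z v) ?_ ?_ v
    · intro v v' hv hv'
      rw [mul_add, map_add, hv, hv', map_add, mul_add, mul_add]; abel
    · intro l m c hc d hd
      rw [xp_mul a c b d hb hc, map_smul, dd_xp, dd_xp, dd_xp, add_mul, mul_add,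
        xp_mul (y a) c b d hb hc, xp_mul a c (z b) d (hz' _ _ hb) hc,
        xp_mul a (y c) b d hb (hy' _ _ hc), xp_mul a c b (z d) hb hc, hy, hz, xp_add_left,
        xp_add_right]
      simp only [smul_add]
      abel

lemma Lb.del {y : Module.End W.K (W.H X)} (hy : Lb W y) (hy' : Ev W y) :
    ∀ n, Lb W (del W y n)
  | 0 => hy
  | n + 1 => (hy.del hy' n).dd hy (del_ev hy' n) hy'

lemma one_xp (a : W.H Y) : xp W (1 : W.H X) a = W.map (snd X Y) a := by
  rw [xp, map_one, one_mul]

lemma del_prj {y : Module.End W.K (W.H X)} (hy : Lb W y) (hy' : Ev W y) : ∀ (n : ℕ)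
    (i : Fin (n + 1)) (x : W.H X), del W y n (W.map (prj X n i) x) = W.map (prj X n i) (y x)
  | 0, i, x => by
    have h1 : ∀ x : W.H X, y (W.map (𝟙 X) x) = W.map (𝟙 X) (y x) := fun x => by
      rw [W.map_id, W.map_id]
    exact h1 x
  | n + 1, i, x => by
    have ih := del_prj hy hy' n
    refine Fin.lastCases ?_ (fun i => ?_) i
    · rw [prj_last]
      have h1 : dd W (del W y n) y (W.map (snd (pw X n) X) x) =
          W.map (snd (pw X n) X) (y x) := by
        rw [← one_xp, dd_xp, (hy.del hy' n).one, one_xp, xp, map_zero, zero_mul, zero_add]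
      exact h1
    · rw [prj_castSucc]
      have h1 : dd W (del W y n) y (W.map (fst (pw X n) X ≫ prj X n i) x) =
          W.map (fst (pw X n) X ≫ prj X n i) (y x) := by
        rw [W.map_comp, W.map_comp, ← xp_one, dd_xp, ih, hy.one, xp_one, xp, map_zero, mul_zero,
          add_zero]
      exact h1

end Leib

section Ctr

variable {T : HodgeTheory ops} {X : 𝒱.Obj}

/-- The Hodge class `z` on `X × X` acts as a derivation which commutes with all Hodge classes of
middle degree. -/
structure Ctr (T : HodgeTheory ops) (X : 𝒱.Obj) (z : T.W.H (X.prod X)) : Prop where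
  hodge : IsHodge T (X.prod X) X.dim z
  comm : ∀ z', IsHodge T (X.prod X) X.dim z' →
    ∀ x, T.W.corr z (T.W.corr z' x) = T.W.corr z' (T.W.corr z x)
  skew : Adj T.W (T.W.corr z) (-T.W.corr z)
  leib : Lb T.W (T.W.corr z)

lemma Anti.neg {W : WeilCohomology.{u, v} ops} {S : Sys W} {X : 𝒱.Obj}
    {x : Module.End W.K (W.H X)} (hx : Anti S X x) : Anti S X (-x) where
  ev := ev_neg hx.ev
  adj := by
    intro a b
    rw [neg_neg, LinearMap.neg_apply, neg_mul, map_neg, hx.adj, LinearMap.neg_apply, mul_neg,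
      map_neg, neg_neg]
  kill n b hb := by
    have h1 := del_add x (-x) n
    rw [add_neg_cancel, del_zero_op] at h1
    have h2 := congrArg (fun F : Module.End W.K (W.H (pw X n)) => F b) h1
    simp only [LinearMap.zero_apply, LinearMap.add_apply] at h2
    rw [hx.kill n b hb, zero_add] at h2
    exact h2.symm

lemma Anti.mono {W : WeilCohomology.{u, v} ops} {S S' : Sys W} (h : ∀ Z, S.C Z ≤ S'.C Z)
    {X : 𝒱.Obj} {x : Module.End W.K (W.H X)} (hx : Anti S' X x) : Anti S X x :=
  ⟨hx.ev, hx.adj, fun n b hb => hx.kill n b (h _ hb)⟩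

lemma Anti.lb {W : WeilCohomology.{u, v} ops} {S : Sys W} {X : 𝒱.Obj}
    {x : Module.End W.K (W.H X)} (hx : Anti S X x) : Lb W x := by
  intro a b
  have h1 : (W.map (diag X)).toLinearMap ∈ S.Op (pw X 1) (pw X 0) :=
    Sys.Op.map (diag X)
  have h2 := hx.nat h1 (xp W a b : W.H (X.prod X))
  have h3 : del W x 1 (xp W a b : W.H (X.prod X)) =
      (xp W (x a) b + xp W a (x b) : W.H (X.prod X)) := dd_xp _ _ _ _
  have e1 : diag X ≫ fst X X = 𝟙 X := Obj.lift_fst _ _
  have e2 : diag X ≫ snd X X = 𝟙 X := Obj.lift_snd _ _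
  have h4 : ∀ a b : W.H X, W.map (diag X) (xp W a b) = a * b := by
    intro a b
    rw [map_xp, e1, e2, W.map_id, W.map_id]
  have h5 : (W.map (diag X)).toLinearMap (del W x 1 (xp W a b : W.H (X.prod X))) =
      x a * b + a * x b := by
    rw [h3]
    change W.map (diag X) (xp W (x a) b + xp W a (x b)) = _
    rw [map_add, h4, h4]
  have h6 : del W x 0 ((W.map (diag X)).toLinearMap (xp W a b : W.H (X.prod X))) = x (a * b) :=
    congrArg x (h4 a b)
  exact h6.symm.trans (h2.trans h5)

/-- The derivation is compatible with all morphisms. -/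
lemma Anti.map_nat {W : WeilCohomology.{u, v} ops} {S : Sys W} {X : 𝒱.Obj}
    {x : Module.End W.K (W.H X)} (hx : Anti S X x) {n : ℕ} (f : pw X n ⟶ X) (a : W.H X) :
    del W x n (W.map f a) = W.map f (x a) := by
  have h1 : (W.map f).toLinearMap ∈ S.Op (pw X 0) (pw X n) := Sys.Op.map f
  exact hx.nat h1 a

/-- The Hodge classes which are killed by the derivations of the center are killed by all
derivations which kill the absolutely Hodge classes. -/
theorem kill_of (hM : S_MID T) (hD : S_DOP T) {D : Conjugates T}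
    (hH : ∀ c, IsHodge T ((X.prod X).prod (X.prod X)) (2 * X.dim) c →
      IsAbsHodge D ((X.prod X).prod (X.prod X)) (2 * X.dim) c)
    {L : Type} [Field L] [Algebra T.W.K L]
    {x : ∀ Y : 𝒱.Obj, Module.End (baseW T.W L).K ((baseW T.W L).H Y)}
    (hx : IsDer (baseW T.W L) x) (hk : ∀ Z, ∀ c ∈ (absSys D).C Z, x Z (em T.W L c) = 0)
    {n j : ℕ} {b : T.W.H (pw X n)} (hb : IsHodge T (pw X n) j b)
    (hb' : ∀ z, Ctr T X z → Anti (absSys D) X (T.W.corr z) → del T.W (T.W.corr z) n b = 0) :
    x (pw X n) (em T.W L b) = 0 := by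
  have hle : ∀ Z, (absSys D).C Z ≤ (hodgeSys T).C Z := abs_le_hodge D
  apply eq_zero_of_cm
  intro φ
  have hder := isDer_cmo φ hx
  have hanti : Anti (absSys D) X (cmo φ (x X)) := by
    refine hder.anti (S := absSys D) ?_ ?_
    · intro hn
      obtain ⟨l, hl, hl1⟩ := exists_tr D X
      obtain ⟨l', hl', hl1'⟩ := exists_top (Q := absPred D) hl hl1
      exact ⟨l', ClassPred.sp_of (Q := absPred D) hl', hl'.1.1, hl1'⟩
    · intro n b hb
      rw [cmo_apply, hk _ _ hb, map_zero]
  have hgr : zcl T.W (cmo φ (x X)) ∈ T.W.gr (X.prod X) (2 * X.dim) :=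
    zcl_gr fun {i a} ha => hder.gr ha
  obtain ⟨h, z, hh, hz, hxz⟩ := Mid.exists_decomp hM hD
    (fun c hc => ClassPred.sp_of (Q := absPred D) (hH c hc)) hanti hgr
  have hz' : Anti (absSys D) X (T.W.corr z) := by
    have h1 : T.W.corr z = cmo φ (x X) + -h := by rw [hxz]; abel
    rw [h1]
    exact hanti.add (hh.mono hle).neg
  have hc : Ctr T X z := by
    refine ⟨hz, fun z' hz'' a => ?_, hz'.adj, hz'.lb⟩
    have h1 : T.W.corr z' ∈ (absSys D).Op (pw X 0) (pw X 0) :=
      Sys.Op.corr (ClassPred.sp_of (Q := absPred D) (abs_sq hH hz''))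
    exact hz'.nat h1 a
  have h1 := hb' z hc hz'
  have h2 := hh.kill n b (ClassPred.sp_of (Q := hodgePred T) hb)
  have h3 : del T.W (cmo φ (x X)) n b = 0 := by
    rw [hxz, del_add, LinearMap.add_apply, h1, h2, add_zero]
  rw [← hder.pw X n] at h3
  exact h3

end Ctr

end Pool.Agent.Helper7K9.FP
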