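import Pool.Agent.Helper7K9.FP.Del
import Pool.Agent.Y133.Half.PairPow
import Pool.Agent.Y133.Half.Growth

/-!
# The action of classes on the product on a class of the system is given by the system
-/

open CategoryTheory AlgebraicGeometry TensorProduct

universe u v

namespace Pool.Agent.Helper7K9.FP

open Module
open Pool.Agent.H914 Pool.Agent.H914.VarClass Pool.Agent.H914.VarClass.Obj
  Pool.Agent.H914.WeilCohomology
open Pool.Agent.Y133.Half

variable {k : Type u} [Field k] {𝒱 : VarClass k} {ops : CycleOps 𝒱}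
  {W : WeilCohomology.{u, v} ops} {X Y Z P Q M N : 𝒱.Obj} {S : Sys W}

/-- The map `z ↦ (z ⊗ 1) b` is given by the system. -/
lemma phi_base {b : W.H (X.prod Y)} (hb : b ∈ S.C (X.prod Y)) :
    ∃ φ ∈ S.Op (X.prod X) (X.prod Y), ∀ z ∈ PH W (X.prod X) 0,
      φ z = extOp W (W.corr z) 1 b := by
  refine ⟨(W.push (p13 X X Y) ∘ₗ LinearMap.mulLeft W.K (W.map (p23 X X Y) b)) ∘ₗ
    (W.map (p12 X X Y)).toLinearMap ∘ₗ (W.map (swap X X)).toLinearMap,
    Sys.Op.comp (Sys.Op.pushMul _ (S.map _ hb)) (Sys.Op.comp (Sys.Op.map _) (Sys.Op.map _)),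
    fun z hz => ?_⟩
  apply corr_injective
  have hz' : W.map (swap X X) z ∈ PH W (X.prod X) 0 := PH.map _ hz
  have h1 : Adj W (W.corr z) (W.corr (W.map (swap X X) z)) := tr_corr' hz
  rw [corr_extOp h1 (Ev.corr hz') ev_one]
  have h2 := corr_comp' (W.map (swap X X) z) (S.even hb)
  have h3 : ((W.push (p13 X X Y) ∘ₗ LinearMap.mulLeft W.K (W.map (p23 X X Y) b)) ∘ₗ
    (W.map (p12 X X Y)).toLinearMap ∘ₗ (W.map (swap X X)).toLinearMap) z =
      W.push (p13 X X Y) (W.map (p12 X X Y) (W.map (swap X X) z) * W.map (p23 X X Y) b) := by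
    simp only [LinearMap.comp_apply, LinearMap.mulLeft_apply, AlgHom.toLinearMap_apply]
    rw [PH.even_comm (PH.map _ (S.even hb))]
  rw [h3, h2]
  rfl

/-- `(P × X) × Y ≅ X × (P × Y)`. -/
noncomputable def θ₄ (P X Y : 𝒱.Obj) : (P.prod X).prod Y ≅ X.prod (P.prod Y) :=
  prodCongr (prodComm P X) (Iso.refl Y) ≪≫ θ₃ X P Y

lemma prodComm_xp {a b : ℕ} {p : W.H P} (hp : p ∈ PH W P a) {x : W.H X} (hx : x ∈ PH W X b) :
    W.map (prodComm P X).hom (xp W x p) = (-1 : W.K) ^ (a * b) • xp W p x := by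
  have e1 : (prodComm P X).hom ≫ fst X P = snd P X := Obj.lift_fst _ _
  have e2 : (prodComm P X).hom ≫ snd X P = fst P X := Obj.lift_snd _ _
  rw [map_xp, e1, e2, PH.comm (PH.map _ hx) (PH.map _ hp), mul_comm b a]
  rfl

lemma prodComm_op {g : Module.End W.K (W.H X)} (hg : Ev W g) (c : W.H (X.prod P)) :
    extOp W (1 : Module.End W.K (W.H P)) g (W.map (prodComm P X).hom c) =
      W.map (prodComm P X).hom (extOp W g 1 c) := by
  refine xp_induction (p := fun c => extOp W (1 : Module.End W.K (W.H P)) g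
    (W.map (prodComm P X).hom c) = W.map (prodComm P X).hom (extOp W g 1 c)) ?_ ?_ c
  · intro a b ha hb; simp only [map_add, ha, hb]
  · intro i j x hx p hp
    rw [prodComm_xp hp hx, map_smul, extOp_xp, extOp_xp, Module.End.one_apply,
      prodComm_xp hp (hg _ _ hx)]

lemma θ₄_op {g : Module.End W.K (W.H X)} (hg : Ev W g) (c : W.H (X.prod (P.prod Y))) :
    extOp W (extOp W (1 : Module.End W.K (W.H P)) g) 1 (W.map (θ₄ P X Y).hom c) =
      W.map (θ₄ P X Y).hom (extOp W g 1 c) := by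
  have h1 : (θ₄ P X Y).hom = (prodCongr (prodComm P X) (Iso.refl Y)).hom ≫ (θ₃ X P Y).hom := rfl
  rw [h1, W.map_comp, W.map_comp, ← θ₃_op]
  refine xp_induction (p := fun d => extOp W (extOp W (1 : Module.End W.K (W.H P)) g) 1
    (W.map (prodCongr (prodComm P X) (Iso.refl Y)).hom d) =
      W.map (prodCongr (prodComm P X) (Iso.refl Y)).hom
        (extOp W (extOp W g (1 : Module.End W.K (W.H P))) 1 d)) ?_ ?_ (W.map (θ₃ X P Y).hom c)
  · intro a b ha hb; simp only [map_add, ha, hb]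
  · intro i j x _ y _
    rw [map_prodCongr_xp, extOp_xp, extOp_xp, map_prodCongr_xp, prodComm_op hg]
    rfl

/-- The map `z ↦ (δ_n(z) ⊗ 1) b` is given by the system. -/
lemma phi_prod (n : ℕ) : ∀ (Y : 𝒱.Obj) (b : W.H ((pw X n).prod Y)), b ∈ S.C ((pw X n).prod Y) →
    ∃ φ ∈ S.Op (X.prod X) ((pw X n).prod Y), ∀ z ∈ PH W (X.prod X) 0,
      φ z = extOp W (del W (W.corr z) n) 1 b := by
  induction n with
  | zero => intro Y b hb; exact phi_base hb
  | succ n ih =>
    intro Y b hb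
    have key : ∀ b : W.H (((pw X n).prod X).prod Y), b ∈ S.C (((pw X n).prod X).prod Y) →
        ∃ φ ∈ S.Op (X.prod X) (((pw X n).prod X).prod Y), ∀ z ∈ PH W (X.prod X) 0,
          φ z = extOp W (extOp W (del W (W.corr z) n) 1 + extOp W 1 (W.corr z)) 1 b := by
      intro b hb
      obtain ⟨φ₁, h₁, h₁'⟩ := ih (X.prod Y) (W.map (θ₃ (pw X n) X Y).inv b) (S.map _ hb)
      obtain ⟨φ₂, h₂, h₂'⟩ := phi_base (S := S) (X := X) (Y := (pw X n).prod Y)
        (b := W.map (θ₄ (pw X n) X Y).inv b) (S.map _ hb)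
      refine ⟨(W.map (θ₃ (pw X n) X Y).hom).toLinearMap ∘ₗ φ₁ +
        (W.map (θ₄ (pw X n) X Y).hom).toLinearMap ∘ₗ φ₂,
        Submodule.add_mem _ (Sys.Op.comp (Sys.Op.map _) h₁) (Sys.Op.comp (Sys.Op.map _) h₂),
        fun z hz => ?_⟩
      rw [LinearMap.add_apply, LinearMap.comp_apply, LinearMap.comp_apply, h₁' z hz, h₂' z hz,
        AlgHom.toLinearMap_apply, AlgHom.toLinearMap_apply, ← θ₃_op, ← θ₄_op (Ev.corr hz),
        map_hom_inv, map_hom_inv, extOp_add_left, LinearMap.add_apply]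
    exact key b hb

lemma xp_one (a : W.H P) : xp W a (1 : W.H Q) = W.map (fst P Q) a := by
  rw [xp, map_one, mul_one]

/-- The map `z ↦ δ_n(z) b` is given by the system. -/
theorem phi_exists {n : ℕ} {b : W.H (pw X n)} (hb : b ∈ S.C (pw X n)) :
    ∃ φ ∈ S.Op (X.prod X) (pw X n), ∀ z ∈ PH W (X.prod X) 0,
      φ z = del W (W.corr z) n b := by
  obtain ⟨φ, h, h'⟩ := phi_prod n X (W.map (fst (pw X n) X) b) (S.map _ hb)
  let s : pw X n ⟶ (pw X n).prod X := Obj.lift (𝟙 _) (prj X n 0)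
  have hs : s ≫ fst (pw X n) X = 𝟙 _ := Obj.lift_fst _ _
  refine ⟨(W.map s).toLinearMap ∘ₗ φ, Sys.Op.comp (Sys.Op.map _) h, fun z hz => ?_⟩
  rw [LinearMap.comp_apply, h' z hz, ← xp_one, extOp_xp, Module.End.one_apply, xp_one,
    AlgHom.toLinearMap_apply, ← W.map_comp, hs, W.map_id]

end Pool.Agent.Helper7K9.FP
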