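import Pool.Agent.Helper7K9.FP.Crit

/-!
# Statements of some of the steps, continued
-/

open CategoryTheory AlgebraicGeometry TensorProduct

universe u v

namespace Pool.Agent.Helper7K9.FP

open Module
open Pool.Agent.H914 Pool.Agent.H914.VarClass Pool.Agent.H914.VarClass.Obj
  Pool.Agent.H914.WeilCohomology
open Pool.Agent.Y133.Half
open Pool.Agent.Y121.AH

variable {k : Type u} [Field k] {𝒱 : VarClass k} {ops : CycleOps 𝒱}

/-- The derivation of the cohomology theory given by a derivation of the coefficients and a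
comparison isomorphism. -/
def S_DRV (T T' : HodgeTheory ops) : Prop :=
  ∀ (L : Type) [Field L] [Algebra T.W.K L] [Algebra T'.W.K L]
    (C : Comparison (baseW T.W L) (baseW T'.W L)) (D : Derivation T'.W.K L L),
    ∃ x : ∀ Y : 𝒱.Obj, Module.End (baseW T.W L).K ((baseW T.W L).H Y), IsDer (baseW T.W L) x ∧
      ∀ (Y : 𝒱.Obj) (j : ℕ) (v : T.W.H Y), v ∈ T.W.gr Y (2 * j) → ∀ y : T'.W.H Y,
        (baseW T'.W L).tr Y (C.e Y (x Y (em T.W L v)) * em T'.W L y) =
          (show (baseW T'.W L).K from (show L from C.c) ^ j *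
            D (show L from (baseW T'.W L).tr Y (nrm C Y j v * em T'.W L y)))

/-- The projector onto the Lie algebra is given by a Hodge class of middle degree. -/
def S_MID (T : HodgeTheory ops) : Prop :=
  ∀ X : 𝒱.Obj, ∃ c, IsHodge T ((X.prod X).prod (X.prod X)) (2 * X.dim) c ∧
    (∀ z ∈ PH T.W (X.prod X) 0, Anti (hodgeSys T) X (T.W.corr (T.W.corr c z))) ∧
    ∀ z ∈ PH T.W (X.prod X) 0, Anti (hodgeSys T) X (T.W.corr z) → T.W.corr c z = z

end Pool.Agent.Helper7K9.FP
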