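import Pool.Agent.Helper7K9.FP.Stm2

/-!
# Statements of some of the steps, continued
-/

open CategoryTheory AlgebraicGeometry TensorProduct

universe u v

namespace Pool.Agent.Helper7K9.FP

open Module
open Pool.Agent.H914 Pool.Agent.H914.VarClass Pool.Agent.H914.VarClass.Obj
  Pool.Agent.H914.WeilCohomology
open Pool.Agent.Y133.Half
open Pool.Agent.Y121.AH

variable {k : Type u} [Field k] {𝒱 : VarClass k} {ops : CycleOps 𝒱}

/-- Algebraic subextensions of finitely generated extensions are finite. -/
def S_FGF : Prop :=
  ∀ (K L : Type) [Field K] [CharZero K] [Field L] [Algebra K L] (F M : IntermediateField K L),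
    M.FG → F ≤ M → Algebra.IsAlgebraic K F → FiniteDimensional K F

/-- The coefficients of a comparison isomorphism on all powers of `X` generate a finitely
generated extension. -/
def S_COE (T T' : HodgeTheory ops) : Prop :=
  ∀ (L : Type) [Field L] [Algebra T.W.K L] [Algebra T'.W.K L]
    (C : Comparison (baseW T.W L) (baseW T'.W L)) (X : 𝒱.Obj),
    ∃ M : IntermediateField T'.W.K L, M.FG ∧ (show L from C.c) ∈ M ∧
      ∀ (n : ℕ) (v : T.W.H (pw X n)) (y : T'.W.H (pw X n)),
        (show L from (baseW T'.W L).tr _ (C.e _ (em T.W L v) * em T'.W L y)) ∈ M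

end Pool.Agent.Helper7K9.FP
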